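import Pool.Agent.Helper61.Lac.Base

/-!
# LC-10: the limit of the lacunary construction (MP_78803a_an, l = 1)
-/

set_option autoImplicit false

open Filter Topology Metric Complex Polynomial Real
open scoped ComplexConjugate

namespace Pool.Agent.Helper61.Lac

/-- the statement of LC-9 -/
def StepStatement : Prop :=
  ∀ (κ : ℝ) (_ : 0 < κ) (k : ℂ[X]) (ξ : ℂ → ℂ)
    (_ : ∀ z, HasDerivAt ξ (Complex.exp (k.eval z)) z) (_ : ξ 0 = 0) (ε : ℝ) (_ : 0 < ε) (ρ : ℝ)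
    (_ : ρ < 1),
    ∃ (k₁ : ℂ[X]) (ξ₁ : ℂ → ℂ) (R : ℝ),
      (∀ z, HasDerivAt ξ₁ (Complex.exp (k₁.eval z)) z) ∧ ξ₁ 0 = 0 ∧ ρ < R ∧ 0 < R ∧ R < 1 ∧
      (∀ z, ‖z‖ ≤ ρ → ‖k₁.eval z - k.eval z‖ ≤ ε) ∧
      (∀ z, ‖z‖ ≤ ρ → ‖ξ₁ z - ξ z‖ ≤ ε) ∧
      (∀ z, ‖z‖ < 1 → (ξ₁ z).re ≤ max ((ξ z).re + ε) ((κ + ε) * (-Real.log (1 - ‖z‖)))) ∧
      (κ - ε) * (-Real.log (1 - R)) ≤ circleAverage (fun z => max (ξ₁ z).re 0) 0 R

namespace LC10

/-- dependent choice along the natural numbers -/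
lemma exists_seq {S : Type} (P : ℕ → S → Prop) (Q : ℕ → S → S → Prop)
    (h0 : ∃ s, P 0 s) (hs : ∀ n s, P n s → ∃ s', P (n + 1) s' ∧ Q n s s') :
    ∃ f : ℕ → S, (∀ n, P n (f n)) ∧ ∀ n, Q n (f n) (f (n + 1)) := by
  classical
  obtain ⟨s0, hs0⟩ := h0
  choose! g hg1 hg2 using hs
  let f : ℕ → S := fun n => Nat.rec s0 (fun m s => g m s) n
  have hP : ∀ n, P n (f n) := by
    intro n
    induction n with
    | zero => exact hs0
    | succ n ih => exact hg1 n (f n) ih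
  exact ⟨f, hP, fun n => hg2 n (f n) (hP n)⟩

/-- limits of sequences with geometric control on an exhaustion of the disc -/
lemma exists_lim (f : ℕ → ℂ → ℂ) (ρ : ℕ → ℝ) (hmono : Monotone ρ)
    (hρ : ∀ z : ℂ, ‖z‖ < 1 → ∃ n, ‖z‖ ≤ ρ n)
    (h : ∀ n z, ‖z‖ ≤ ρ n → ‖f (n + 1) z - f n z‖ ≤ 1 / 2 ^ (n + 2)) :
    ∃ g : ℂ → ℂ, ∀ n z, ‖z‖ ≤ ρ n → ‖z‖ < 1 → ‖g z - f n z‖ ≤ 1 / 2 ^ (n + 1) := by
  classical
  have key : ∀ n z, ‖z‖ ≤ ρ n → ∀ m, dist (f (n + m) z) (f (n + (m + 1)) z)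
      ≤ (1 / 2 ^ (n + 1)) / 2 / 2 ^ m := by
    intro n z hz m
    rw [dist_comm, dist_eq_norm]
    refine (h (n + m) z (hz.trans (hmono (by omega)))).trans (le_of_eq ?_)
    rw [div_div, div_div]
    congr 1
    ring
  have hc : ∀ z : ℂ, ‖z‖ < 1 → ∃ a, Tendsto (fun m => f m z) atTop (𝓝 a) := by
    intro z hz
    obtain ⟨n, hn⟩ := hρ z hz
    have h1 := cauchySeq_of_le_geometric_two (key n z hn)
    obtain ⟨a, ha⟩ := cauchySeq_tendsto_of_complete h1
    refine ⟨a, ?_⟩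
    have h2 : Tendsto (fun m => f (m + n) z) atTop (𝓝 a) := by
      refine ha.congr fun m => ?_
      rw [add_comm]
    exact (tendsto_add_atTop_iff_nat n).1 h2
  choose! g hg using hc
  refine ⟨g, fun n z hz hz1 => ?_⟩
  have h1 : Tendsto (fun m => f (n + m) z) atTop (𝓝 (g z)) := by
    have h2 := (tendsto_add_atTop_iff_nat n).2 (hg z hz1)
    refine h2.congr fun m => ?_
    rw [add_comm]
  have h3 := dist_le_of_le_geometric_two_of_tendsto₀ (key n z hz) h1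
  rw [dist_comm, dist_eq_norm] at h3
  simpa using h3

/-- uniform control on an exhaustion gives locally uniform convergence -/
lemma tendsto_lu (f : ℕ → ℂ → ℂ) (g : ℂ → ℂ) (ρ : ℕ → ℝ) (hmono : Monotone ρ)
    (hρ : ∀ z : ℂ, ‖z‖ < 1 → ∃ n, ‖z‖ < ρ n)
    (h : ∀ n z, ‖z‖ ≤ ρ n → ‖z‖ < 1 → ‖g z - f n z‖ ≤ 1 / 2 ^ (n + 1)) :
    TendstoLocallyUniformlyOn f g atTop (ball 0 1) := by
  rw [Metric.tendstoLocallyUniformlyOn_iff]
  intro ε hε z hz
  have hz1 : ‖z‖ < 1 := by simpa using hz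
  obtain ⟨n, hn⟩ := hρ z hz1
  refine ⟨{w : ℂ | ‖w‖ < ρ n} ∩ ball 0 1, ?_, ?_⟩
  · refine mem_nhdsWithin_of_mem_nhds (Filter.inter_mem ?_ ?_)
    · exact (isOpen_lt continuous_norm continuous_const).mem_nhds hn
    · exact isOpen_ball.mem_nhds hz
  · have h1 : ∀ᶠ m : ℕ in atTop, (1 : ℝ) / 2 ^ (m + 1) < ε := by
      have h2 : Tendsto (fun m : ℕ => ((1 : ℝ) / 2) ^ m) atTop (𝓝 0) :=
        tendsto_pow_atTop_nhds_zero_of_lt_one (by norm_num) (by norm_num)
      have h3 := (tendsto_add_atTop_iff_nat 1).2 h2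
      have h4 := h3.eventually (gt_mem_nhds hε)
      filter_upwards [h4] with m hm
      simpa [div_pow] using hm
    filter_upwards [h1, eventually_ge_atTop n] with m hm hnm w hw
    rw [dist_eq_norm]
    have hw1 : ‖w‖ < 1 := by simpa using hw.2
    exact (h m w (hw.1.le.trans (hmono hnm)) hw1).trans_lt hm

/-- choice of the next radius -/
lemma exists_rho {a κ β K δ : ℝ} (ha : a < 1) (hκ : 0 < κ) (hβ : β < 1) (hδ : 0 < δ) :
    ∃ ρ : ℝ, a < ρ ∧ 0 < ρ ∧ ρ < 1 ∧ K ≤ κ * (-Real.log (1 - ρ)) ∧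
      Real.exp 1 * ((1 - ρ) ^ (1 - β) / (1 - β)) ≤ δ := by
  have hβ' : 0 < 1 - β := by linarith
  have h1 : Tendsto (fun ρ : ℝ => 1 - ρ) (𝓝[<] 1) (𝓝[>] 0) := by
    rw [tendsto_nhdsWithin_iff]
    constructor
    · have : Tendsto (fun ρ : ℝ => 1 - ρ) (𝓝 1) (𝓝 (1 - 1)) := by
        exact (continuous_const.sub continuous_id).tendsto 1
      rw [sub_self] at this
      exact this.mono_left nhdsWithin_le_nhds
    · filter_upwards [self_mem_nhdsWithin] with ρ hρ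
      simp only [Set.mem_Iio] at hρ
      simp only [Set.mem_Ioi]
      linarith
  have h2 : Tendsto (fun ρ : ℝ => κ * (-Real.log (1 - ρ))) (𝓝[<] 1) atTop := by
    refine Tendsto.const_mul_atTop hκ ?_
    exact tendsto_neg_atBot_atTop.comp (Real.tendsto_log_nhdsGT_zero.comp h1)
  have h3 : Tendsto (fun ρ : ℝ => Real.exp 1 * ((1 - ρ) ^ (1 - β) / (1 - β))) (𝓝[<] 1) (𝓝 0) := by
    have h4 : Tendsto (fun x : ℝ => x ^ (1 - β)) (𝓝[>] 0) (𝓝 0) := by
      have h5 : ContinuousAt (fun x : ℝ => x ^ (1 - β)) 0 :=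
        Real.continuousAt_rpow_const 0 (1 - β) (Or.inr hβ'.le)
      have h6 := h5.tendsto
      rw [Real.zero_rpow hβ'.ne'] at h6
      exact h6.mono_left nhdsWithin_le_nhds
    have h7 := ((h4.comp h1).div_const (1 - β)).const_mul (Real.exp 1)
    simpa using h7
  have e1 := h2.eventually_ge_atTop K
  have e2 := h3.eventually (ge_mem_nhds hδ)
  have e3 : ∀ᶠ ρ : ℝ in 𝓝[<] 1, ρ ∈ Set.Ioo (max a 0) 1 :=
    Ioo_mem_nhdsLT (max_lt ha one_pos)
  obtain ⟨ρ, ⟨hρ1, hρ2⟩, hρ3⟩ := ((e1.and e2).and e3).exists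
  exact ⟨ρ, (le_max_left _ _).trans_lt hρ3.1, (le_max_right _ _).trans_lt hρ3.1, hρ3.2, hρ1, hρ2⟩

/-- the growth of `κ_n` -/
noncomputable def kap (α₀ : ℝ) (n : ℕ) : ℝ := α₀ * (1 - 1 / ((n : ℝ) + 2))

/-- the errors -/
noncomputable def eps (α₀ : ℝ) (n : ℕ) : ℝ := α₀ / 2 ^ (n + 2)

lemma kap_pos {α₀ : ℝ} (h : 0 < α₀) (n : ℕ) : 0 < kap α₀ n := by
  have h1 : (1 : ℝ) / ((n : ℝ) + 2) < 1 := by
    rw [div_lt_one (by positivity)]
    have : (0 : ℝ) ≤ n := n.cast_nonneg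
    linarith
  unfold kap
  exact mul_pos h (by linarith)

lemma eps_pos {α₀ : ℝ} (h : 0 < α₀) (n : ℕ) : 0 < eps α₀ n := by
  unfold eps
  positivity

lemma eps_le {α₀ : ℝ} (h1 : α₀ ≤ 1) (n : ℕ) : eps α₀ n ≤ 1 / 2 ^ (n + 2) := by
  unfold eps
  gcongr

lemma kap_add_eps {α₀ : ℝ} (h : 0 < α₀) (n : ℕ) : kap α₀ n + eps α₀ n < α₀ := by
  have h1 : (1 : ℝ) / 2 ^ (n + 2) < 1 / ((n : ℝ) + 2) := by
    apply one_div_lt_one_div_of_lt (by positivity)
    have : n + 2 < 2 ^ (n + 2) := Nat.lt_two_pow_self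
    exact_mod_cast this
  unfold kap eps
  have h2 := mul_lt_mul_of_pos_left h1 h
  have h3 : α₀ / 2 ^ (n + 2) = α₀ * (1 / 2 ^ (n + 2)) := by ring
  rw [h3]
  linarith

/-- the state of the construction -/
structure St where
  /-- the exponent -/
  k : ℂ[X]
  /-- the primitive -/
  ξ : ℂ → ℂ
  /-- the radius up to which the next step changes nothing -/
  ρ : ℝ
  /-- a bound on the closed disc -/
  K : ℝ

/-- the requirements on a state -/
structure Good (α₀ : ℝ) (n : ℕ) (s : St) : Prop where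
  der : ∀ z, HasDerivAt s.ξ (Complex.exp (s.k.eval z)) z
  zero : s.ξ 0 = 0
  lt_one : s.ρ < 1
  pos : 0 < s.ρ
  large : 1 - 1 / ((n : ℝ) + 2) < s.ρ
  bd : ∀ z : ℂ, ‖z‖ ≤ 1 → ‖s.ξ z‖ ≤ s.K
  hK : s.K + 1 ≤ kap α₀ n * (-Real.log (1 - s.ρ))
  tail : Real.exp 1 * ((1 - s.ρ) ^ (1 - (kap α₀ n + eps α₀ n)) / (1 - (kap α₀ n + eps α₀ n))) ≤
    1 / 2 ^ n

/-- the relation between a state and the next state -/
structure Nxt (α₀ : ℝ) (n : ℕ) (s s' : St) : Prop where
  k_close : ∀ z, ‖z‖ ≤ s.ρ → ‖s'.k.eval z - s.k.eval z‖ ≤ eps α₀ n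
  xi_close : ∀ z, ‖z‖ ≤ s.ρ → ‖s'.ξ z - s.ξ z‖ ≤ eps α₀ n
  upper : ∀ z, ‖z‖ < 1 → (s'.ξ z).re ≤
    max ((s.ξ z).re + eps α₀ n) ((kap α₀ n + eps α₀ n) * (-Real.log (1 - ‖z‖)))
  lower : ∃ R : ℝ, s.ρ < R ∧ 0 < R ∧ R < s'.ρ ∧ (kap α₀ n - eps α₀ n) * (-Real.log (1 - R)) ≤
    circleAverage (fun z => max (s'.ξ z).re 0) 0 R

lemma exists_bd {ξ : ℂ → ℂ} (h : Continuous ξ) : ∃ K : ℝ, ∀ z : ℂ, ‖z‖ ≤ 1 → ‖ξ z‖ ≤ K := by
  obtain ⟨K, hK⟩ := (isCompact_closedBall (0 : ℂ) 1).exists_bound_of_continuousOn h.continuousOn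
  exact ⟨K, fun z hz => hK z (by simpa using hz)⟩

lemma exists_good {α₀ : ℝ} (hα0 : 0 < α₀) (hα1 : α₀ ≤ 1) (n : ℕ) (k : ℂ[X]) (ξ : ℂ → ℂ)
    (hξ : ∀ z, HasDerivAt ξ (Complex.exp (k.eval z)) z) (hξ0 : ξ 0 = 0) {a : ℝ} (ha : a < 1) :
    ∃ s : St, s.k = k ∧ s.ξ = ξ ∧ a < s.ρ ∧ Good α₀ n s := by
  have hcont : Continuous ξ := continuous_iff_continuousAt.2 fun z => (hξ z).continuousAt
  obtain ⟨K, hK⟩ := exists_bd hcont
  have hb : kap α₀ n + eps α₀ n < 1 := (kap_add_eps hα0 n).trans_le hα1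
  have hlt : (1 : ℝ) - 1 / ((n : ℝ) + 2) < 1 := by
    have : (0 : ℝ) < 1 / ((n : ℝ) + 2) := by positivity
    linarith
  obtain ⟨ρ, h1, h2, h3, h4, h5⟩ := exists_rho (a := max a (1 - 1 / ((n : ℝ) + 2)))
    (κ := kap α₀ n) (β := kap α₀ n + eps α₀ n) (K := K + 1) (δ := 1 / 2 ^ n)
    (max_lt ha hlt) (kap_pos hα0 n) hb (by positivity)
  exact ⟨⟨k, ξ, ρ, K⟩, rfl, rfl, (le_max_left _ _).trans_lt h1,
    ⟨hξ, hξ0, h3, h2, (le_max_right _ _).trans_lt h1, hK, h4, h5⟩⟩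

lemma exists_states (step : StepStatement) {α₀ : ℝ} (hα0 : 0 < α₀) (hα1 : α₀ ≤ 1) :
    ∃ s : ℕ → St, (∀ n, Good α₀ n (s n)) ∧ ∀ n, Nxt α₀ n (s n) (s (n + 1)) := by
  refine exists_seq (Good α₀) (Nxt α₀) ?_ ?_
  · have h1 : ∀ z : ℂ, HasDerivAt (fun z : ℂ => z) (Complex.exp ((0 : ℂ[X]).eval z)) z := by
      intro z
      have h2 := hasDerivAt_id z
      simp only [eval_zero, Complex.exp_zero]
      exact h2
    obtain ⟨s, -, -, -, h⟩ := exists_good hα0 hα1 0 0 (fun z => z) h1 rfl (zero_lt_one)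
    exact ⟨s, h⟩
  · intro n s hs
    obtain ⟨k₁, ξ₁, R, h1, h2, h3, h4, h5, h6, h7, h8, h9⟩ := step (kap α₀ n) (kap_pos hα0 n) s.k
      s.ξ hs.der hs.zero (eps α₀ n) (eps_pos hα0 n) s.ρ hs.lt_one
    obtain ⟨s', e1, e2, e3, hs'⟩ := exists_good hα0 hα1 (n + 1) k₁ ξ₁ h1 h2 h5
    refine ⟨s', hs', ⟨?_, ?_, ?_, R, h3, h4, e3, ?_⟩⟩
    · rw [e1]; exact h6
    · rw [e2]; exact h7
    · rw [e2]; exact h8
    · rw [e2]; exact h9

/-- radial integration of a bound `exp 1 * (1 - t) ^ (-β)` -/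
lemma radial {Y : ℂ → ℂ} {ξ : ℂ → ℂ} {β ρ δ B : ℝ} (hρ0 : 0 < ρ) (hβ : β < 1)
    (hY : ∀ z ∈ ball (0 : ℂ) 1, HasDerivAt Y (Complex.exp (ξ z)) z)
    (hB : ∀ z : ℂ, ‖z‖ = ρ → ‖Y z‖ ≤ B) {r : ℝ} (hr : r < 1)
    (hξ : ∀ z : ℂ, ρ ≤ ‖z‖ → ‖z‖ < r → (ξ z).re ≤ β * (-Real.log (1 - ‖z‖)) + 1)
    (hδ : Real.exp 1 * ((1 - ρ) ^ (1 - β) / (1 - β)) ≤ δ) :
    ∀ z : ℂ, ρ < ‖z‖ → ‖z‖ ≤ r → ‖Y z‖ ≤ B + δ := by
  intro z hz1 hz2
  have hβ' : 0 < 1 - β := by linarith
  have hz0 : 0 < ‖z‖ := hρ0.trans hz1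
  set u : ℂ := z / (‖z‖ : ℂ) with hu
  have hu1 : ‖u‖ = 1 := by
    rw [hu, norm_div, Complex.norm_real, Real.norm_eq_abs, abs_of_pos hz0, div_self hz0.ne']
  have hzu : z = (‖z‖ : ℂ) * u := by
    rw [hu, mul_div_cancel₀]
    exact_mod_cast hz0.ne'
  have hn : ∀ t : ℝ, 0 ≤ t → ‖(t : ℂ) * u‖ = t := by
    intro t ht
    rw [norm_mul, hu1, mul_one, Complex.norm_real, Real.norm_eq_abs, abs_of_nonneg ht]
  -- the function along the radius
  have hF : ∀ t ∈ Set.Icc ρ ‖z‖, HasDerivAt (fun t : ℝ => Y ((t : ℂ) * u))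
      (Complex.exp (ξ ((t : ℂ) * u)) * u) t := by
    intro t ht
    have hmem : (t : ℂ) * u ∈ ball (0 : ℂ) 1 := by
      rw [mem_ball_zero_iff, hn t (hρ0.le.trans ht.1)]
      exact ht.2.trans_lt (hz2.trans_lt hr)
    have h1 : HasDerivAt (fun t : ℝ => (t : ℂ) * u) (1 * u) t :=
      (Complex.ofRealCLM.hasDerivAt (x := t)).mul_const u
    have h2 := (hY _ hmem).comp t h1
    rw [one_mul] at h2
    exact h2
  set Bf : ℝ → ℝ := fun t => B + Real.exp 1 * (((1 - ρ) ^ (1 - β) - (1 - t) ^ (1 - β)) / (1 - β))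
    with hBf
  have hB' : ∀ t ∈ Set.Icc ρ ‖z‖, HasDerivAt Bf (Real.exp 1 * (1 - t) ^ (-β)) t := by
    intro t ht
    have ht1 : 0 < 1 - t := by linarith [ht.2]
    have h1 : HasDerivAt (fun t : ℝ => 1 - t) (-1) t := by
      simpa using (hasDerivAt_id t).const_sub 1
    have h2 := h1.rpow_const (p := 1 - β) (Or.inl ht1.ne')
    have h3 := (((h2.const_sub ((1 - ρ) ^ (1 - β))).div_const (1 - β)).const_mul
      (Real.exp 1)).const_add B
    refine h3.congr_deriv ?_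
    have h4 : 1 - β - 1 = -β := by ring
    rw [h4]
    field_simp
  have h5 := image_norm_le_of_norm_deriv_right_le_deriv_boundary'
    (f := fun t : ℝ => Y ((t : ℂ) * u)) (f' := fun t : ℝ => Complex.exp (ξ ((t : ℂ) * u)) * u)
    (a := ρ) (b := ‖z‖) (B := Bf) (B' := fun t => Real.exp 1 * (1 - t) ^ (-β))
    (fun t ht => (hF t ht).continuousAt.continuousWithinAt)
    (fun t ht => (hF t ⟨ht.1, ht.2.le⟩).hasDerivWithinAt)
    ?_ (fun t ht => (hB' t ht).continuousAt.continuousWithinAt)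
    (fun t ht => (hB' t ⟨ht.1, ht.2.le⟩).hasDerivWithinAt) ?_
  · have h6 := h5 ⟨hz1.le, le_rfl⟩
    simp only [← hzu] at h6
    refine h6.trans ?_
    rw [hBf]
    simp only
    have h7 : (0 : ℝ) ≤ (1 - ‖z‖) ^ (1 - β) := Real.rpow_nonneg (by linarith) _
    have h8 : Real.exp 1 * (((1 - ρ) ^ (1 - β) - (1 - ‖z‖) ^ (1 - β)) / (1 - β)) ≤
        Real.exp 1 * ((1 - ρ) ^ (1 - β) / (1 - β)) := by
      gcongr
      linarith
    linarith
  · simp only [hBf, sub_self, zero_div, mul_zero, add_zero]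
    exact hB _ (hn ρ hρ0.le)
  · intro t ht
    have ht0 : 0 ≤ t := hρ0.le.trans ht.1
    have ht1 : 0 < 1 - t := by linarith [ht.2]
    rw [norm_mul, hu1, mul_one, Complex.norm_exp]
    have h9 := hξ ((t : ℂ) * u) (by rw [hn t ht0]; exact ht.1)
      (by rw [hn t ht0]; exact ht.2.trans_le hz2)
    rw [hn t ht0] at h9
    calc Real.exp (ξ ((t : ℂ) * u)).re ≤ Real.exp (β * (-Real.log (1 - t)) + 1) :=
          Real.exp_le_exp.2 h9
      _ = Real.exp 1 * (1 - t) ^ (-β) := by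
          rw [Real.exp_add, mul_comm, Real.rpow_def_of_pos ht1]
          congr 2
          ring

/-- the logarithm is nonnegative and monotone -/
lemma L_mono {a b : ℝ} (hab : a ≤ b) (hb : b < 1) : -Real.log (1 - a) ≤ -Real.log (1 - b) := by
  have := Real.log_le_log (by linarith : (0 : ℝ) < 1 - b) (by linarith : 1 - b ≤ 1 - a)
  linarith

lemma L_nonneg {a : ℝ} (ha : 0 ≤ a) (hb : a < 1) : 0 ≤ -Real.log (1 - a) := by
  have := Real.log_nonpos (by linarith : (0 : ℝ) ≤ 1 - a) (by linarith)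
  linarith

/-- LC-10 from LC-9 -/
theorem limit_of_step (step : StepStatement) (α₀ : ℝ) (hα0 : 0 < α₀) (hα1 : α₀ ≤ 1) :
    ∃ ξ ξ' Y : ℂ → ℂ, (∀ z ∈ ball (0 : ℂ) 1, HasDerivAt ξ (ξ' z) z ∧ ξ' z ≠ 0) ∧ ξ 0 = 0 ∧
      DifferentiableOn ℂ ξ' (ball 0 1) ∧
      (∀ z ∈ ball (0 : ℂ) 1, HasDerivAt Y (Complex.exp (ξ z)) z) ∧
      (∃ C : ℝ, ∀ z ∈ ball (0 : ℂ) 1, ‖Y z‖ ≤ C) ∧
      (∀ ε : ℝ, 0 < ε → ∃ C : ℝ, ∀ z ∈ ball (0 : ℂ) 1,
        (ξ z).re ≤ (α₀ + ε) * (-Real.log (1 - ‖z‖)) + C) ∧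
      (∀ ε : ℝ, 0 < ε → ∀ ρ : ℝ, ρ < 1 → ∃ R : ℝ, ρ < R ∧ 0 < R ∧ R < 1 ∧
        (α₀ - ε) * (-Real.log (1 - R)) ≤ circleAverage (fun z => max (ξ z).re 0) 0 R) := by
  obtain ⟨s, hg, hn⟩ := exists_states step hα0 hα1
  -- the radii
  have hlt : ∀ n, (s n).ρ < (s (n + 1)).ρ := by
    intro n
    obtain ⟨R, h1, -, h3, -⟩ := (hn n).lower
    exact h1.trans h3
  have hmono : StrictMono fun n => (s n).ρ := strictMono_nat_of_lt_succ hlt
  have hex : ∀ z : ℂ, ‖z‖ < 1 → ∃ n, ‖z‖ < (s n).ρ := by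
    intro z hz
    obtain ⟨n, hn'⟩ := exists_nat_one_div_lt (sub_pos.2 hz)
    refine ⟨n, lt_of_le_of_lt ?_ (hg n).large⟩
    have h1 : (1 : ℝ) / ((n : ℝ) + 2) ≤ 1 / ((n : ℝ) + 1) := by
      apply one_div_le_one_div_of_le <;> [positivity; linarith]
    linarith
  -- the limits
  obtain ⟨k, hk⟩ := exists_lim (fun n z => (s n).k.eval z) (fun n => (s n).ρ) hmono.monotone
    (fun z hz => (hex z hz).imp fun n h => h.le)
    (fun n z hz => ((hn n).k_close z hz).trans (eps_le hα1 n))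
  obtain ⟨ξ, hξ⟩ := exists_lim (fun n z => (s n).ξ z) (fun n => (s n).ρ) hmono.monotone
    (fun z hz => (hex z hz).imp fun n h => h.le)
    (fun n z hz => ((hn n).xi_close z hz).trans (eps_le hα1 n))
  have hkl := tendsto_lu (fun n z => (s n).k.eval z) k (fun n => (s n).ρ) hmono.monotone hex hk
  have hξl := tendsto_lu (fun n z => (s n).ξ z) ξ (fun n => (s n).ρ) hmono.monotone hex hξ
  have hkd : DifferentiableOn ℂ k (ball 0 1) :=
    hkl.differentiableOn (Eventually.of_forall fun n =>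
      ((s n).k.differentiable).differentiableOn) isOpen_ball
  have hξd : DifferentiableOn ℂ ξ (ball 0 1) :=
    hξl.differentiableOn (Eventually.of_forall fun n z _ =>
      ((hg n).der z).differentiableAt.differentiableWithinAt) isOpen_ball
  have hder : ∀ z ∈ ball (0 : ℂ) 1, HasDerivAt ξ (Complex.exp (k z)) z := by
    intro z hz
    have h1 := hξl.deriv (Eventually.of_forall fun n z _ =>
      ((hg n).der z).differentiableAt.differentiableWithinAt) isOpen_ball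
    have h2 := h1.tendsto_at hz
    have h3 : Tendsto (fun n => Complex.exp ((s n).k.eval z)) atTop (𝓝 (Complex.exp (k z))) :=
      (Complex.continuous_exp.tendsto _).comp (hkl.tendsto_at hz)
    have h4 : (fun n => (deriv ∘ fun n z => (s n).ξ z) n z) =
        fun n => Complex.exp ((s n).k.eval z) := by
      funext n
      exact ((hg n).der z).deriv
    have h5 : deriv ξ z = Complex.exp (k z) := by
      refine tendsto_nhds_unique ?_ h3
      rw [← h4]
      exact h2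
    rw [← h5]
    exact (hξd.differentiableAt (isOpen_ball.mem_nhds hz)).hasDerivAt
  -- the values at zero
  have hz0 : ξ 0 = 0 := by
    have h1 := hξl.tendsto_at (mem_ball_self (zero_lt_one) : (0 : ℂ) ∈ ball (0 : ℂ) 1)
    refine tendsto_nhds_unique h1 ?_
    simp only [(hg _).zero]
    exact tendsto_const_nhds
  -- the upper bound between two radii
  have hL : ∀ n : ℕ, 0 ≤ (s n).K := fun n =>
    (norm_nonneg _).trans ((hg n).bd 0 (by simp))
  have hup : ∀ n z, (s n).ρ ≤ ‖z‖ → ‖z‖ ≤ (s (n + 1)).ρ →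
      (ξ z).re ≤ (kap α₀ n + eps α₀ n) * (-Real.log (1 - ‖z‖)) + 1 := by
    intro n z h1 h2
    have hz1 : ‖z‖ < 1 := h2.trans_lt (hg (n + 1)).lt_one
    have h3 := (hn n).upper z hz1
    have h4 : ((s n).ξ z).re + eps α₀ n ≤ (kap α₀ n + eps α₀ n) * (-Real.log (1 - ‖z‖)) := by
      have h5 : ((s n).ξ z).re ≤ (s n).K := (Complex.re_le_norm _).trans ((hg n).bd z hz1.le)
      have h6 : eps α₀ n ≤ 1 := by
        refine (eps_le hα1 n).trans ?_
        rw [div_le_one (by positivity)]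
        exact one_le_pow₀ (by norm_num)
      have h7 := (hg n).hK
      have h8 : kap α₀ n * (-Real.log (1 - (s n).ρ)) ≤
          (kap α₀ n + eps α₀ n) * (-Real.log (1 - ‖z‖)) := by
        apply mul_le_mul
        · linarith [eps_pos hα0 n]
        · exact L_mono h1 hz1
        · exact L_nonneg (hg n).pos.le (hg n).lt_one
        · linarith [eps_pos hα0 n, kap_pos hα0 n]
      linarith
    rw [max_eq_right h4] at h3
    have h9 := hξ (n + 1) z h2 hz1
    have h10 : (ξ z).re - ((s (n + 1)).ξ z).re ≤ 1 := by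
      rw [← Complex.sub_re]
      refine (Complex.re_le_norm _).trans (h9.trans ?_)
      rw [div_le_one (by positivity)]
      exact one_le_pow₀ (by norm_num)
    linarith
  have hup0 : ∀ z, ‖z‖ ≤ (s 0).ρ → (ξ z).re ≤ (s 0).K + 1 := by
    intro z hz
    have hz1 : ‖z‖ < 1 := hz.trans_lt (hg 0).lt_one
    have h5 : ((s 0).ξ z).re ≤ (s 0).K := (Complex.re_le_norm _).trans ((hg 0).bd z hz1.le)
    have h9 := hξ 0 z hz hz1
    have h10 : (ξ z).re - ((s 0).ξ z).re ≤ 1 := by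
      rw [← Complex.sub_re]
      refine (Complex.re_le_norm _).trans (h9.trans ?_)
      norm_num
    linarith
  have hcase : ∀ z : ℂ, ‖z‖ < 1 → ‖z‖ ≤ (s 0).ρ ∨
      ∃ n, (s n).ρ ≤ ‖z‖ ∧ ‖z‖ ≤ (s (n + 1)).ρ := by
    intro z hz
    by_contra hcon
    push Not at hcon
    obtain ⟨h0, h1⟩ := hcon
    have h2 : ∀ n, (s n).ρ < ‖z‖ := by
      intro n
      induction n with
      | zero => exact h0
      | succ n ih => exact h1 n ih.le
    obtain ⟨n, hn'⟩ := hex z hz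
    exact absurd (h2 n) (not_lt.2 hn'.le)
  -- the primitive of `exp ξ`
  obtain ⟨Y, hY⟩ := (hξd.cexp).isExactOn_ball
  have hYb : ∃ C : ℝ, ∀ z ∈ ball (0 : ℂ) 1, ‖Y z‖ ≤ C := by
    have hYc : ContinuousOn Y (closedBall 0 (s 0).ρ) := fun z hz =>
      (hY z (closedBall_subset_ball (hg 0).lt_one hz)).continuousAt.continuousWithinAt
    obtain ⟨B, hB⟩ := (isCompact_closedBall (0 : ℂ) (s 0).ρ).exists_bound_of_continuousOn hYc
    have hstep : ∀ n, ∀ z, ‖z‖ ≤ (s n).ρ → ‖Y z‖ ≤ B + ∑ j ∈ Finset.range n, 1 / 2 ^ j := by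
      intro n
      induction n with
      | zero =>
        intro z hz
        simpa using hB z (by simpa using hz)
      | succ n ih =>
        intro z hz
        rw [Finset.sum_range_succ, ← add_assoc]
        rcases le_or_gt ‖z‖ (s n).ρ with h | h
        · have h1 := ih z h
          have h2 : (0 : ℝ) ≤ 1 / 2 ^ n := by positivity
          linarith
        · exact radial (hg n).pos ((kap_add_eps hα0 n).trans_le hα1) hY
            (fun w hw => ih w hw.le) (hg (n + 1)).lt_one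
            (fun w hw1 hw2 => hup n w hw1 hw2.le) (hg n).tail z h hz
    refine ⟨B + 2, fun z hz => ?_⟩
    obtain ⟨n, hn'⟩ := hex z (by simpa using hz)
    refine (hstep n z hn'.le).trans ?_
    have h3 : ∑ j ∈ Finset.range n, (1 : ℝ) / 2 ^ j ≤ 2 := by
      have h4 := sum_geometric_two_le n
      simpa [one_div, inv_pow] using h4
    linarith
  refine ⟨ξ, fun z => Complex.exp (k z), Y, fun z hz => ⟨hder z hz, Complex.exp_ne_zero _⟩, hz0,
    hkd.cexp, hY, hYb, ?_, ?_⟩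
  · intro ε hε
    refine ⟨(s 0).K + 1, fun z hz => ?_⟩
    have hz1 : ‖z‖ < 1 := by simpa using hz
    have hLz := L_nonneg (norm_nonneg z) hz1
    rcases hcase z hz1 with h | ⟨n, h1, h2⟩
    · have h3 := hup0 z h
      have h4 : 0 ≤ (α₀ + ε) * (-Real.log (1 - ‖z‖)) := by positivity
      linarith
    · have h3 := hup n z h1 h2
      have h4 : (kap α₀ n + eps α₀ n) * (-Real.log (1 - ‖z‖)) ≤
          (α₀ + ε) * (-Real.log (1 - ‖z‖)) := by
        apply mul_le_mul_of_nonneg_right _ hLz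
        linarith [kap_add_eps hα0 n]
      linarith [hL 0]
  · intro ε hε ρ hρ
    -- choose a large index
    have hρt : Tendsto (fun n => (s n).ρ) atTop (𝓝[<] 1) := by
      rw [tendsto_nhdsWithin_iff]
      refine ⟨?_, Eventually.of_forall fun n => (hg n).lt_one⟩
      have h1 : Tendsto (fun n : ℕ => 1 - 1 / ((n : ℝ) + 2)) atTop (𝓝 1) := by
        have h2 : Tendsto (fun n : ℕ => 1 / (((n + 1 : ℕ) : ℝ) + 1)) atTop (𝓝 0) :=
          (tendsto_add_atTop_iff_nat 1).2 tendsto_one_div_add_atTop_nhds_zero_nat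
        have h3 := h2.const_sub 1
        rw [sub_zero] at h3
        refine h3.congr fun n => ?_
        push_cast
        ring
      exact tendsto_of_tendsto_of_tendsto_of_le_of_le h1 tendsto_const_nhds
        (fun n => (hg n).large.le) (fun n => (hg n).lt_one.le)
    have hLt : Tendsto (fun n => -Real.log (1 - (s n).ρ)) atTop atTop := by
      have h1 : Tendsto (fun ρ : ℝ => 1 - ρ) (𝓝[<] 1) (𝓝[>] 0) := by
        rw [tendsto_nhdsWithin_iff]
        constructor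
        · have : Tendsto (fun ρ : ℝ => 1 - ρ) (𝓝 1) (𝓝 (1 - 1)) := by
            exact (continuous_const.sub continuous_id).tendsto 1
          rw [sub_self] at this
          exact this.mono_left nhdsWithin_le_nhds
        · filter_upwards [self_mem_nhdsWithin] with ρ hρ
          simp only [Set.mem_Iio] at hρ
          simp only [Set.mem_Ioi]
          linarith
      exact (tendsto_neg_atBot_atTop.comp (Real.tendsto_log_nhdsGT_zero.comp h1)).comp hρt
    have hκt : Tendsto (fun n => kap α₀ n - eps α₀ n) atTop (𝓝 α₀) := by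
      have h1 : Tendsto (fun n : ℕ => 1 / ((n : ℝ) + 2)) atTop (𝓝 0) := by
        have h2 : Tendsto (fun n : ℕ => 1 / (((n + 1 : ℕ) : ℝ) + 1)) atTop (𝓝 0) :=
          (tendsto_add_atTop_iff_nat 1).2 tendsto_one_div_add_atTop_nhds_zero_nat
        refine h2.congr fun n => ?_
        push_cast
        ring
      have h2 : Tendsto (fun n => kap α₀ n) atTop (𝓝 α₀) := by
        have h3 := (h1.const_sub 1).const_mul α₀
        rw [sub_zero, mul_one] at h3
        exact h3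
      have h4 : Tendsto (fun n => eps α₀ n) atTop (𝓝 0) := by
        have h5 : Tendsto (fun m : ℕ => ((1 : ℝ) / 2) ^ m) atTop (𝓝 0) :=
          tendsto_pow_atTop_nhds_zero_of_lt_one (by norm_num) (by norm_num)
        have h6 := ((tendsto_add_atTop_iff_nat 2).2 h5).const_mul α₀
        rw [mul_zero] at h6
        refine h6.congr fun n => ?_
        unfold eps
        rw [div_pow, one_pow]
        ring
      have h7 := h2.sub h4
      rwa [sub_zero] at h7
    have e1 := hρt.eventually (Ioo_mem_nhdsLT hρ)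
    have e2 := hLt.eventually_ge_atTop (2 / ε)
    have e3 := hκt.eventually (lt_mem_nhds (show α₀ - ε / 2 < α₀ by linarith))
    obtain ⟨n, ⟨h1, h2⟩, h3⟩ := ((e1.and e2).and e3).exists
    obtain ⟨R, r1, r2, r3, r4⟩ := (hn n).lower
    have hR1 : R < 1 := r3.trans (hg (n + 1)).lt_one
    refine ⟨R, h1.1.trans r1, r2, hR1, ?_⟩
    have hLR : 2 / ε ≤ -Real.log (1 - R) := h2.trans (L_mono r1.le hR1)
    have hmaj : circleAverage (fun z => max ((s (n + 1)).ξ z).re 0) 0 R ≤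
        circleAverage (fun z => max (ξ z).re 0 + 1) 0 R := by
      have hsub : sphere (0 : ℂ) |R| ⊆ ball 0 1 := by
        intro z hz
        rw [mem_sphere_zero_iff_norm, abs_of_pos r2] at hz
        rw [mem_ball_zero_iff, hz]
        exact hR1
      have c1 : ContinuousOn (fun z => max ((s (n + 1)).ξ z).re 0) (sphere 0 |R|) := by
        have : Continuous (s (n + 1)).ξ :=
          continuous_iff_continuousAt.2 fun z => ((hg (n + 1)).der z).continuousAt
        exact ((Complex.continuous_re.comp this).max continuous_const).continuousOn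
      have c2 : ContinuousOn (fun z => max (ξ z).re 0 + 1) (sphere 0 |R|) := by
        have h5 : ContinuousOn ξ (sphere 0 |R|) := hξd.continuousOn.mono hsub
        exact ((Complex.continuous_re.comp_continuousOn h5).sup continuousOn_const).add
          continuousOn_const
      apply circleAverage_mono c1.circleIntegrable' c2.circleIntegrable'
      intro z hz
      rw [mem_sphere_zero_iff_norm, abs_of_pos r2] at hz
      have h9 := hξ (n + 1) z (hz.trans_le r3.le) (hz.trans_lt hR1)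
      have h10 : ((s (n + 1)).ξ z).re - (ξ z).re ≤ 1 := by
        rw [← Complex.sub_re]
        refine (Complex.re_le_norm _).trans ?_
        rw [norm_sub_rev]
        refine h9.trans ?_
        rw [div_le_one (by positivity)]
        exact one_le_pow₀ (by norm_num)
      apply max_le
      · linarith [le_max_left (ξ z).re 0]
      · linarith [le_max_right (ξ z).re 0]
    have hsplit : circleAverage (fun z => max (ξ z).re 0 + 1) 0 R =
        circleAverage (fun z => max (ξ z).re 0) 0 R + 1 := by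
      have hsub : sphere (0 : ℂ) |R| ⊆ ball 0 1 := by
        intro z hz
        rw [mem_sphere_zero_iff_norm, abs_of_pos r2] at hz
        rw [mem_ball_zero_iff, hz]
        exact hR1
      have c2 : ContinuousOn (fun z => max (ξ z).re 0) (sphere 0 |R|) := by
        have h5 : ContinuousOn ξ (sphere 0 |R|) := hξd.continuousOn.mono hsub
        exact (Complex.continuous_re.comp_continuousOn h5).sup continuousOn_const
      have h6 := circleAverage_add (f₁ := fun z => max (ξ z).re 0) (f₂ := fun _ => (1 : ℝ))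
        (c := 0) (R := R) c2.circleIntegrable' (circleIntegrable_const 1 0 R)
      rw [circleAverage_const] at h6
      exact h6
    have h11 : (α₀ - ε) * (-Real.log (1 - R)) + 1 ≤
        (kap α₀ n - eps α₀ n) * (-Real.log (1 - R)) := by
      have h12 : α₀ - ε / 2 ≤ kap α₀ n - eps α₀ n := h3.le
      have hLR0 : 0 ≤ -Real.log (1 - R) := L_nonneg r2.le hR1
      have h13 := mul_le_mul_of_nonneg_right h12 hLR0
      have h14 : 1 ≤ ε / 2 * (-Real.log (1 - R)) := by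
        have h15 := mul_le_mul_of_nonneg_left hLR (by positivity : 0 ≤ ε / 2)
        have h16 : ε / 2 * (2 / ε) = 1 := by field_simp
        linarith
      nlinarith
    linarith

end LC10

end Pool.Agent.Helper61.Lac
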