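import Mathlib
import Pool.Agent.Helper61.Nev.Defs

/-!
# LC-11, first part: the characteristic of an analytic function in the disc, and a criterion
-/

set_option autoImplicit false

open Filter Topology Metric Complex Polynomial Real
open scoped ComplexConjugate

namespace Pool.Agent.Helper61.Lac

open Pool.Agent.Helper61.Nev

lemma countN_eq_zero {f : ℂ → ℂ} {r : ℝ} (hf : AnalyticOnNhd ℂ f (closedBall 0 r)) :
    countN f r = 0 := by
  have h : ∀ u, ((MeromorphicOn.divisor f (closedBall 0 r) u)⁻ : ℤ) = 0 := by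
    intro u
    have h1 : (0 : ℤ) ≤ MeromorphicOn.divisor f (closedBall 0 r) u :=
      MeromorphicOn.AnalyticOnNhd.divisor_nonneg hf u
    simpa using h1
  unfold countN
  simp [h]

lemma charT_eq {f : ℂ → ℂ} {r : ℝ} (hr : r < 1) (hf : AnalyticOnNhd ℂ f (ball 0 1)) :
    charT f r = circleAverage (fun z => log⁺ ‖f z‖) 0 r := by
  rw [charT, countN_eq_zero (hf.mono (closedBall_subset_ball hr)), add_zero, prox]

lemma circleIntegrable_of_cont {u : ℂ → ℝ} {r : ℝ} (hr0 : 0 ≤ r) (hr : r < 1)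
    (hu : ContinuousOn u (ball 0 1)) : CircleIntegrable u 0 r := by
  refine ContinuousOn.circleIntegrable hr0 (hu.mono ?_)
  exact (sphere_subset_closedBall).trans (closedBall_subset_ball hr)

lemma continuousOn_posLog_norm {f : ℂ → ℂ} {s : Set ℂ} (hf : ContinuousOn f s) :
    ContinuousOn (fun z => log⁺ ‖f z‖) s := by
  exact Real.continuous_posLog.comp_continuousOn hf.norm

/-- bounded functions have bounded characteristic -/
lemma charT_le_of_bound {f : ℂ → ℂ} (hf : AnalyticOnNhd ℂ f (ball 0 1)) {B : ℝ}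
    (hB : ∀ z ∈ ball (0 : ℂ) 1, ‖f z‖ ≤ B) {r : ℝ} (hr0 : 0 ≤ r) (hr : r < 1) :
    charT f r ≤ log⁺ B := by
  rw [charT_eq hr hf]
  refine circleAverage_mono_on_of_le_circle
    (circleIntegrable_of_cont hr0 hr (continuousOn_posLog_norm hf.continuousOn)) ?_
  intro z hz
  rw [abs_of_nonneg hr0] at hz
  exact Real.posLog_le_posLog (norm_nonneg _)
    (hB z (closedBall_subset_ball hr (sphere_subset_closedBall hz)))

lemma charT_nonneg {f : ℂ → ℂ} (hf : AnalyticOnNhd ℂ f (ball 0 1)) {r : ℝ} (hr : r < 1) :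
    0 ≤ charT f r := by
  rw [charT_eq hr hf]
  exact circleAverage_nonneg_of_nonneg fun z _ => Real.posLog_nonneg

/-- `-log (1 - r) → ∞` -/
lemma tendsto_neg_log_one_sub : Tendsto (fun r : ℝ => -Real.log (1 - r)) (𝓝[<] 1) atTop := by
  refine tendsto_neg_atBot_atTop.comp (Real.tendsto_log_nhdsGT_zero.comp ?_)
  refine tendsto_nhdsWithin_iff.2 ⟨?_, ?_⟩
  · have h : Tendsto (fun r : ℝ => 1 - r) (𝓝 1) (𝓝 (1 - 1)) := tendsto_const_nhds.sub tendsto_id
    rw [sub_self] at h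
    exact h.mono_left nhdsWithin_le_nhds
  · filter_upwards [self_mem_nhdsWithin] with r hr
    simp only [Set.mem_Ioi, sub_pos]
    exact hr

lemma eventually_pos_lt_one : ∀ᶠ r : ℝ in 𝓝[<] 1, 0 < r ∧ r < 1 := by
  have h : Set.Ioo (0 : ℝ) 1 ∈ 𝓝[<] (1 : ℝ) := Ioo_mem_nhdsLT one_pos
  exact h

/-- upper bound for `alpha` -/
lemma alpha_le {f : ℂ → ℂ} {a : ℝ}
    (h : ∀ ε : ℝ, 0 < ε → ∃ C : ℝ, ∀ r : ℝ, 0 < r → r < 1 →
      charT f r ≤ (a + ε) * (-Real.log (1 - r)) + C) : alpha f ≤ (a : EReal) := by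
  refine EReal.le_of_forall_lt_iff_le.1 ?_
  intro z hz
  have hz' : a < z := by exact_mod_cast hz
  obtain ⟨C, hC⟩ := h ((z - a) / 2) (by linarith)
  refine Filter.limsup_le_of_le (by isBoundedDefault) ?_
  have h1 : ∀ᶠ r : ℝ in 𝓝[<] 1, max 1 (2 * |C| / (z - a)) ≤ -Real.log (1 - r) :=
    tendsto_neg_log_one_sub.eventually_ge_atTop _
  filter_upwards [h1, eventually_pos_lt_one] with r hr1 hr
  have hL : 0 < -Real.log (1 - r) := lt_of_lt_of_le one_pos ((le_max_left _ _).trans hr1)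
  have hL2 : 2 * |C| / (z - a) ≤ -Real.log (1 - r) := (le_max_right _ _).trans hr1
  rw [EReal.coe_le_coe_iff, div_le_iff₀ hL]
  have h2 := hC r hr.1 hr.2
  rw [div_le_iff₀ (by linarith)] at hL2
  have h3 := le_abs_self C
  nlinarith

/-- lower bound for `alpha` -/
lemma le_alpha {f : ℂ → ℂ} {a : ℝ}
    (h : ∀ ε : ℝ, 0 < ε → ∃ C : ℝ, ∀ ρ : ℝ, ρ < 1 → ∃ R : ℝ, ρ < R ∧ 0 < R ∧ R < 1 ∧
      (a - ε) * (-Real.log (1 - R)) - C ≤ charT f R) : (a : EReal) ≤ alpha f := by
  refine EReal.ge_of_forall_gt_iff_ge.1 ?_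
  intro z hz
  have hz' : z < a := by exact_mod_cast hz
  obtain ⟨C, hC⟩ := h ((a - z) / 2) (by linarith)
  refine Filter.le_limsup_of_frequently_le ?_ (by isBoundedDefault)
  have h1 : ∀ᶠ r : ℝ in 𝓝[<] 1, max 1 (2 * |C| / (a - z)) ≤ -Real.log (1 - r) :=
    tendsto_neg_log_one_sub.eventually_ge_atTop _
  have hfreq : ∃ᶠ R : ℝ in 𝓝[<] 1, 0 < R ∧ R < 1 ∧
      (a - (a - z) / 2) * (-Real.log (1 - R)) - C ≤ charT f R := by
    rw [Filter.frequently_iff]
    intro U hU
    rw [mem_nhdsLT_iff_exists_Ioo_subset] at hU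
    obtain ⟨l, hl, hlU⟩ := hU
    obtain ⟨R, hR1, hR2, hR3, hR4⟩ := hC l hl
    exact ⟨R, hlU ⟨hR1, hR3⟩, hR2, hR3, hR4⟩
  refine (hfreq.and_eventually h1).mono ?_
  rintro r ⟨⟨hr0, hr1, hr2⟩, hr3⟩
  have hL : 0 < -Real.log (1 - r) := lt_of_lt_of_le one_pos ((le_max_left _ _).trans hr3)
  have hL2 : 2 * |C| / (a - z) ≤ -Real.log (1 - r) := (le_max_right _ _).trans hr3
  rw [EReal.coe_le_coe_iff, le_div_iff₀ hL]
  rw [div_le_iff₀ (by linarith)] at hL2
  have h3 := le_abs_self C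
  nlinarith

lemma alpha_eq_zero_of_bound {f : ℂ → ℂ} (hf : AnalyticOnNhd ℂ f (ball 0 1)) {B : ℝ}
    (hB : ∀ z ∈ ball (0 : ℂ) 1, ‖f z‖ ≤ B) : alpha f = 0 := by
  refine le_antisymm ?_ ?_
  · have h := alpha_le (f := f) (a := 0) ?_
    · exact_mod_cast h
    · intro ε hε
      refine ⟨log⁺ B, fun r hr0 hr1 => ?_⟩
      have h1 := charT_le_of_bound hf hB hr0.le hr1
      have h2 : 0 ≤ -Real.log (1 - r) := by
        have := Real.log_nonpos (x := 1 - r) (by linarith) (by linarith)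
        linarith
      have h3 : 0 ≤ (0 + ε) * (-Real.log (1 - r)) := by positivity
      linarith
  · have h := le_alpha (f := f) (a := 0) ?_
    · exact_mod_cast h
    · intro ε hε
      refine ⟨0, fun ρ hρ => ⟨max ((ρ + 1) / 2) (1 / 2), ?_, ?_, ?_, ?_⟩⟩
      · exact lt_of_lt_of_le (by linarith) (le_max_left _ _)
      · exact lt_of_lt_of_le (by norm_num) (le_max_right _ _)
      · exact max_lt (by linarith) (by norm_num)
      · set R := max ((ρ + 1) / 2) (1 / 2 : ℝ) with hR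
        have hR1 : R < 1 := max_lt (by linarith) (by norm_num)
        have hR0 : 0 < R := lt_of_lt_of_le (by norm_num) (le_max_right _ _)
        have h1 := charT_nonneg hf hR1
        have h2 : 0 ≤ -Real.log (1 - R) := by
          have := Real.log_nonpos (x := 1 - R) (by linarith) (by linarith)
          linarith
        have h3 : 0 ≤ ε * (-Real.log (1 - R)) := by positivity
        linarith

/-- continuous functions which agree codiscretely agree -/
lemma eqOn_of_codiscrete {f g : ℂ → ℂ} (hf : ContinuousOn f (ball 0 1))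
    (hg : ContinuousOn g (ball 0 1)) (h : f =ᶠ[codiscreteWithin (ball (0 : ℂ) 1)] g) :
    ∀ z ∈ ball (0 : ℂ) 1, f z = g z := by
  intro z hz
  have h1 : {x | f x = g x} ∈ codiscreteWithin (ball (0 : ℂ) 1) := h
  rw [mem_codiscreteWithin_iff_forall_mem_nhdsNE] at h1
  have h2 := h1 z hz
  have h3 : ball (0 : ℂ) 1 ∈ 𝓝[≠] z := mem_nhdsWithin_of_mem_nhds (isOpen_ball.mem_nhds hz)
  have h4 : ∀ᶠ x in 𝓝[≠] z, f x = g x := by
    filter_upwards [h2, h3] with x hx hx'
    rcases hx with hx | hx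
    · exact hx
    · exact absurd hx' hx
  have h5 : Tendsto f (𝓝[≠] z) (𝓝 (f z)) :=
    ((hf.continuousAt (isOpen_ball.mem_nhds hz)).tendsto).mono_left nhdsWithin_le_nhds
  have h6 : Tendsto g (𝓝[≠] z) (𝓝 (g z)) :=
    ((hg.continuousAt (isOpen_ball.mem_nhds hz)).tendsto).mono_left nhdsWithin_le_nhds
  exact tendsto_nhds_unique (h5.congr' h4) h6

/-- the coefficients `a₀ = 0`, `a₁ = 1` -/
noncomputable def cf : ℕ → ℂ → ℂ := fun ν _ => if ν = 1 then 1 else 0

lemma diffPoly_cf (f : ℂ → ℂ) : diffPoly 1 cf f = deriv f := by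
  funext z
  simp [diffPoly, cf, iteratedDeriv_one]

lemma charT_cf (ν : ℕ) {r : ℝ} (hr : r < 1) : charT (cf ν) r = 0 := by
  have h1 : AnalyticOnNhd ℂ (cf ν) (ball 0 1) := by
    unfold cf
    exact analyticOnNhd_const
  rw [charT_eq hr h1]
  unfold cf
  have h2 : (log⁺ ‖(if ν = 1 then (1 : ℂ) else 0)‖ : ℝ) = 0 := by
    split_ifs <;> simp
  simp only [h2]
  exact circleAverage_const 0 0 r

lemma admissible_cf (f : ℂ → ℂ) : AdmissibleCoeffs 1 f cf := by
  refine ⟨?_, ?_, ?_⟩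
  · intro ν _
    unfold cf
    exact fun z _ => MeromorphicAt.const _ z
  · intro ν _
    have h : charT (cf ν) =ᶠ[𝓝[<] 1] fun _ => (0 : ℝ) := by
      filter_upwards [eventually_pos_lt_one] with r hr
      exact charT_cf ν hr.2
    exact (Asymptotics.isLittleO_zero _ _).congr' h.symm EventuallyEq.rfl
  · intro h
    have h1 := eqOn_of_codiscrete (f := cf 1) (g := fun _ => 0) (by unfold cf; exact continuousOn_const)
      continuousOn_const h 0 (mem_ball_self one_pos)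
    simp [cf] at h1

/-- The criterion. -/
theorem not_holds_of {f : ℂ → ℂ} {α₀ : EReal} (hf : AnalyticOnNhd ℂ f (ball 0 1))
    (hf0 : ∀ z ∈ ball (0 : ℂ) 1, f z ≠ 0) (hα : alpha f = α₀) (hlt : α₀ < ⊤)
    (hnc : ¬ ∃ c, ∀ z ∈ ball (0 : ℂ) 1, f z = c)
    (hnc' : ¬ ∃ c, ∀ z ∈ ball (0 : ℂ) 1, deriv f z = c)
    (h1 : {z : ℂ | z ∈ ball (0 : ℂ) 1 ∧ deriv f z = 1}.Finite) : ¬ Holds 1 α₀ := by
  intro H
  have hadm : Admissible f := by
    refine ⟨hf.meromorphicOn, ?_, hα ▸ hlt, ?_, ?_⟩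
    · rintro ⟨c, hc⟩
      exact hnc ⟨c, eqOn_of_codiscrete hf.continuousOn continuousOn_const hc⟩
    · convert Set.finite_empty
      ext z
      simp only [Set.mem_ofPred_eq, Set.mem_empty_iff_false, iff_false, not_and, not_lt]
      intro hz
      rw [(hf z hz).meromorphicOrderAt_eq, (hf z hz).analyticOrderAt_eq_zero.2 (hf0 z hz)]
      simp
    · convert Set.finite_empty
      ext z
      simp only [Set.mem_ofPred_eq, Set.mem_empty_iff_false, iff_false, not_and, not_lt]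
      intro hz
      exact (hf z hz).meromorphicOrderAt_nonneg
  have h2 := H f hadm hα cf (admissible_cf f) ?_ 1 one_ne_zero
  · rw [diffPoly_cf] at h2
    refine h2 (h1.subset ?_)
    rintro z ⟨hz, hz2⟩
    refine ⟨hz, ?_⟩
    by_contra hne
    have h3 : AnalyticAt ℂ (fun ζ => deriv f ζ - 1) z := (hf z hz).deriv.sub analyticAt_const
    rw [h3.meromorphicOrderAt_eq, h3.analyticOrderAt_eq_zero.2 (sub_ne_zero.2 hne)] at hz2
    simp at hz2
  · rw [diffPoly_cf]
    rintro ⟨c, hc⟩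
    exact hnc' ⟨c, eqOn_of_codiscrete hf.deriv.continuousOn continuousOn_const hc⟩

end Pool.Agent.Helper61.Lac
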