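import Pool.Agent.Helper61.Lac.LC3

/-!
# LC-4: size of the exponential
-/

set_option autoImplicit false

open Filter Topology Metric Complex Polynomial Real
open scoped ComplexConjugate

namespace Pool.Agent.Helper61.Lac

namespace LC4

open LC3

lemma re_two_mul_div {w : ℂ} (hw : 1 - w ≠ 0) :
    (2 * w / (1 - w)).re = (1 - ‖w‖ ^ 2) / ‖1 - w‖ ^ 2 - 1 := by
  have h1 : 2 * w / (1 - w) = 2 / (1 - w) - 2 := by
    field_simp
    ring
  have h2 : (2 / (1 - w)).re = 2 * (1 - w).re / ‖1 - w‖ ^ 2 := by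
    rw [Complex.div_re, Complex.normSq_eq_norm_sq]
    simp
  have h3 : ‖1 - w‖ ^ 2 ≠ 0 := pow_ne_zero _ (norm_ne_zero_iff.2 hw)
  have h4 : ‖1 - w‖ ^ 2 = 2 * (1 - w).re - 1 + ‖w‖ ^ 2 := by
    rw [← Complex.normSq_eq_norm_sq, ← Complex.normSq_eq_norm_sq, Complex.normSq_apply,
      Complex.normSq_apply]
    simp
    ring
  rw [h1, Complex.sub_re, h2]
  simp only [Complex.re_ofNat]
  rw [div_sub' h3, div_sub' h3, div_left_inj' h3]
  linarith

lemma lip_poly (p : ℂ[X]) {K : ℝ} (hK : ∀ z : ℂ, ‖z‖ ≤ 1 → ‖p.derivative.eval z‖ ≤ K) {z u : ℂ}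
    (hz : ‖z‖ ≤ 1) (hu : ‖u‖ ≤ 1) : ‖p.eval z - p.eval u‖ ≤ K * ‖z - u‖ := by
  refine (convex_closedBall (0 : ℂ) 1).norm_image_sub_le_of_norm_deriv_le (𝕜 := ℂ)
    (f := fun z => p.eval z) (fun x _ => p.differentiableAt) (fun x hx => ?_)
    (by simpa using hu) (by simpa using hz)
  rw [Polynomial.deriv]
  exact hK x (by simpa using hx)

end LC4

open LC3 LC4

theorem exponent_circle (k : ℂ[X]) {Λ : ℝ} (hΛ : 2 ≤ Λ) {N : ℕ} (hN : k.natDegree ≤ N) {z : ℂ}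
    (hz : ‖z‖ = 1) :
    (k.eval z + Hf k Λ N z).re = Λ - (Λ - (k.eval z).re) * Xf Λ N z ∧
      ‖Jf k Λ N z‖ = |Λ - (k.eval z).re| := by
  have hJ : Jf k Λ N z = z ^ N * ((Λ - (k.eval z).re : ℝ) : ℂ) := by
    rw [Jf, refl_eval k hz]
    have h1 : z ^ (N - k.natDegree) * (z ^ k.natDegree * conj (k.eval z)) =
        z ^ N * conj (k.eval z) := by
      rw [← mul_assoc, ← pow_add, Nat.sub_add_cancel hN]
    rw [h1]
    push_cast
    rw [Complex.re_eq_add_conj]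
    ring
  have hq : ‖(rho Λ : ℂ) * z ^ N‖ = rho Λ := by
    rw [norm_mul, norm_pow, hz, one_pow, mul_one, Complex.norm_real,
      Real.norm_of_nonneg (by linarith [(rho_le hΛ).1])]
  constructor
  · have hden := den_ne hΛ (N := N) hz.le
    have h2 : Hf k Λ N z = ((-(Λ - (k.eval z).re) : ℝ) : ℂ) *
        (2 * ((rho Λ : ℂ) * z ^ N) / (1 - rho Λ * z ^ N)) := by
      rw [Hf, hJ]
      push_cast
      ring
    rw [Complex.add_re, h2, Complex.re_ofReal_mul, re_two_mul_div hden, hq, Xf]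
    ring
  · rw [hJ, norm_mul, norm_pow, hz, one_pow, one_mul, Complex.norm_real, Real.norm_eq_abs]

namespace LC4

/-- `X` is not small inside the disc -/
lemma X_lower {w : ℂ} {r : ℝ} (hr : r < 1) (hw : ‖w‖ ≤ r) :
    (1 - r) / 2 ≤ (1 - ‖w‖ ^ 2) / ‖1 - w‖ ^ 2 := by
  have h0 := norm_nonneg w
  have h1 : 0 < ‖1 - w‖ := by
    rw [norm_pos_iff]
    intro h
    have : w = 1 := (sub_eq_zero.1 h).symm
    rw [this, norm_one] at hw
    linarith
  have h2 : ‖1 - w‖ ≤ 1 + ‖w‖ := by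
    have := norm_sub_le (1 : ℂ) w
    rwa [norm_one] at this
  rw [le_div_iff₀ (by positivity)]
  have h3 : ‖1 - w‖ ^ 2 ≤ (1 + ‖w‖) ^ 2 := pow_le_pow_left₀ h1.le h2 2
  have h4 : (1 - r) / 2 * ‖1 - w‖ ^ 2 ≤ (1 - r) / 2 * (1 + ‖w‖) ^ 2 :=
    mul_le_mul_of_nonneg_left h3 (by linarith)
  have h5 : (1 - r) / 2 * (1 + ‖w‖) ^ 2 ≤ (1 - ‖w‖) / 2 * ((1 + ‖w‖) * 2) := by
    apply mul_le_mul (by linarith) _ (by positivity) (by linarith)
    nlinarith
  nlinarith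

end LC4

theorem exponent_annulus (κ : ℝ) (hκ : 0 < κ) (k : ℂ[X]) :
    ∃ K : ℝ, 0 ≤ K ∧ ∀ᶠ Λ : ℝ in atTop, ∀ N : ℕ, NOK κ Λ N → ∀ z : ℂ, 1 - 4 / N ≤ ‖z‖ → ‖z‖ ≤ 1 →
      (k.eval z + Hf k Λ N z).re ≤ Λ + 2 - (Λ - K) * (1 - ‖z‖ ^ N) / 2 := by
  obtain ⟨K₀, hK₀0, hK₀⟩ := exists_bound k
  obtain ⟨K₁, hK₁0, hK₁⟩ := exists_bound k.derivative
  obtain ⟨K₂, hK₂0, hK₂⟩ := exists_bound (refl k)
  obtain ⟨K₃, hK₃0, hK₃⟩ := exists_bound (refl k).derivative
  refine ⟨K₀, hK₀0, ?_⟩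
  set M := K₁ + K₃ + k.natDegree * K₂ with hM
  have hM0 : 0 ≤ M := by positivity
  filter_upwards [NOK_large κ hκ 36 0, NOK_large κ hκ k.natDegree 0,
    NOK_large κ hκ (4 * K₁ + 8 * M) 3, eventually_ge_atTop (2 : ℝ), eventually_ge_atTop K₀]
    with Λ h1 h2 h3 hΛ hΛK N hN z hz hz1
  have hN36 : (36 : ℝ) ≤ N := by simpa using h1 N hN
  have hNd : k.natDegree ≤ N := by
    have := h2 N hN
    rw [pow_zero, mul_one] at this
    exact_mod_cast this
  have hN3 := h3 N hN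
  have hN0 : (0 : ℝ) < N := by linarith
  have h4 : (4 : ℝ) / N ≤ 1 / 9 := by
    rw [div_le_iff₀ hN0]
    linarith
  have hzl : 1 / 2 ≤ ‖z‖ := by linarith
  have hzp : 0 < ‖z‖ := by linarith
  obtain ⟨hρ1, hρ2⟩ := rho_le hΛ
  have hden := den_ne hΛ (N := N) hz1
  -- the point on the circle
  set t := ‖z‖ with ht
  set u : ℂ := z / t with hu
  have htc : (t : ℂ) ≠ 0 := by exact_mod_cast hzp.ne'
  have hzu : z = t * u := by
    rw [hu]
    field_simp
  have hu1 : ‖u‖ = 1 := by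
    rw [hu, norm_div, Complex.norm_real, Real.norm_of_nonneg hzp.le, ← ht, div_self hzp.ne']
  have hzu' : ‖z - u‖ = 1 - t := by
    have h5 : z - u = ((t - 1 : ℝ) : ℂ) * u := by
      rw [hzu]
      push_cast
      ring
    rw [h5, norm_mul, hu1, mul_one, Complex.norm_real, Real.norm_eq_abs, abs_of_nonpos (by linarith)]
    ring
  have e1 : ‖k.eval z - k.eval u‖ ≤ K₁ * (1 - t) := by
    rw [← hzu']
    exact lip_poly k hK₁ hz1 hu1.le
  have e2 : ‖(refl k).eval z - (refl k).eval u‖ ≤ K₃ * (1 - t) := by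
    rw [← hzu']
    exact lip_poly (refl k) hK₃ hz1 hu1.le
  have e3 : ‖(refl k).eval z - t ^ k.natDegree * (refl k).eval u‖ ≤
      (K₃ + k.natDegree * K₂) * (1 - t) := by
    have h5 : (refl k).eval z - t ^ k.natDegree * (refl k).eval u =
        ((refl k).eval z - (refl k).eval u) +
          ((1 - t ^ k.natDegree : ℝ) : ℂ) * (refl k).eval u := by
      push_cast
      ring
    rw [h5]
    refine (norm_add_le _ _).trans ?_
    rw [norm_mul, Complex.norm_real]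
    have h6 : 0 ≤ 1 - t ^ k.natDegree := by
      have := pow_le_one₀ (n := k.natDegree) hzp.le hz1
      linarith
    rw [Real.norm_of_nonneg h6]
    have h7 : 1 - t ^ k.natDegree ≤ k.natDegree * (1 - t) := by
      have := one_add_mul_le_pow (a := t - 1) (by linarith) k.natDegree
      rw [add_sub_cancel] at this
      linarith
    have h8 : (1 - t ^ k.natDegree) * ‖(refl k).eval u‖ ≤ (k.natDegree * (1 - t)) * K₂ :=
      mul_le_mul h7 (hK₂ u hu1.le) (norm_nonneg _) (by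
        have : 0 ≤ 1 - t := by linarith
        positivity)
    linarith
  -- decomposition of `J`
  set l : ℝ := Λ - (k.eval u).re with hl
  set R : ℂ := -(z ^ N * (k.eval z - k.eval u) / 2) - z ^ (N - k.natDegree) *
    ((refl k).eval z - t ^ k.natDegree * (refl k).eval u) / 2 with hR
  have hJ : Jf k Λ N z = z ^ N * (l : ℂ) + R := by
    have h5 : z ^ (N - k.natDegree) * (t ^ k.natDegree * (refl k).eval u) =
        z ^ N * conj (k.eval u) := by
      rw [refl_eval k hu1]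
      have h6 : (z : ℂ) ^ N = z ^ (N - k.natDegree) * (t ^ k.natDegree * u ^ k.natDegree) := by
        rw [← mul_pow, ← hzu, ← pow_add, Nat.sub_add_cancel hNd]
      rw [h6]
      ring
    have h7 : (l : ℂ) = Λ - (k.eval u + conj (k.eval u)) / 2 := by
      rw [hl]
      push_cast
      rw [Complex.re_eq_add_conj]
    rw [Jf, hR, h7]
    linear_combination (-1 / 2 : ℂ) * h5
  have hRn : ‖R‖ ≤ M * (1 - t) := by
    rw [hR]
    refine (norm_sub_le _ _).trans ?_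
    rw [norm_neg, norm_div, norm_div, norm_mul, norm_mul, norm_pow, norm_pow, Complex.norm_two]
    have h5 : ‖z‖ ^ N * ‖k.eval z - k.eval u‖ ≤ 1 * (K₁ * (1 - t)) :=
      mul_le_mul (pow_le_one₀ (norm_nonneg _) hz1) e1 (norm_nonneg _) zero_le_one
    have h6 : ‖z‖ ^ (N - k.natDegree) * ‖(refl k).eval z - t ^ k.natDegree * (refl k).eval u‖ ≤
        1 * ((K₃ + k.natDegree * K₂) * (1 - t)) :=
      mul_le_mul (pow_le_one₀ (norm_nonneg _) hz1) e3 (norm_nonneg _) zero_le_one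
    have h7 : 0 ≤ K₁ * (1 - t) := mul_nonneg hK₁0 (by linarith)
    have h8 : 0 ≤ (K₃ + k.natDegree * K₂) * (1 - t) := mul_nonneg (by positivity) (by linarith)
    rw [hM]
    nlinarith
  set w : ℂ := (rho Λ : ℂ) * z ^ N with hw
  have hH : Hf k Λ N z = ((-l : ℝ) : ℂ) * (2 * w / (1 - w)) - 2 * (rho Λ : ℂ) * R / (1 - w) := by
    rw [Hf, hJ, hw]
    push_cast
    ring
  have hwn : ‖w‖ ≤ t ^ N := by
    rw [hw, norm_mul, norm_pow, Complex.norm_real, Real.norm_of_nonneg (by linarith)]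
    have := mul_le_mul_of_nonneg_right hρ2.le (pow_nonneg (norm_nonneg z) N)
    linarith
  have hl0 : Λ - K₀ ≤ l := by
    have h5 := Complex.re_le_norm (k.eval u)
    have h6 := hK₀ u hu1.le
    rw [hl]
    linarith
  have hX : (1 - t ^ N) / 2 ≤ (1 - ‖w‖ ^ 2) / ‖1 - w‖ ^ 2 := by
    rcases eq_or_lt_of_le (pow_le_one₀ (n := N) hzp.le hz1) with h5 | h5
    · have h6 : t ^ N = 1 := h5
      rw [h6, sub_self, zero_div]
      apply div_nonneg _ (by positivity)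
      have : ‖w‖ ^ 2 ≤ 1 := pow_le_one₀ (norm_nonneg _) (by linarith)
      linarith
    · exact X_lower h5 hwn
  have hH2 : ‖2 * (rho Λ : ℂ) * R / (1 - w)‖ ≤ 2 * M * (1 - t) * Λ ^ 3 := by
    have hd := norm_den hΛ (N := N) hz1
    have hΛ3 : 0 < Λ ^ 3 := by positivity
    have hdp : 0 < ‖1 - w‖ := norm_pos_iff.2 hden
    rw [norm_div, norm_mul, norm_mul, Complex.norm_two, Complex.norm_real,
      Real.norm_of_nonneg (by linarith), div_le_iff₀ hdp]
    have h5 : 2 * rho Λ * ‖R‖ ≤ 2 * M * (1 - t) := by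
      have : rho Λ * ‖R‖ ≤ 1 * (M * (1 - t)) :=
        mul_le_mul hρ2.le hRn (norm_nonneg _) zero_le_one
      linarith
    have h6 : 2 * M * (1 - t) * Λ ^ 3 * (Λ ^ 3)⁻¹ ≤ 2 * M * (1 - t) * Λ ^ 3 * ‖1 - w‖ :=
      mul_le_mul_of_nonneg_left hd (by
        have : 0 ≤ 1 - t := by linarith
        positivity)
    rw [mul_assoc _ (Λ ^ 3), mul_inv_cancel₀ hΛ3.ne', mul_one] at h6
    linarith
  have ht4 : 1 - t ≤ 4 / N := by linarith
  have hsmall : K₁ * (1 - t) + 2 * M * (1 - t) * Λ ^ 3 ≤ 1 := by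
    have hΛ3 : 1 ≤ Λ ^ 3 := one_le_pow₀ (by linarith)
    have h5 : K₁ * (1 - t) + 2 * M * (1 - t) * Λ ^ 3 ≤ (K₁ + 2 * M) * Λ ^ 3 * (1 - t) := by
      have : K₁ * (1 - t) * 1 ≤ K₁ * (1 - t) * Λ ^ 3 :=
        mul_le_mul_of_nonneg_left hΛ3 (mul_nonneg hK₁0 (by linarith))
      linarith
    have h6 : (K₁ + 2 * M) * Λ ^ 3 * (1 - t) ≤ (K₁ + 2 * M) * Λ ^ 3 * (4 / N) :=
      mul_le_mul_of_nonneg_left ht4 (by positivity)
    have h7 : (K₁ + 2 * M) * Λ ^ 3 * (4 / N) ≤ 1 := by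
      rw [mul_div_assoc', div_le_one hN0]
      linarith
    linarith
  have hfin : (k.eval z + Hf k Λ N z).re = (k.eval z).re + (-l) *
      ((1 - ‖w‖ ^ 2) / ‖1 - w‖ ^ 2 - 1) - (2 * (rho Λ : ℂ) * R / (1 - w)).re := by
    rw [Complex.add_re, hH, Complex.sub_re, Complex.re_ofReal_mul, re_two_mul_div hden]
    ring
  rw [hfin]
  have g1 : (k.eval z).re ≤ (k.eval u).re + K₁ * (1 - t) := by
    have h5 := Complex.re_le_norm (k.eval z - k.eval u)
    rw [Complex.sub_re] at h5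
    linarith
  have g2 : -(2 * (rho Λ : ℂ) * R / (1 - w)).re ≤ 2 * M * (1 - t) * Λ ^ 3 := by
    have h5 := Complex.abs_re_le_norm (2 * (rho Λ : ℂ) * R / (1 - w))
    have h6 := neg_abs_le (2 * (rho Λ : ℂ) * R / (1 - w)).re
    linarith
  have g3 : (Λ - K₀) * ((1 - t ^ N) / 2) ≤ l * ((1 - ‖w‖ ^ 2) / ‖1 - w‖ ^ 2) := by
    apply mul_le_mul hl0 hX _ (by linarith)
    have := pow_le_one₀ (n := N) hzp.le hz1
    linarith
  have g4 : Λ = l + (k.eval u).re := by rw [hl]; ring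
  have g5 : (-l) * ((1 - ‖w‖ ^ 2) / ‖1 - w‖ ^ 2 - 1) = l - l * ((1 - ‖w‖ ^ 2) / ‖1 - w‖ ^ 2) := by
    ring
  rw [g5]
  have g6 : (Λ - K₀) * (1 - t ^ N) / 2 = (Λ - K₀) * ((1 - t ^ N) / 2) := by ring
  rw [g6]
  linarith

theorem Ef_upper (κ : ℝ) (hκ : 0 < κ) (k : ℂ[X]) :
    ∀ᶠ Λ : ℝ in atTop, ∀ N : ℕ, NOK κ Λ N → ∀ z ∈ closedBall (0 : ℂ) 1,
      ‖Ef k Λ N z‖ ≤ Real.exp Λ * Λ ^ 6 := by
  obtain ⟨K₀, hK₀0, hK₀⟩ := exists_bound k
  filter_upwards [NOK_large κ hκ k.natDegree 0, eventually_ge_atTop (2 : ℝ),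
    eventually_ge_atTop K₀] with Λ h2 hΛ hΛK N hN z hz
  have hNd : k.natDegree ≤ N := by
    have := h2 N hN
    rw [pow_zero, mul_one] at this
    exact_mod_cast this
  have hdiff : ∀ x ∈ closedBall (0 : ℂ) 1, DifferentiableAt ℂ (Ef k Λ N) x := by
    intro x hx
    have hx' : ‖x‖ ≤ 1 := by simpa using hx
    have hd := den_ne hΛ (N := N) hx'
    have h3 : DifferentiableAt ℂ (fun z : ℂ => 1 - (rho Λ : ℂ) * z ^ N) x := by fun_prop
    have h4 : DifferentiableAt ℂ (Jf k Λ N) x := by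
      have h5 : DifferentiableAt ℂ (fun z : ℂ => z ^ N * (Λ : ℂ) - z ^ N * k.eval z / 2 -
          z ^ (N - k.natDegree) * (refl k).eval z / 2) x := by
        have h6 : DifferentiableAt ℂ (fun z : ℂ => k.eval z) x := k.differentiableAt
        have h7 : DifferentiableAt ℂ (fun z : ℂ => (refl k).eval z) x := (refl k).differentiableAt
        fun_prop
      exact h5
    have h5 : DifferentiableAt ℂ (Hf k Λ N) x := by
      have h6 : DifferentiableAt ℂ (fun z : ℂ => -(2 * (rho Λ : ℂ) * Jf k Λ N z /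
        (1 - rho Λ * z ^ N))) x := ((h4.const_mul _).div h3 hd).neg
      exact h6
    have h6 : DifferentiableAt ℂ (fun z : ℂ => exp (k.eval z + Hf k Λ N z) /
        (1 - rho Λ * z ^ N) ^ 2) x := by
      have h7 : DifferentiableAt ℂ (fun z : ℂ => k.eval z) x := k.differentiableAt
      exact ((h7.add h5).cexp).div (h3.pow 2) (pow_ne_zero _ hd)
    exact h6
  have hdc : DiffContOnCl ℂ (Ef k Λ N) (ball 0 1) := by
    apply DifferentiableOn.diffContOnCl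
    rw [closure_ball (0 : ℂ) one_ne_zero]
    exact fun x hx => (hdiff x hx).differentiableWithinAt
  refine Complex.norm_le_of_forall_mem_frontier_norm_le isBounded_ball hdc ?_
    (z := z) (by rwa [closure_ball (0 : ℂ) one_ne_zero])
  intro x hx
  rw [frontier_ball (0 : ℂ) one_ne_zero] at hx
  have hx1 : ‖x‖ = 1 := by simpa using hx
  obtain ⟨h3, -⟩ := exponent_circle k hΛ hNd hx1
  obtain ⟨hρ1, hρ2⟩ := rho_le hΛ
  have hd := norm_den hΛ (N := N) hx1.le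
  have hΛ3 : 0 < Λ ^ 3 := by positivity
  rw [Ef, norm_div, norm_pow, Complex.norm_exp, h3]
  have h4 : 0 ≤ Xf Λ N x := by
    rw [Xf]
    apply div_nonneg _ (by positivity)
    nlinarith
  have h5 : 0 ≤ Λ - (k.eval x).re := by
    have h6 := Complex.re_le_norm (k.eval x)
    have h7 := hK₀ x hx1.le
    linarith
  have h6 : Real.exp (Λ - (Λ - (k.eval x).re) * Xf Λ N x) ≤ Real.exp Λ :=
    Real.exp_le_exp.2 (by nlinarith)
  have h7 : ((Λ ^ 3)⁻¹) ^ 2 ≤ ‖1 - (rho Λ : ℂ) * x ^ N‖ ^ 2 :=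
    pow_le_pow_left₀ (by positivity) hd 2
  calc Real.exp (Λ - (Λ - (k.eval x).re) * Xf Λ N x) / ‖1 - (rho Λ : ℂ) * x ^ N‖ ^ 2
      ≤ Real.exp Λ / ((Λ ^ 3)⁻¹) ^ 2 := div_le_div₀ (Real.exp_pos _).le h6 (by positivity) h7
    _ = Real.exp Λ * Λ ^ 6 := by
        field_simp

end Pool.Agent.Helper61.Lac
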