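import Pool.Agent.Helper61.Lac.Base

/-!
# LC-7: the Jensen trick and the Möbius boost (MP_78803a_an)
-/

set_option autoImplicit false

open Filter Topology Metric Complex Polynomial Real
open scoped ComplexConjugate

namespace Pool.Agent.Helper61.Lac

theorem circleAverage_log_one_sub {h : ℂ → ℂ} (hh : AnalyticOnNhd ℂ h (closedBall 0 1))
    (h1 : ∀ z ∈ closedBall (0 : ℂ) 1, ‖h z‖ < 1) (h0 : h 0 = 0) :
    circleAverage (fun z => Real.log ‖1 - h z‖) 0 1 = 0 := by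
  have hg : AnalyticOnNhd ℂ (fun z => 1 - h z) (closedBall (0 : ℂ) |(1 : ℝ)|) := by
    rw [abs_one]
    intro z hz
    exact analyticAt_const.sub (hh z hz)
  have hne : ∀ u ∈ closedBall (0 : ℂ) |(1 : ℝ)|, (fun z => 1 - h z) u ≠ 0 := by
    rw [abs_one]
    intro z hz h2
    have h3 : h z = 1 := (sub_eq_zero.1 h2).symm
    have h4 := h1 z hz
    rw [h3, norm_one] at h4
    exact lt_irrefl _ h4
  have h5 := hg.circleAverage_log_norm_of_ne_zero hne
  rw [h5]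
  simp [h0]

/-- continuity of `log |1 - h|` on the unit circle -/
lemma continuousOn_log_one_sub {h : ℂ → ℂ} (hh : AnalyticOnNhd ℂ h (closedBall 0 1))
    (h1 : ∀ z ∈ closedBall (0 : ℂ) 1, ‖h z‖ < 1) :
    ContinuousOn (fun z => Real.log ‖1 - h z‖) (sphere 0 1) := by
  refine ContinuousOn.log ?_ ?_
  · exact (continuousOn_const.sub (hh.continuousOn.mono sphere_subset_closedBall)).norm
  · intro z hz h2
    have h3 : h z = 1 := (sub_eq_zero.1 (norm_eq_zero.1 h2)).symm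
    have h4 := h1 z (sphere_subset_closedBall hz)
    rw [h3, norm_one] at h4
    exact lt_irrefl _ h4

theorem mean_lower {u : ℂ → ℝ} {h₁ h₂ : ℂ → ℂ} (hu : ContinuousOn u (sphere 0 1))
    (hh₁ : AnalyticOnNhd ℂ h₁ (closedBall 0 1)) (hb₁ : ∀ z ∈ closedBall (0 : ℂ) 1, ‖h₁ z‖ < 1)
    (hz₁ : h₁ 0 = 0)
    (hh₂ : AnalyticOnNhd ℂ h₂ (closedBall 0 1)) (hb₂ : ∀ z ∈ closedBall (0 : ℂ) 1, ‖h₂ z‖ < 1)
    (hz₂ : h₂ 0 = 0) {η₁ η₂ A : ℝ} (hη₁ : 0 < η₁) (hη₁' : η₁ < 2) (hη₂ : 0 < η₂) (hη₂' : η₂ < 2)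
    (hA : 0 ≤ A)
    (hu' : ∀ z : ℂ, ‖z‖ = 1 → η₁ ≤ ‖1 - h₁ z‖ → η₂ ≤ ‖1 - h₂ z‖ → A ≤ u z) :
    A * (1 - Real.log 2 / Real.log (2 / η₁) - Real.log 2 / Real.log (2 / η₂)) ≤
      circleAverage (fun z => max (u z) 0) 0 1 := by
  have hl₁ : 0 < Real.log (2 / η₁) := Real.log_pos (by rw [lt_div_iff₀ hη₁]; linarith)
  have hl₂ : 0 < Real.log (2 / η₂) := Real.log_pos (by rw [lt_div_iff₀ hη₂]; linarith)
  set L₁ := Real.log (2 / η₁) with hL₁
  set L₂ := Real.log (2 / η₂) with hL₂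
  -- the comparison function
  set c₀ : ℝ := A * (1 - Real.log 2 / L₁ - Real.log 2 / L₂) with hc₀
  have hci₁ : CircleIntegrable (fun z => Real.log ‖1 - h₁ z‖) 0 1 :=
    ContinuousOn.circleIntegrable' (by
      rw [abs_one]; exact continuousOn_log_one_sub hh₁ hb₁)
  have hci₂ : CircleIntegrable (fun z => Real.log ‖1 - h₂ z‖) 0 1 :=
    ContinuousOn.circleIntegrable' (by
      rw [abs_one]; exact continuousOn_log_one_sub hh₂ hb₂)
  have hc : CircleIntegrable (fun _ : ℂ => c₀) 0 1 := circleIntegrable_const _ _ _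
  have hm₁ : CircleIntegrable (fun z => (A / L₁) * Real.log ‖1 - h₁ z‖) 0 1 := by
    have := hci₁.const_fun_smul (a := A / L₁)
    simpa using this
  have hm₂ : CircleIntegrable (fun z => (A / L₂) * Real.log ‖1 - h₂ z‖) 0 1 := by
    have := hci₂.const_fun_smul (a := A / L₂)
    simpa using this
  have hgi : CircleIntegrable (fun z => c₀ + (A / L₁) * Real.log ‖1 - h₁ z‖ +
      (A / L₂) * Real.log ‖1 - h₂ z‖) 0 1 := (hc.add hm₁).add hm₂
  have hui : CircleIntegrable (fun z => max (u z) 0) 0 1 :=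
    ContinuousOn.circleIntegrable' (by
      rw [abs_one]; exact hu.sup continuousOn_const)
  have havg : circleAverage (fun z => c₀ + (A / L₁) * Real.log ‖1 - h₁ z‖ +
      (A / L₂) * Real.log ‖1 - h₂ z‖) 0 1 = c₀ := by
    have hcm : CircleIntegrable (fun z => c₀ + (A / L₁) * Real.log ‖1 - h₁ z‖) 0 1 := hc.add hm₁
    rw [circleAverage_fun_add hcm hm₂, circleAverage_fun_add hc hm₁]
    have e1 : circleAverage (fun z => (A / L₁) * Real.log ‖1 - h₁ z‖) 0 1 = 0 := by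
      have := circleAverage_fun_smul (a := A / L₁) (f := fun z => Real.log ‖1 - h₁ z‖)
        (c := (0 : ℂ)) (R := 1)
      simp only [smul_eq_mul] at this
      rw [this, circleAverage_log_one_sub hh₁ hb₁ hz₁, mul_zero]
    have e2 : circleAverage (fun z => (A / L₂) * Real.log ‖1 - h₂ z‖) 0 1 = 0 := by
      have := circleAverage_fun_smul (a := A / L₂) (f := fun z => Real.log ‖1 - h₂ z‖)
        (c := (0 : ℂ)) (R := 1)
      simp only [smul_eq_mul] at this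
      rw [this, circleAverage_log_one_sub hh₂ hb₂ hz₂, mul_zero]
    rw [e1, e2, circleAverage_const]
    ring
  rw [← havg]
  refine circleAverage_mono hgi hui ?_
  intro z hz
  rw [abs_one] at hz
  have hzn : ‖z‖ = 1 := by simpa using hz
  have hzc := sphere_subset_closedBall hz
  have hle : ∀ h : ℂ → ℂ, ‖h z‖ < 1 → Real.log ‖1 - h z‖ ≤ Real.log 2 := by
    intro h hb
    have h3 : ‖1 - h z‖ ≤ 2 := by
      refine (norm_sub_le _ _).trans ?_
      rw [norm_one]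
      linarith
    have h4 : 0 < ‖1 - h z‖ := by
      have := norm_sub_norm_le (1 : ℂ) (h z)
      rw [norm_one] at this
      linarith
    exact Real.log_le_log h4 h3
  have hsmall : ∀ (h : ℂ → ℂ) (η : ℝ), 0 < η → ‖h z‖ < 1 → ‖1 - h z‖ < η →
      Real.log ‖1 - h z‖ ≤ Real.log 2 - Real.log (2 / η) := by
    intro h η hη hb hlt
    have h4 : 0 < ‖1 - h z‖ := by
      have := norm_sub_norm_le (1 : ℂ) (h z)
      rw [norm_one] at this
      linarith
    rw [Real.log_div (by norm_num) hη.ne']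
    have := Real.log_le_log h4 hlt.le
    linarith
  have k1 := hle h₁ (hb₁ z hzc)
  have k2 := hle h₂ (hb₂ z hzc)
  have hA1 : 0 ≤ A / L₁ := by positivity
  have hA2 : 0 ≤ A / L₂ := by positivity
  have ec : c₀ + (A / L₁) * Real.log ‖1 - h₁ z‖ + (A / L₂) * Real.log ‖1 - h₂ z‖ =
      A + (A / L₁) * (Real.log ‖1 - h₁ z‖ - Real.log 2) +
        (A / L₂) * (Real.log ‖1 - h₂ z‖ - Real.log 2) := by
    rw [hc₀]
    field_simp
    ring
  have m1 : (A / L₁) * (Real.log ‖1 - h₁ z‖ - Real.log 2) ≤ 0 :=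
    mul_nonpos_of_nonneg_of_nonpos hA1 (by linarith)
  have m2 : (A / L₂) * (Real.log ‖1 - h₂ z‖ - Real.log 2) ≤ 0 :=
    mul_nonpos_of_nonneg_of_nonpos hA2 (by linarith)
  rw [ec]
  by_cases c1 : η₁ ≤ ‖1 - h₁ z‖
  · by_cases c2 : η₂ ≤ ‖1 - h₂ z‖
    · have := hu' z hzn c1 c2
      exact le_trans (by linarith) (le_max_left _ _)
    · push Not at c2
      have h5 := hsmall h₂ η₂ hη₂ (hb₂ z hzc) c2
      have h6 : (A / L₂) * (Real.log ‖1 - h₂ z‖ - Real.log 2) ≤ (A / L₂) * (-L₂) :=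
        mul_le_mul_of_nonneg_left (by linarith) hA2
      have h7 : (A / L₂) * (-L₂) = -A := by
        field_simp
      exact le_trans (by linarith) (le_max_right _ _)
  · push Not at c1
    have h5 := hsmall h₁ η₁ hη₁ (hb₁ z hzc) c1
    have h6 : (A / L₁) * (Real.log ‖1 - h₁ z‖ - Real.log 2) ≤ (A / L₁) * (-L₁) :=
      mul_le_mul_of_nonneg_left (by linarith) hA1
    have h7 : (A / L₁) * (-L₁) = -A := by
      field_simp
    exact le_trans (by linarith) (le_max_right _ _)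

/-- the real part of the Möbius boost in real coordinates -/
lemma moebius_re {δ r : ℝ} (p : ℂ) :
    (-(2 * δ * p / (1 - r * p))).re =
      -(2 * δ * (p.re - r * (p.re ^ 2 + p.im ^ 2))) /
        (1 - 2 * r * p.re + r ^ 2 * (p.re ^ 2 + p.im ^ 2)) := by
  have e1 : normSq (1 - (r : ℂ) * p) = 1 - 2 * r * p.re + r ^ 2 * (p.re ^ 2 + p.im ^ 2) := by
    rw [normSq_apply]
    simp
    ring
  rw [neg_re, div_re, e1]
  simp only [mul_re, mul_im, sub_re, sub_im, one_re, one_im, ofReal_re, ofReal_im, re_ofNat,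
    im_ofNat]
  ring

lemma sq_bound {p : ℂ} (hp : ‖p‖ ≤ 1) : p.re ^ 2 + p.im ^ 2 ≤ 1 := by
  have h1 : ‖p‖ ^ 2 = p.re ^ 2 + p.im ^ 2 := by
    rw [← Complex.normSq_eq_norm_sq, normSq_apply]
    ring
  rw [← h1]
  have := norm_nonneg p
  nlinarith

lemma denom_pos {r : ℝ} (hr0 : 0 < r) (hr1 : r < 1) {p : ℂ} (hp : ‖p‖ ≤ 1) :
    0 < 1 - 2 * r * p.re + r ^ 2 * (p.re ^ 2 + p.im ^ 2) := by
  have h1 : p.re ≤ 1 := (re_le_norm p).trans hp
  nlinarith [sq_nonneg (r * p.im), sq_nonneg (1 - r * p.re), mul_pos hr0 hr0,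
    mul_le_mul_of_nonneg_left h1 hr0.le, sq_nonneg (1 - r)]

/-- the Möbius boost: upper bound -/
theorem moebius_upper {δ r : ℝ} (hδ : 0 ≤ δ) (hr0 : 0 < r) (hr1 : r < 1) {p : ℂ} (hp : ‖p‖ ≤ 1) :
    (-(2 * δ * p / (1 - r * p))).re ≤ 2 * δ / (1 + r) := by
  rw [moebius_re]
  have hn := sq_bound hp
  have hD := denom_pos hr0 hr1 hp
  set n : ℝ := p.re ^ 2 + p.im ^ 2 with hn'
  have ha : -1 ≤ p.re := by
    have h1 := abs_re_le_norm p
    have h2 := neg_abs_le p.re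
    linarith
  rw [div_le_div_iff₀ hD (by linarith)]
  have key : 0 ≤ 1 + p.re * (1 - r) - r * n := by
    nlinarith [mul_le_mul_of_nonneg_left hn hr0.le,
      mul_le_mul_of_nonneg_right ha (sub_nonneg.2 hr1.le)]
  nlinarith [mul_nonneg hδ key]

/-- the Möbius boost: lower bound -/
theorem moebius_lower {δ r m η : ℝ} (hδ : 0 ≤ δ) (hr0 : 0 < r) (hr1 : r < 1) {p : ℂ}
    (hp : ‖p‖ ≤ 1) (hm : 1 - m ≤ r * ‖p‖) (hm0 : 0 ≤ m) (hη : 0 < η) (hηp : η ≤ ‖1 - r * p‖)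
    (hmη : m ≤ η ^ 2 / 2) :
    δ * (1 - 2 * m / η ^ 2) ≤ (-(2 * δ * p / (1 - r * p))).re := by
  rw [moebius_re]
  have hD := denom_pos hr0 hr1 hp
  have hnorm : ‖p‖ ^ 2 = p.re ^ 2 + p.im ^ 2 := by
    rw [← Complex.normSq_eq_norm_sq, normSq_apply]
    ring
  have hY : ‖1 - (r : ℂ) * p‖ ^ 2 = 1 - 2 * r * p.re + r ^ 2 * (p.re ^ 2 + p.im ^ 2) := by
    rw [← Complex.normSq_eq_norm_sq, normSq_apply]
    simp
    ring
  set n : ℝ := p.re ^ 2 + p.im ^ 2 with hn'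
  set Y : ℝ := 1 - 2 * r * p.re + r ^ 2 * n with hY'
  have hYη : η ^ 2 ≤ Y := by
    rw [← hY]
    exact pow_le_pow_left₀ hη.le hηp 2
  have hrn : 1 - r ^ 2 * n ≤ 2 * m := by
    rw [← hnorm]
    have h0 : 0 ≤ r * ‖p‖ := by positivity
    rcases le_or_gt m 1 with h1 | h1
    · nlinarith
    · nlinarith [sq_nonneg (r * ‖p‖)]
  -- the quotient
  have e1 : -(2 * δ * (p.re - r * n)) / Y = δ / r * (1 - (1 - r ^ 2 * n) / Y) := by
    field_simp
    rw [hY']
    ring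
  rw [e1]
  have h2 : (1 - r ^ 2 * n) / Y ≤ 2 * m / η ^ 2 := by
    have hη2 : 0 < η ^ 2 := by positivity
    calc (1 - r ^ 2 * n) / Y ≤ 2 * m / Y := by gcongr
      _ ≤ 2 * m / η ^ 2 := by gcongr
  have h3 : 0 ≤ 1 - 2 * m / η ^ 2 := by
    have : 2 * m / η ^ 2 ≤ 1 := by
      rw [div_le_one (by positivity)]
      linarith
    linarith
  have h4 : 1 ≤ 1 / r := by
    rw [le_div_iff₀ hr0]
    linarith
  have h5 : δ ≤ δ / r := by
    rw [le_div_iff₀ hr0]
    nlinarith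
  calc δ * (1 - 2 * m / η ^ 2) ≤ δ / r * (1 - 2 * m / η ^ 2) :=
        mul_le_mul_of_nonneg_right h5 h3
    _ ≤ δ / r * (1 - (1 - r ^ 2 * n) / Y) :=
        mul_le_mul_of_nonneg_left (by linarith) (by positivity)

end Pool.Agent.Helper61.Lac
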