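import Pool.Agent.Helper61.Lac.LC2
import Pool.Agent.Helper61.Lac.LC4
import Pool.Agent.Helper61.Lac.LC7

/-!
# LC-8: one step with an analytic exponent (MP_78803a_an, l = 1)

`core_of` takes the bounds of LC-6 as hypotheses.
-/

set_option autoImplicit false

open Filter Topology Metric Complex Polynomial Real
open scoped ComplexConjugate

namespace Pool.Agent.Helper61.Lac

namespace Core

lemma exists_prim' {g : ℂ → ℂ} (hg : AnalyticOnNhd ℂ g (closedBall 0 1)) :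
    ∃ G : ℂ → ℂ, G 0 = 0 ∧ AnalyticOnNhd ℂ G (closedBall 0 1) ∧
      ∀ z ∈ closedBall (0 : ℂ) 1, HasDerivAt G (g z) z := by
  obtain ⟨r, hr, hsub⟩ := (isCompact_closedBall (0 : ℂ) 1).exists_thickening_subset_open
    (isOpen_analyticAt ℂ g) hg
  rw [thickening_closedBall hr zero_le_one] at hsub
  have hd : DifferentiableOn ℂ g (ball 0 (r + 1)) := fun z hz =>
    (hsub hz : AnalyticAt ℂ g z).differentiableAt.differentiableWithinAt
  obtain ⟨G, hG0, hG⟩ := hd.isExactOn_ball.with_val_at 0 0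
  have hin : closedBall (0 : ℂ) 1 ⊆ ball 0 (r + 1) := closedBall_subset_ball (by linarith)
  refine ⟨G, hG0, ?_, fun z hz => hG z (hin hz)⟩
  have hGd : DifferentiableOn ℂ G (ball 0 (r + 1)) := fun z hz =>
    (hG z hz).differentiableAt.differentiableWithinAt
  exact fun z hz => hGd.analyticAt (isOpen_ball.mem_nhds (hin hz))

/-- two-zone radial estimate for a primitive -/
lemma two_zone {U g : ℂ → ℂ} (hU0 : U 0 = 0)
    (hU : ∀ z ∈ closedBall (0 : ℂ) 1, HasDerivAt U (g z) z) {a B₁ B₂ : ℝ} (ha0 : 0 ≤ a)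
    (ha1 : a ≤ 1) (hB₁ : 0 ≤ B₁) (hB₂ : 0 ≤ B₂)
    (h1 : ∀ z : ℂ, ‖z‖ ≤ a → ‖g z‖ ≤ B₁) (h2 : ∀ z : ℂ, ‖z‖ ≤ 1 → ‖g z‖ ≤ B₂) :
    ∀ z : ℂ, ‖z‖ ≤ 1 → ‖U z‖ ≤ B₁ + B₂ * (1 - a) := by
  have key1 : ∀ z : ℂ, ‖z‖ ≤ a → ‖U z‖ ≤ B₁ := by
    intro z hz
    have := (convex_closedBall (0 : ℂ) a).norm_image_sub_le_of_norm_hasDerivWithin_le
      (f := U) (f' := g) (C := B₁) (x := 0) (y := z)
      (fun x hx => (hU x (closedBall_subset_closedBall ha1 hx)).hasDerivWithinAt)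
      (fun x hx => h1 x (by simpa using hx)) (by simpa using ha0) (by simpa using hz)
    rw [hU0, sub_zero, sub_zero] at this
    refine this.trans ?_
    have : ‖z‖ ≤ 1 := hz.trans ha1
    nlinarith
  intro z hz
  by_cases hza : ‖z‖ ≤ a
  · have := key1 z hza
    nlinarith [mul_nonneg hB₂ (sub_nonneg.2 ha1)]
  · push Not at hza
    have hz0 : 0 < ‖z‖ := lt_of_le_of_lt ha0 hza
    have hnz : z ≠ 0 := norm_pos_iff.1 hz0
    set w : ℂ := ((a / ‖z‖ : ℝ) : ℂ) * z with hw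
    have hwn : ‖w‖ = a := by
      rw [hw, norm_mul, Complex.norm_real, Real.norm_eq_abs, abs_of_nonneg (by positivity)]
      field_simp
    have hdist : ‖z - w‖ = ‖z‖ - a := by
      have : z - w = ((1 - a / ‖z‖ : ℝ) : ℂ) * z := by
        rw [hw]; push_cast; ring
      rw [this, norm_mul, Complex.norm_real, Real.norm_eq_abs, abs_of_nonneg]
      · field_simp
      · rw [sub_nonneg, div_le_one hz0]
        exact hza.le
    have h3 := (convex_closedBall (0 : ℂ) 1).norm_image_sub_le_of_norm_hasDerivWithin_le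
      (f := U) (f' := g) (C := B₂) (x := w) (y := z)
      (fun x hx => (hU x hx).hasDerivWithinAt)
      (fun x hx => h2 x (by simpa using hx)) (by simpa [hwn] using ha1) (by simpa using hz)
    rw [hdist] at h3
    have h4 : ‖U z‖ ≤ ‖U w‖ + ‖U z - U w‖ := by
      have := norm_add_le (U w) (U z - U w)
      simpa using this
    have h5 := key1 w hwn.le
    nlinarith

lemma rho_pos {Λ : ℝ} (h : 1 < Λ) : 0 < rho Λ ∧ rho Λ < 1 := by
  have h3 : 1 < Λ ^ 3 := one_lt_pow₀ h (by norm_num)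
  have h4 : (Λ ^ 3)⁻¹ < 1 := inv_lt_one_of_one_lt₀ h3
  have h5 : 0 < (Λ ^ 3)⁻¹ := by positivity
  unfold rho
  constructor <;> linarith

lemma norm_rho_mul {Λ : ℝ} (h : 1 < Λ) (N : ℕ) {z : ℂ} (hz : ‖z‖ ≤ 1) :
    ‖(rho Λ : ℂ) * z ^ N‖ < 1 := by
  obtain ⟨h0, h1⟩ := rho_pos h
  rw [norm_mul, Complex.norm_real, Real.norm_eq_abs, abs_of_pos h0, norm_pow]
  have : ‖z‖ ^ N ≤ 1 := pow_le_one₀ (norm_nonneg _) hz
  nlinarith

lemma slit_of_norm_lt {w : ℂ} (h : ‖w‖ < 1) : 1 - w ∈ slitPlane := by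
  left
  have := Complex.abs_re_le_norm w
  have := abs_le.1 this
  simp only [sub_re, one_re]
  linarith

lemma analytic_Hf (k : ℂ[X]) {Λ : ℝ} (h : 1 < Λ) (N : ℕ) {z : ℂ} (hz : ‖z‖ ≤ 1) :
    AnalyticAt ℂ (Hf k Λ N) z := by
  have hk : AnalyticAt ℂ (fun z => k.eval z) z := k.differentiable.analyticAt z
  have hk' : AnalyticAt ℂ (fun z => (refl k).eval z) z := (refl k).differentiable.analyticAt z
  have hne : 1 - (rho Λ : ℂ) * z ^ N ≠ 0 := slitPlane_ne_zero (slit_of_norm_lt (norm_rho_mul h N hz))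
  have hJ : AnalyticAt ℂ (Jf k Λ N) z := by
    unfold Jf
    fun_prop
  unfold Hf
  have hden : AnalyticAt ℂ (fun z : ℂ => 1 - (rho Λ : ℂ) * z ^ N) z := by fun_prop
  exact ((analyticAt_const.mul hJ).div hden hne).neg

lemma analytic_Ef (k : ℂ[X]) {Λ : ℝ} (h : 1 < Λ) (N : ℕ) {z : ℂ} (hz : ‖z‖ ≤ 1) :
    AnalyticAt ℂ (Ef k Λ N) z := by
  have hk : AnalyticAt ℂ (fun z => k.eval z) z := k.differentiable.analyticAt z
  have hne : 1 - (rho Λ : ℂ) * z ^ N ≠ 0 := slitPlane_ne_zero (slit_of_norm_lt (norm_rho_mul h N hz))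
  have hden : AnalyticAt ℂ (fun z : ℂ => (1 - (rho Λ : ℂ) * z ^ N) ^ 2) z := by fun_prop
  have hH := analytic_Hf k h N hz
  unfold Ef
  exact ((hk.add hH).cexp).div hden (pow_ne_zero _ hne)

lemma one_sub_bounds {r : ℝ} (hr0 : 0 < r) (hr1 : r < 1) {p : ℂ} (hp : ‖p‖ ≤ 1) :
    ‖(r : ℂ) * p‖ < 1 ∧ 1 - r ≤ ‖1 - (r : ℂ) * p‖ := by
  have h1 : ‖(r : ℂ) * p‖ = r * ‖p‖ := by
    rw [norm_mul, Complex.norm_real, Real.norm_eq_abs, abs_of_pos hr0]
  have h2 : ‖(1 : ℂ)‖ - ‖(r : ℂ) * p‖ ≤ ‖1 - (r : ℂ) * p‖ := norm_sub_norm_le _ _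
  rw [norm_one] at h2
  constructor
  · rw [h1]; nlinarith [norm_nonneg p]
  · rw [h1] at h2; nlinarith [norm_nonneg p]

lemma inv_sq_sub_one {w : ℂ} {σ : ℝ} (hw : ‖w‖ ≤ σ) (hσ : σ ≤ 1 / 2) :
    ‖((1 - w) ^ 2)⁻¹ - 1‖ ≤ 10 * σ := by
  have hσ0 : 0 ≤ σ := (norm_nonneg _).trans hw
  have h2 : ‖(1 : ℂ)‖ - ‖w‖ ≤ ‖1 - w‖ := norm_sub_norm_le _ _
  rw [norm_one] at h2
  have h3 : 1 / 2 ≤ ‖1 - w‖ := by linarith
  have hne : 1 - w ≠ 0 := by
    intro h; rw [h, norm_zero] at h3; linarith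
  have h4 : ((1 - w) ^ 2)⁻¹ - 1 = w * (2 - w) / (1 - w) ^ 2 := by
    field_simp
    ring
  rw [h4, norm_div, norm_mul, norm_pow]
  have h5 : ‖2 - w‖ ≤ 5 / 2 := by
    have : ‖(2 : ℂ) - w‖ ≤ ‖(2 : ℂ)‖ + ‖w‖ := norm_sub_le _ _
    rw [show ‖(2 : ℂ)‖ = 2 by simp] at this
    linarith
  rw [div_le_iff₀ (by positivity)]
  have h6 : 1 / 4 ≤ ‖1 - w‖ ^ 2 := by nlinarith
  have h7 : ‖w‖ * ‖2 - w‖ ≤ σ * (5 / 2) := by
    apply mul_le_mul hw h5 (norm_nonneg _) hσ0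
  nlinarith

/-- the data of one step for fixed parameters -/
structure Data (κ : ℝ) (k : ℂ[X]) (ξ : ℂ → ℂ) (ε ρ K C Λ t τ σ : ℝ) (N : ℕ) (V : ℂ → ℂ) :
    Prop where
  hκ : 0 < κ
  hξ : ∀ z, HasDerivAt ξ (exp (k.eval z)) z
  hξ0 : ξ 0 = 0
  hε : 0 < ε
  hρ : ρ < 1
  hK : 0 ≤ K
  hkK : ∀ z ∈ closedBall (0 : ℂ) 1, ‖k.eval z‖ ≤ K
  hξK : ∀ z ∈ closedBall (0 : ℂ) 1, ‖ξ z‖ ≤ K
  hC : 0 ≤ C
  hΛ : 1 < Λ
  hN : NOK κ Λ N
  hV : IsV k Λ N V
  hVa : AnalyticOnNhd ℂ V (closedBall 0 1)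
  ht0 : 0 < t
  ht1 : t ≤ 1 / 2
  hΛt : Λ * t ^ 8 = 1
  htr : Λ ^ (-(1 / 2) : ℝ) = t ^ 4
  hNlow : Real.exp (Λ / 2) ≤ N
  hNup : (N : ℝ) ≤ Real.exp Λ
  hN4 : (4 : ℝ) < N
  hρN : ρ ≤ 1 - 4 / N
  hVin : ∀ z : ℂ, ‖z‖ ≤ 1 - 4 / N → ‖V z‖ ≤ τ
  hVup : ∀ z ∈ closedBall (0 : ℂ) 1, ‖V z‖ ≤ 2 * κ * Λ + C
  hVlow : ∀ z : ℂ, ‖z‖ = 1 → 2 * Λ ^ (-(1 / 2) : ℝ) ≤ ‖1 - (rho Λ : ℂ) * z ^ N‖ →
        2 * κ * Λ - C ≤ ‖V z‖
  hE : ∀ z ∈ closedBall (0 : ℂ) 1, ‖Ef k Λ N z‖ ≤ Real.exp Λ * Λ ^ 6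
  hH : ∀ z : ℂ, ‖z‖ ≤ ρ → ‖Hf k Λ N z‖ ≤ ε / 4 ∧ ‖z‖ ^ N ≤ min (1 / 2) (ε / 12)
  hτ : τ ≤ t ^ 4 * (min ε 1 / 4)
  hστ : τ ≤ σ * κ
  hσ : σ ≤ 1 / 2
  hσε : 3 * σ ≤ ε / 4
  hσK : Real.exp K * (10 * σ) ≤ min ε 1 / 8
  hBN : Real.exp K * (Λ + 1) * (4 / N) ≤ min ε 1 / 8
  hout : K + κ * Λ + κ * Λ * t ^ 4 + C + 1 ≤ (κ + ε) * (Λ - Real.log (16 * κ * Λ ^ 2))
  hCt : C * t ^ 4 ≤ κ
  h4κ : 4 * κ ≤ Λ
  hR : ρ < 1 - 1 / (N * Λ ^ 10)
  hA0 : 0 ≤ κ * Λ * (1 - 4 * t ^ 2) - K - 2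
  hA : max (κ - ε) 0 * (Λ + 10 * Real.log Λ) ≤ (κ * Λ * (1 - 4 * t ^ 2) - K - 2) *
    (1 - Real.log 2 / Real.log (2 / (2 * t ^ 4)) - Real.log 2 / Real.log (2 / t))

theorem core_fixed {κ : ℝ} {k : ℂ[X]} {ξ : ℂ → ℂ} {ε ρ K C Λ t τ σ : ℝ} {N : ℕ} {V : ℂ → ℂ}
    (d : Data κ k ξ ε ρ K C Λ t τ σ N V) :
    ∃ (k₁ ξ₁ : ℂ → ℂ) (R : ℝ), AnalyticOnNhd ℂ k₁ (closedBall 0 1) ∧
      (∀ z ∈ closedBall (0 : ℂ) 1, HasDerivAt ξ₁ (exp (k₁ z)) z) ∧ ξ₁ 0 = 0 ∧ ρ < R ∧ 0 < R ∧ R < 1 ∧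
      (∀ z, ‖z‖ ≤ ρ → ‖k₁ z - k.eval z‖ ≤ ε) ∧
      (∀ z, ‖z‖ ≤ ρ → ‖ξ₁ z - ξ z‖ ≤ ε) ∧
      (∀ z, ‖z‖ < 1 → (ξ₁ z).re ≤ max ((ξ z).re + ε) ((κ + ε) * (-Real.log (1 - ‖z‖)))) ∧
      (κ - ε) * (-Real.log (1 - R)) ≤ circleAverage (fun z => max (ξ₁ z).re 0) 0 R := by
  obtain ⟨hκ, hξ, hξ0, hε, hρ, hK, hkK, hξK, hC, hΛ, hN, hV, hVa, ht0, ht1, hΛt, htr, hNlow, hNup,
    hN4, hρN, hVin, hVup, hVlow, hE, hH, hτ, hστ, hσ, hσε, hσK, hBN, hout, hCt, h4κ, hR, hA0, hA⟩ := d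
  have hΛ0 : 0 < Λ := by linarith
  have hNpos : (0 : ℝ) < N := by linarith
  have hN0 : N ≠ 0 := by
    rintro rfl; simp at hNpos
  have hm1 : min ε 1 ≤ ε := min_le_left _ _
  have hm2 : min ε 1 ≤ 1 := min_le_right _ _
  have hm0 : 0 < min ε 1 := lt_min hε one_pos
  set D : ℝ := 2 * κ * Λ + C with hD
  have hDpos : 0 < D := by positivity
  have hDκ : κ ≤ D := by
    have h1 : κ * 1 ≤ κ * Λ := mul_le_mul_of_nonneg_left hΛ.le hκ.le
    linarith
  set r : ℝ := 1 - t ^ 4 with hr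
  have ht4 : t ^ 4 ≤ 1 / 16 := by
    calc t ^ 4 ≤ (1 / 2) ^ 4 := pow_le_pow_left₀ ht0.le ht1 4
      _ = 1 / 16 := by norm_num
  have ht4p : 0 < t ^ 4 := by positivity
  have ht2 : t ^ 2 ≤ 1 / 4 := by
    calc t ^ 2 ≤ (1 / 2) ^ 2 := pow_le_pow_left₀ ht0.le ht1 2
      _ = 1 / 4 := by norm_num
  have ht2m : 2 * t ^ 4 ≤ t ^ 2 / 2 := by
    calc 2 * t ^ 4 = 2 * t ^ 2 * t ^ 2 := by ring
      _ ≤ 2 * t ^ 2 * (1 / 4) := by gcongr
      _ = t ^ 2 / 2 := by ring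
  have hr0 : 0 < r := by rw [hr]; linarith
  have hr1 : r < 1 := by rw [hr]; linarith
  obtain ⟨hrho0, hrho1⟩ := rho_pos hΛ
  set p : ℂ → ℂ := fun z => -V z / D with hp
  have hpn : ∀ z, ‖p z‖ = ‖V z‖ / D := by
    intro z
    simp only [hp, norm_div, norm_neg, Complex.norm_real, Real.norm_eq_abs, abs_of_pos hDpos]
  have hp1 : ∀ z ∈ closedBall (0 : ℂ) 1, ‖p z‖ ≤ 1 := by
    intro z hz
    rw [hpn, div_le_one hDpos]
    exact hVup z hz
  have hp0 : p 0 = 0 := by simp [hp, hV.zero]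
  have hpa : AnalyticOnNhd ℂ p (closedBall 0 1) := by
    intro z hz
    have := hVa z hz
    simp only [hp]
    fun_prop (disch := exact_mod_cast hDpos.ne')
  set y : ℂ → ℂ := fun z => 1 - (r : ℂ) * p z with hy
  have hya : AnalyticOnNhd ℂ y (closedBall 0 1) := by
    intro z hz
    have := hpa z hz
    simp only [hy]
    fun_prop
  have hy1 : ∀ z ∈ closedBall (0 : ℂ) 1, t ^ 4 ≤ ‖y z‖ := by
    intro z hz
    have := (one_sub_bounds hr0 hr1 (hp1 z hz)).2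
    have h : 1 - r = t ^ 4 := by rw [hr]; ring
    rw [h] at this
    exact this
  have hys : ∀ z ∈ closedBall (0 : ℂ) 1, y z ∈ slitPlane := fun z hz =>
    slit_of_norm_lt (one_sub_bounds hr0 hr1 (hp1 z hz)).1
  have hy0 : ∀ z ∈ closedBall (0 : ℂ) 1, y z ≠ 0 := fun z hz => slitPlane_ne_zero (hys z hz)
  have hrhos : ∀ z ∈ closedBall (0 : ℂ) 1, 1 - (rho Λ : ℂ) * z ^ N ∈ slitPlane := fun z hz =>
    slit_of_norm_lt (norm_rho_mul hΛ N (by simpa using hz))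
  -- the new exponent
  set k₁ : ℂ → ℂ := fun z => k.eval z + Hf k Λ N z - 2 * Complex.log (1 - (rho Λ : ℂ) * z ^ N) -
    2 * Complex.log (y z) with hk₁
  have hk₁a : AnalyticOnNhd ℂ k₁ (closedBall 0 1) := by
    intro z hz
    have hk : AnalyticAt ℂ (fun z => k.eval z) z := k.differentiable.analyticAt z
    have hz' : ‖z‖ ≤ 1 := by simpa using hz
    have hH' := analytic_Hf k hΛ N hz'
    have h1 : AnalyticAt ℂ (fun z : ℂ => 1 - (rho Λ : ℂ) * z ^ N) z := by fun_prop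
    have h2 := h1.clog (hrhos z hz)
    have h3 := (hya z hz).clog (hys z hz)
    exact ((hk.add hH').sub (analyticAt_const.mul h2)).sub (analyticAt_const.mul h3)
  have hk₁e : ∀ z ∈ closedBall (0 : ℂ) 1, exp (k₁ z) = Ef k Λ N z / y z ^ 2 := by
    intro z hz
    have h1 := slitPlane_ne_zero (hrhos z hz)
    have h2 := hy0 z hz
    simp only [hk₁, Ef]
    rw [Complex.exp_sub, Complex.exp_sub, two_mul (Complex.log _), two_mul (Complex.log _),
      Complex.exp_add (Complex.log _), Complex.exp_add (Complex.log _), Complex.exp_log h1, Complex.exp_log h2, div_div, div_div]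
    congr 1
    ring
  -- the correction `U`
  have hUg : AnalyticOnNhd ℂ (fun z => exp (k.eval z) * ((y z ^ 2)⁻¹ - 1)) (closedBall 0 1) := by
    intro z hz
    have hk : AnalyticAt ℂ (fun z => k.eval z) z := k.differentiable.analyticAt z
    have h1 := hya z hz
    have h2 : y z ^ 2 ≠ 0 := pow_ne_zero _ (hy0 z hz)
    exact hk.cexp.mul (((h1.pow 2).inv h2).sub analyticAt_const)
  obtain ⟨U, hU0, -, hU⟩ := exists_prim' hUg
  set ξ₁ : ℂ → ℂ := fun z => ξ z + V z / y z + U z with hξ₁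
  have hexpK : ∀ z ∈ closedBall (0 : ℂ) 1, ‖exp (k.eval z)‖ ≤ Real.exp K := by
    intro z hz
    rw [Complex.norm_exp]
    exact Real.exp_le_exp.2 ((Complex.re_le_norm _).trans (hkK z hz))
  have hin : ∀ z : ℂ, ‖z‖ ≤ 1 - 4 / N → z ∈ closedBall (0 : ℂ) 1 := by
    intro z hz
    have : 0 < 4 / (N : ℝ) := by positivity
    simp only [mem_closedBall, dist_zero_right]
    linarith
  have hrp : ∀ z : ℂ, ‖z‖ ≤ 1 - 4 / N → ‖(r : ℂ) * p z‖ ≤ σ := by
    intro z hz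
    rw [norm_mul, Complex.norm_real, Real.norm_eq_abs, abs_of_pos hr0, hpn]
    have h1 := hVin z hz
    have h2 : ‖V z‖ / D ≤ σ := by
      rw [div_le_iff₀ hDpos]
      have hτ0 : 0 ≤ τ := (norm_nonneg _).trans h1
      have hσ0 : 0 ≤ σ := nonneg_of_mul_nonneg_left (hτ0.trans hστ) hκ
      exact h1.trans (hστ.trans (mul_le_mul_of_nonneg_left hDκ hσ0))
    have h3 : 0 ≤ ‖V z‖ / D := by positivity
    exact (mul_le_of_le_one_left h3 hr1.le).trans h2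
  have hUb : ∀ z : ℂ, ‖z‖ ≤ 1 → ‖U z‖ ≤ min ε 1 / 4 := by
    intro z hz
    have h4N : 4 / (N : ℝ) < 1 := by rw [div_lt_one hNpos]; exact hN4
    have h4N' : 0 < 4 / (N : ℝ) := by positivity
    have hσ0 : 0 ≤ σ := (norm_nonneg _).trans (hrp 0 (by rw [norm_zero]; linarith))
    have := two_zone hU0 hU (a := 1 - 4 / N) (B₁ := Real.exp K * (10 * σ))
      (B₂ := Real.exp K * (Λ + 1)) (by linarith) (by linarith) (by positivity) (by positivity)
      (fun z hz => by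
        rw [norm_mul]
        exact mul_le_mul (hexpK z (hin z hz)) (inv_sq_sub_one (hrp z hz) hσ) (norm_nonneg _)
          (Real.exp_pos _).le)
      (fun z hz => by
        have hz' : z ∈ closedBall (0 : ℂ) 1 := by simpa using hz
        rw [norm_mul]
        refine mul_le_mul (hexpK z hz') ?_ (norm_nonneg _) (Real.exp_pos _).le
        refine (norm_sub_le _ _).trans ?_
        rw [norm_one]
        gcongr
        rw [norm_inv, norm_pow]
        have h1 := hy1 z hz'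
        have h2 : (t ^ 4) ^ 2 ≤ ‖y z‖ ^ 2 := pow_le_pow_left₀ ht4p.le h1 2
        have h3 : Λ = ((t ^ 4) ^ 2)⁻¹ := by
          have h8 : (t ^ 4) ^ 2 = t ^ 8 := by ring
          rw [h8]
          exact eq_inv_of_mul_eq_one_left hΛt
        rw [h3]
        exact inv_anti₀ (by positivity) h2) z hz
    have h5 : (1 : ℝ) - (1 - 4 / N) = 4 / N := by ring
    rw [h5] at this
    linarith
  have hVy : ∀ z : ℂ, ‖z‖ ≤ 1 - 4 / N → ‖V z / y z‖ ≤ min ε 1 / 4 := by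
    intro z hz
    rw [norm_div, div_le_iff₀ (lt_of_lt_of_le ht4p (hy1 z (hin z hz)))]
    have h1 := hVin z hz
    have h2 := hy1 z (hin z hz)
    calc ‖V z‖ ≤ t ^ 4 * (min ε 1 / 4) := h1.trans hτ
      _ = min ε 1 / 4 * t ^ 4 := by ring
      _ ≤ _ := by gcongr
  have hdiff : ∀ z : ℂ, ‖z‖ ≤ 1 - 4 / N → ‖ξ₁ z - ξ z‖ ≤ min ε 1 / 2 := by
    intro z hz
    have h0 : ξ₁ z - ξ z = V z / y z + U z := by simp only [hξ₁]; ring
    rw [h0]
    have h1 := hVy z hz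
    have h2 := hUb z (by simpa using hin z hz)
    have := norm_add_le (V z / y z) (U z)
    linarith
  have hξ₁d : ∀ z ∈ closedBall (0 : ℂ) 1, HasDerivAt ξ₁ (exp (k₁ z)) z := by
    intro z hz
    have h1 := hV.deriv z hz
    have hD' : (D : ℂ) ≠ 0 := by exact_mod_cast hDpos.ne'
    have h2 : HasDerivAt y (-((r : ℂ) * (-(Ef k Λ N z - exp (k.eval z)) / D))) z := by
      have := ((h1.neg.div_const (D : ℂ)).const_mul (r : ℂ)).const_sub 1
      exact this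
    have h3 := h1.div h2 (hy0 z hz)
    have h4 := ((hξ z).add h3).add (hU z hz)
    have h5 : exp (k.eval z) + ((Ef k Λ N z - exp (k.eval z)) * y z -
        V z * (-((r : ℂ) * (-(Ef k Λ N z - exp (k.eval z)) / D)))) / y z ^ 2 +
        exp (k.eval z) * ((y z ^ 2)⁻¹ - 1) = exp (k₁ z) := by
      rw [hk₁e z hz]
      have h6 : y z = 1 + (r : ℂ) * V z / D := by simp only [hy, hp]; ring
      have h7 : (Ef k Λ N z - exp (k.eval z)) * y z -
        V z * (-((r : ℂ) * (-(Ef k Λ N z - exp (k.eval z)) / D))) =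
          Ef k Λ N z - exp (k.eval z) := by
        rw [h6]; field_simp; ring
      rw [h7]
      have := hy0 z hz
      field_simp
      ring
    rw [h5] at h4
    exact h4
  have hMöb : ∀ z, -(2 * ((D / 2 : ℝ) : ℂ) * p z / (1 - r * p z)) = V z / y z := by
    intro z
    have hD' : (D : ℂ) ≠ 0 := by exact_mod_cast hDpos.ne'
    simp only [hy, hp]
    push_cast
    field_simp
  have hNΛ : 1 < (N : ℝ) * Λ ^ 10 := by
    have : 1 ≤ Λ ^ 10 := one_le_pow₀ hΛ.le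
    calc (1 : ℝ) < N * 1 := by linarith
      _ ≤ N * Λ ^ 10 := by gcongr
  have hNΛ0 : 0 < (N : ℝ) * Λ ^ 10 := by positivity
  have h1R : 1 / ((N : ℝ) * Λ ^ 10) < 1 := by rw [div_lt_one hNΛ0]; exact hNΛ
  have h1R' : 0 < 1 / ((N : ℝ) * Λ ^ 10) := by positivity
  refine ⟨k₁, ξ₁, 1 - 1 / (N * Λ ^ 10), hk₁a, hξ₁d, by simp [hξ₁, hξ0, hV.zero, hU0], hR,
    by linarith, by linarith, ?_, ?_, ?_, ?_⟩
  · -- `k₁` close to `k`
    intro z hz
    have hz1 : ‖z‖ ≤ 1 - 4 / N := hz.trans hρN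
    obtain ⟨h1, h2⟩ := hH z hz
    have h3 : ‖-((rho Λ : ℂ) * z ^ N)‖ ≤ ‖z‖ ^ N := by
      rw [norm_neg, norm_mul, Complex.norm_real, Real.norm_eq_abs, abs_of_pos hrho0, norm_pow]
      have : 0 ≤ ‖z‖ ^ N := by positivity
      exact mul_le_of_le_one_left this hrho1.le
    have h4 : ‖z‖ ^ N ≤ 1 / 2 := h2.trans (min_le_left _ _)
    have h5 : ‖z‖ ^ N ≤ ε / 12 := h2.trans (min_le_right _ _)
    have h6 := Complex.norm_log_one_add_half_le_self (h3.trans h4)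
    have h7 : ‖-((r : ℂ) * p z)‖ ≤ σ := by rw [norm_neg]; exact hrp z hz1
    have h8 := Complex.norm_log_one_add_half_le_self (h7.trans hσ)
    rw [← sub_eq_add_neg] at h6 h8
    have h9 : k₁ z - k.eval z = Hf k Λ N z - 2 * Complex.log (1 - (rho Λ : ℂ) * z ^ N) -
      2 * Complex.log (1 - (r : ℂ) * p z) := by
      simp only [hk₁, hy]; ring
    rw [h9]
    have h10 := norm_sub_le (Hf k Λ N z - 2 * Complex.log (1 - (rho Λ : ℂ) * z ^ N))
      (2 * Complex.log (1 - (r : ℂ) * p z))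
    have h11 := norm_sub_le (Hf k Λ N z) (2 * Complex.log (1 - (rho Λ : ℂ) * z ^ N))
    rw [norm_mul, show ‖(2 : ℂ)‖ = 2 by simp] at h10 h11
    linarith
  · intro z hz
    have := hdiff z (hz.trans hρN)
    linarith
  · -- upper bound
    intro z hz
    by_cases hz1 : ‖z‖ ≤ 1 - 4 / N
    · refine le_max_of_le_left ?_
      have h1 := hdiff z hz1
      have h2 := (Complex.re_le_norm (ξ₁ z - ξ z)).trans h1
      rw [Complex.sub_re] at h2
      linarith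
    · refine le_max_of_le_right ?_
      push Not at hz1
      have hz' : z ∈ closedBall (0 : ℂ) 1 := by simpa using hz.le
      have h1 : 0 < 1 - ‖z‖ := by linarith
      have h2 : 1 - ‖z‖ ≤ 16 * κ * Λ ^ 2 / Real.exp Λ := by
        have h3 : 4 / (N : ℝ) ≤ 16 * κ * Λ ^ 2 / Real.exp Λ := by
          rw [div_le_div_iff₀ hNpos (Real.exp_pos _)]
          have := hN.lower
          linarith
        linarith
      have h3 : Real.log (1 - ‖z‖) ≤ Real.log (16 * κ * Λ ^ 2) - Λ := by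
        have := Real.log_le_log h1 h2
        rwa [Real.log_div (by positivity) (Real.exp_pos _).ne', Real.log_exp] at this
      have h4 : (V z / y z).re ≤ κ * Λ + κ * Λ * t ^ 4 + C := by
        have h5 := moebius_upper (δ := D / 2) (r := r) (by positivity) hr0 hr1 (hp1 z hz')
        rw [hMöb z] at h5
        refine h5.trans ?_
        rw [div_le_iff₀ (by linarith), hr]
        have h6 : 0 ≤ κ * Λ * (t ^ 4 * (1 - t ^ 4)) := by
          have : 0 ≤ 1 - t ^ 4 := by linarith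
          positivity
        have h7 : 0 ≤ C * (1 - t ^ 4) := by
          have : 0 ≤ 1 - t ^ 4 := by linarith
          positivity
        have h8 : (κ * Λ + κ * Λ * t ^ 4 + C) * (1 + (1 - t ^ 4)) =
          2 * κ * Λ + C + κ * Λ * (t ^ 4 * (1 - t ^ 4)) + C * (1 - t ^ 4) := by ring
        rw [h8]
        linarith
      have h5 := hUb z hz.le
      have h6 := (Complex.re_le_norm (U z)).trans h5
      have h7 := (Complex.re_le_norm (ξ z)).trans (hξK z hz')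
      have h8 : (ξ₁ z).re = (ξ z).re + (V z / y z).re + (U z).re := by
        simp only [hξ₁, Complex.add_re]
      rw [h8]
      have h9 : (κ + ε) * (Λ - Real.log (16 * κ * Λ ^ 2)) ≤ (κ + ε) * (-Real.log (1 - ‖z‖)) :=
        mul_le_mul_of_nonneg_left (by linarith) (by positivity)
      linarith
  · -- lower bound
    rw [circleAverage_eq_circleAverage_zero_one]
    set R : ℝ := 1 - 1 / ((N : ℝ) * Λ ^ 10) with hRdef
    have hR0 : 0 < R := by rw [hRdef]; linarith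
    have hR1 : R < 1 := by rw [hRdef]; linarith
    have hRz : ∀ z : ℂ, ‖z‖ = 1 → (R : ℂ) * z ∈ closedBall (0 : ℂ) 1 := by
      intro z hz
      simp only [mem_closedBall, dist_zero_right, norm_mul, Complex.norm_real, Real.norm_eq_abs,
        abs_of_pos hR0, hz]
      linarith
    have hcont : ContinuousOn (fun z : ℂ => (ξ₁ ((R : ℂ) * z + 0)).re) (sphere 0 1) := by
      intro z hz
      have hz' : ‖z‖ = 1 := by simpa using hz
      have h1 : ContinuousAt ξ₁ ((R : ℂ) * z + 0) := by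
        rw [add_zero]
        exact (hξ₁d _ (hRz z hz')).continuousAt
      have h2 : ContinuousAt (fun z : ℂ => (R : ℂ) * z + 0) z := by fun_prop
      have h3 : ContinuousAt (fun z : ℂ => ξ₁ ((R : ℂ) * z + 0)) z :=
        ContinuousAt.comp (f := fun z : ℂ => (R : ℂ) * z + 0) h1 h2
      exact (Complex.continuous_re.continuousAt.comp h3).continuousWithinAt
    have hderb : ∀ z ∈ closedBall (0 : ℂ) 1, ‖exp (k₁ z)‖ ≤ Real.exp Λ * Λ ^ 7 := by
      intro z hz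
      rw [hk₁e z hz, norm_div, norm_pow]
      have h1 := hE z hz
      have h2 := hy1 z hz
      have h3 : (t ^ 4) ^ 2 ≤ ‖y z‖ ^ 2 := pow_le_pow_left₀ ht4p.le h2 2
      rw [div_le_iff₀ (lt_of_lt_of_le (by positivity) h3)]
      have h4 : Real.exp Λ * Λ ^ 6 = Real.exp Λ * Λ ^ 7 * (t ^ 4) ^ 2 := by
        have : (t ^ 4) ^ 2 = t ^ 8 := by ring
        rw [this]
        calc Real.exp Λ * Λ ^ 6 = Real.exp Λ * Λ ^ 6 * (Λ * t ^ 8) := by rw [hΛt, mul_one]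
          _ = _ := by ring
      calc ‖Ef k Λ N z‖ ≤ Real.exp Λ * Λ ^ 7 * (t ^ 4) ^ 2 := by rw [← h4]; exact h1
        _ ≤ _ := by gcongr
    have hshift : ∀ z : ℂ, ‖z‖ = 1 → ‖ξ₁ z - ξ₁ ((R : ℂ) * z)‖ ≤ 1 := by
      intro z hz
      have h3 := (convex_closedBall (0 : ℂ) 1).norm_image_sub_le_of_norm_hasDerivWithin_le
        (f := ξ₁) (f' := fun z => exp (k₁ z)) (C := Real.exp Λ * Λ ^ 7) (x := (R : ℂ) * z) (y := z)
        (fun x hx => (hξ₁d x hx).hasDerivWithinAt)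
        (fun x hx => hderb x hx) (hRz z hz) (by simp [hz])
      refine h3.trans ?_
      have h4 : z - (R : ℂ) * z = ((1 / ((N : ℝ) * Λ ^ 10) : ℝ) : ℂ) * z := by
        rw [hRdef]; push_cast; ring
      rw [h4, norm_mul, hz, mul_one, Complex.norm_real, Real.norm_eq_abs, abs_of_pos h1R',
        mul_one_div, div_le_one hNΛ0]
      have h5 := hN.lower
      calc Real.exp Λ * Λ ^ 7 ≤ (4 * κ * Λ ^ 2 * N) * Λ ^ 7 := by gcongr
        _ = (4 * κ) * (N * Λ ^ 9) := by ring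
        _ ≤ Λ * (N * Λ ^ 9) := by gcongr
        _ = N * Λ ^ 10 := by ring
    set A : ℝ := κ * Λ * (1 - 4 * t ^ 2) - K - 2 with hAdef
    have hml := mean_lower (u := fun z : ℂ => (ξ₁ ((R : ℂ) * z + 0)).re)
      (h₁ := fun z : ℂ => (rho Λ : ℂ) * z ^ N) (h₂ := fun z => (r : ℂ) * p z) (η₁ := 2 * t ^ 4)
      (η₂ := t) (A := A) hcont
      (fun z _ => by fun_prop)
      (fun z hz => norm_rho_mul hΛ N (by simpa using hz))
      (by simp [hN0])
      (fun z hz => by have := hpa z hz; fun_prop)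
      (fun z hz => (one_sub_bounds hr0 hr1 (hp1 z hz)).1)
      (by simp [hp0]) (by positivity) (by linarith) ht0 (by linarith) hA0
      (fun z hz h1 h2 => by
        have hz' : z ∈ closedBall (0 : ℂ) 1 := by simp [hz]
        rw [add_zero]
        have h3 := hVlow z hz (by rw [htr]; exact h1)
        have h4 : 1 - 2 * t ^ 4 ≤ r * ‖p z‖ := by
          have h5 : 1 - t ^ 4 ≤ ‖p z‖ := by
            rw [hpn, le_div_iff₀ hDpos]
            have h6 : C ≤ κ * Λ * t ^ 4 := by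
              have h7 : C * t ^ 4 * (Λ * t ^ 4) ≤ κ * (Λ * t ^ 4) :=
                mul_le_mul_of_nonneg_right hCt (by positivity)
              have h8 : C * t ^ 4 * (Λ * t ^ 4) = C * (Λ * t ^ 8) := by ring
              rw [h8, hΛt] at h7
              linarith
            have h9 : 0 ≤ C * t ^ 4 := by positivity
            have h10 : (1 - t ^ 4) * D = 2 * κ * Λ + C - 2 * (κ * Λ * t ^ 4) - C * t ^ 4 := by
              rw [hD]; ring
            rw [h10]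
            linarith
          calc 1 - 2 * t ^ 4 ≤ 1 - 2 * t ^ 4 + t ^ 4 * t ^ 4 := by
                have := mul_pos ht4p ht4p
                linarith
            _ = (1 - t ^ 4) * (1 - t ^ 4) := by ring
            _ ≤ r * ‖p z‖ := by rw [hr]; exact mul_le_mul_of_nonneg_left h5 (by linarith)
        have h5 := moebius_lower (δ := D / 2) (r := r) (m := 2 * t ^ 4) (η := t) (by positivity) hr0 hr1
          (hp1 z hz') h4 (by positivity) ht0 h2 ht2m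
        rw [hMöb z] at h5
        have h6 := (abs_le.1 ((Complex.abs_re_le_norm (U z)).trans (hUb z hz.le))).1
        have h7 := (abs_le.1 ((Complex.abs_re_le_norm (ξ z)).trans (hξK z hz'))).1
        have h8 : (ξ₁ z).re = (ξ z).re + (V z / y z).re + (U z).re := by
          simp only [hξ₁, Complex.add_re]
        have h9 := (abs_le.1 ((Complex.abs_re_le_norm (ξ₁ z - ξ₁ ((R : ℂ) * z))).trans
          (hshift z hz))).2
        rw [Complex.sub_re] at h9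
        have h10 : κ * Λ * (1 - 4 * t ^ 2) ≤ D / 2 * (1 - 2 * (2 * t ^ 4) / t ^ 2) := by
          have h11 : 2 * (2 * t ^ 4) / t ^ 2 = 4 * t ^ 2 := by field_simp; ring
          rw [h11]
          have h12 : 0 ≤ 1 - 4 * t ^ 2 := by linarith
          apply mul_le_mul_of_nonneg_right _ h12
          rw [hD]; linarith
        rw [hAdef]
        linarith)
    refine le_trans ?_ hml
    refine le_trans ?_ hA
    have h1 : -Real.log (1 - R) ≤ Λ + 10 * Real.log Λ := by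
      have h2 : 1 - R = ((N : ℝ) * Λ ^ 10)⁻¹ := by rw [hRdef]; ring
      rw [h2, Real.log_inv, neg_neg, Real.log_mul hNpos.ne' (by positivity), Real.log_pow]
      have h3 : Real.log N ≤ Λ := by
        have := Real.log_le_log hNpos hNup
        rwa [Real.log_exp] at this
      push_cast
      linarith
    have h2 : 0 ≤ -Real.log (1 - R) := by
      have : Real.log (1 - R) ≤ 0 := Real.log_nonpos (by linarith) (by linarith)
      linarith
    calc (κ - ε) * (-Real.log (1 - R)) ≤ max (κ - ε) 0 * (-Real.log (1 - R)) :=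
          mul_le_mul_of_nonneg_right (le_max_left _ _) h2
      _ ≤ _ := mul_le_mul_of_nonneg_left h1 (le_max_right _ _)

lemma tend_pow_exp (n : ℕ) : Tendsto (fun Λ : ℝ => Λ ^ n * Real.exp (-(Λ / 6))) atTop (𝓝 0) := by
  have h1 := Real.tendsto_pow_mul_exp_neg_atTop_nhds_zero n
  have h2 : Tendsto (fun Λ : ℝ => Λ / 6) atTop atTop := tendsto_id.atTop_div_const (by norm_num)
  have h3 := (h1.comp h2).const_mul ((6 : ℝ) ^ n)
  rw [mul_zero] at h3
  refine h3.congr fun Λ => ?_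
  simp only [Function.comp_apply]
  rw [div_pow]
  field_simp

lemma ev_pow_exp (n : ℕ) {c : ℝ} (hc : 0 < c) :
    ∀ᶠ Λ : ℝ in atTop, Λ ^ n * Real.exp (-(Λ / 6)) ≤ c :=
  (tend_pow_exp n).eventually_le_const hc

lemma tend_t : Tendsto (fun Λ : ℝ => Λ ^ (-(1 / 8) : ℝ)) atTop (𝓝 0) :=
  tendsto_rpow_neg_atTop (by norm_num)

lemma tend_log_div : Tendsto (fun Λ : ℝ => Real.log Λ / Λ) atTop (𝓝 0) :=
  Real.isLittleO_log_id_atTop.tendsto_div_nhds_zero

lemma tend_inv (c : ℝ) : Tendsto (fun Λ : ℝ => c / Λ) atTop (𝓝 0) :=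
  tendsto_const_nhds.div_atTop tendsto_id

lemma ev_out {κ ε : ℝ} (hκ : 0 < κ) (hε : 0 < ε) (K C : ℝ) :
    ∀ᶠ Λ : ℝ in atTop, K + κ * Λ + κ * Λ * (Λ ^ (-(1 / 8) : ℝ)) ^ 4 + C + 1 ≤
      (κ + ε) * (Λ - Real.log (16 * κ * Λ ^ 2)) := by
  have h1 : Tendsto (fun Λ : ℝ => (κ + ε) * (1 - (Real.log (16 * κ) / Λ + 2 * (Real.log Λ / Λ))) -
      (κ + κ * (Λ ^ (-(1 / 8) : ℝ)) ^ 4 + (K + C + 1) / Λ)) atTop
      (𝓝 ((κ + ε) * (1 - (0 + 2 * 0)) - (κ + κ * 0 ^ 4 + 0))) :=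
    ((((tend_inv _).add (tend_log_div.const_mul 2)).const_sub 1).const_mul _).sub
      (((((tend_t.pow 4).const_mul κ).const_add κ)).add (tend_inv _))
  have h2 : 0 < (κ + ε) * (1 - (0 + 2 * 0)) - (κ + κ * 0 ^ 4 + 0) := by nlinarith
  filter_upwards [h1.eventually_const_lt h2, eventually_gt_atTop 0] with Λ h3 hΛ
  have h4 : Real.log (16 * κ * Λ ^ 2) = Real.log (16 * κ) + 2 * Real.log Λ := by
    rw [Real.log_mul (by positivity) (by positivity), Real.log_pow]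
    norm_num
  rw [h4]
  have h5 := mul_pos hΛ h3
  have h6 : Λ * ((κ + ε) * (1 - (Real.log (16 * κ) / Λ + 2 * (Real.log Λ / Λ))) -
      (κ + κ * (Λ ^ (-(1 / 8) : ℝ)) ^ 4 + (K + C + 1) / Λ)) =
      (κ + ε) * (Λ - (Real.log (16 * κ) + 2 * Real.log Λ)) -
      (κ * Λ + κ * Λ * (Λ ^ (-(1 / 8) : ℝ)) ^ 4 + (K + C + 1)) := by
    field_simp
  rw [h6] at h5
  linarith

lemma ev_A {κ ε : ℝ} (hκ : 0 < κ) (hε : 0 < ε) (K : ℝ) :
    ∀ᶠ Λ : ℝ in atTop, 0 ≤ κ * Λ * (1 - 4 * (Λ ^ (-(1 / 8) : ℝ)) ^ 2) - K - 2 ∧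
      max (κ - ε) 0 * (Λ + 10 * Real.log Λ) ≤ (κ * Λ * (1 - 4 * (Λ ^ (-(1 / 8) : ℝ)) ^ 2) - K - 2) *
      (1 - Real.log 2 / Real.log (2 / (2 * (Λ ^ (-(1 / 8) : ℝ)) ^ 4)) -
        Real.log 2 / Real.log (2 / (Λ ^ (-(1 / 8) : ℝ)))) := by
  have ha : Tendsto (fun Λ : ℝ => κ * (1 - 4 * (Λ ^ (-(1 / 8) : ℝ)) ^ 2) - (K + 2) / Λ) atTop
      (𝓝 (κ * (1 - 4 * 0 ^ 2) - 0)) :=
    ((((tend_t.pow 2).const_mul 4).const_sub 1).const_mul κ).sub (tend_inv _)
  have hb1 : Tendsto (fun Λ : ℝ => Real.log 2 / ((1 / 2) * Real.log Λ)) atTop (𝓝 0) :=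
    tendsto_const_nhds.div_atTop (Real.tendsto_log_atTop.const_mul_atTop (by norm_num))
  have hb2 : Tendsto (fun Λ : ℝ => Real.log 2 / (Real.log 2 + (1 / 8) * Real.log Λ)) atTop (𝓝 0) :=
    tendsto_const_nhds.div_atTop (tendsto_atTop_add_const_left _ _
      (Real.tendsto_log_atTop.const_mul_atTop (by norm_num)))
  have hab := ha.mul ((hb1.const_sub 1).sub hb2)
  have hc : Tendsto (fun Λ : ℝ => max (κ - ε) 0 * (1 + 10 * (Real.log Λ / Λ))) atTop
      (𝓝 (max (κ - ε) 0 * (1 + 10 * 0))) :=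
    ((tend_log_div.const_mul 10).const_add 1).const_mul _
  have h1 : max (κ - ε) 0 * (1 + 10 * 0) < (κ * (1 - 4 * 0 ^ 2) - 0) * (1 - 0 - 0) := by
    have : max (κ - ε) 0 < κ := max_lt (by linarith) hκ
    linarith
  have h2 : 0 < κ * (1 - 4 * 0 ^ 2) - 0 := by linarith
  filter_upwards [hc.eventually_lt hab h1, ha.eventually_const_lt h2, eventually_gt_atTop 0]
    with Λ h3 h4 hΛ
  have ht : Real.log (Λ ^ (-(1 / 8) : ℝ)) = -(1 / 8) * Real.log Λ := Real.log_rpow hΛ _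
  have htp : 0 < Λ ^ (-(1 / 8) : ℝ) := Real.rpow_pos_of_pos hΛ _
  have h5 : Real.log (2 / (2 * (Λ ^ (-(1 / 8) : ℝ)) ^ 4)) = (1 / 2) * Real.log Λ := by
    rw [Real.log_div two_ne_zero (by positivity), Real.log_mul two_ne_zero (by positivity),
      Real.log_pow, ht]
    push_cast
    ring
  have h6 : Real.log (2 / (Λ ^ (-(1 / 8) : ℝ))) = Real.log 2 + (1 / 8) * Real.log Λ := by
    rw [Real.log_div two_ne_zero (by positivity), ht]
    ring
  rw [h5, h6]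
  have h7 : κ * Λ * (1 - 4 * (Λ ^ (-(1 / 8) : ℝ)) ^ 2) - K - 2 =
      Λ * (κ * (1 - 4 * (Λ ^ (-(1 / 8) : ℝ)) ^ 2) - (K + 2) / Λ) := by
    field_simp
    ring
  rw [h7]
  refine ⟨by positivity, ?_⟩
  have h8 : max (κ - ε) 0 * (Λ + 10 * Real.log Λ) =
      Λ * (max (κ - ε) 0 * (1 + 10 * (Real.log Λ / Λ))) := by
    field_simp
  rw [h8, mul_assoc]
  exact mul_le_mul_of_nonneg_left h3.le hΛ.le

end Core

open Pool.Agent.Helper61.Lac.Core in
theorem core_of (κ : ℝ) (hκ : 0 < κ) (k : ℂ[X])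
    (hup : ∃ C : ℝ, 0 ≤ C ∧ ∀ᶠ Λ : ℝ in atTop, ∀ N : ℕ, NOK κ Λ N → ∀ V : ℂ → ℂ, IsV k Λ N V →
      ∀ z ∈ closedBall (0 : ℂ) 1, ‖V z‖ ≤ 2 * κ * Λ + C)
    (hlow : ∃ C : ℝ, 0 ≤ C ∧ ∀ᶠ Λ : ℝ in atTop, ∀ N : ℕ, NOK κ Λ N → ∀ V : ℂ → ℂ, IsV k Λ N V →
      ∀ z : ℂ, ‖z‖ = 1 → 2 * Λ ^ (-(1 / 2) : ℝ) ≤ ‖1 - (rho Λ : ℂ) * z ^ N‖ →
        2 * κ * Λ - C ≤ ‖V z‖) (ξ : ℂ → ℂ)
    (hξ : ∀ z, HasDerivAt ξ (exp (k.eval z)) z) (hξ0 : ξ 0 = 0) (ε : ℝ) (hε : 0 < ε) (ρ : ℝ)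
    (hρ : ρ < 1) :
    ∃ (k₁ ξ₁ : ℂ → ℂ) (R : ℝ), AnalyticOnNhd ℂ k₁ (closedBall 0 1) ∧
      (∀ z ∈ closedBall (0 : ℂ) 1, HasDerivAt ξ₁ (exp (k₁ z)) z) ∧ ξ₁ 0 = 0 ∧ ρ < R ∧ 0 < R ∧ R < 1 ∧
      (∀ z, ‖z‖ ≤ ρ → ‖k₁ z - k.eval z‖ ≤ ε) ∧
      (∀ z, ‖z‖ ≤ ρ → ‖ξ₁ z - ξ z‖ ≤ ε) ∧
      (∀ z, ‖z‖ < 1 → (ξ₁ z).re ≤ max ((ξ z).re + ε) ((κ + ε) * (-Real.log (1 - ‖z‖)))) ∧
      (κ - ε) * (-Real.log (1 - R)) ≤ circleAverage (fun z => max (ξ₁ z).re 0) 0 R := by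
  obtain ⟨K₁, hK₁⟩ := (isCompact_closedBall (0 : ℂ) 1).exists_bound_of_continuousOn
    (f := fun z => k.eval z) k.continuous.continuousOn
  obtain ⟨K₂, hK₂⟩ := (isCompact_closedBall (0 : ℂ) 1).exists_bound_of_continuousOn
    (f := ξ) (fun z _ => (hξ z).continuousAt.continuousWithinAt)
  obtain ⟨C₁, hC₁, hup⟩ := hup
  obtain ⟨C₂, hC₂, hlow⟩ := hlow
  set K : ℝ := max (max K₁ K₂) 0 with hK
  set C : ℝ := C₁ + C₂ with hC
  set c : ℝ := min (min (1 / 2) (ε / 12)) (ε / 4) with hc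
  have hc0 : 0 < c := by positivity
  have hm0 : 0 < min ε 1 := lt_min hε one_pos
  have hX : ∀ᶠ Λ : ℝ in atTop, ∀ N : ℕ, NOK κ Λ N → ∀ V : ℂ → ℂ, IsV k Λ N V →
      AnalyticOnNhd ℂ V (closedBall 0 1) →
      Data κ k ξ ε ρ K C Λ (Λ ^ (-(1 / 8) : ℝ)) (Real.exp (-(Λ / 6)))
        (Real.exp (-(Λ / 6)) / κ) N V := by
    filter_upwards [hup, hlow, inside κ hκ k, Hf_small κ hκ k ρ hρ c hc0, Ef_upper κ hκ k,
      ev_out hκ hε K C, ev_A hκ hε K, tend_t.eventually_le_const (show (0 : ℝ) < 1 / 2 by norm_num),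
      ev_pow_exp 2 (show (0 : ℝ) < 1 / (4 * κ) by positivity),
      ev_pow_exp 1 (show (0 : ℝ) < min ε 1 / 4 by positivity),
      ev_pow_exp 0 (show (0 : ℝ) < κ * min (min (1 / 2) (ε / 12)) (min ε 1 / 80 / Real.exp K) by
        positivity),
      ev_pow_exp 1 (show (0 : ℝ) < min ε 1 / 64 / Real.exp K by positivity),
      ev_pow_exp 0 (show (0 : ℝ) < min (1 / 5) ((1 - ρ) / 4) by
        have : 0 < 1 - ρ := by linarith
        positivity),
      (tend_t.pow 4).eventually_le_const (show (0 : ℝ) ^ 4 < κ / (C + 1) by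
        rw [zero_pow (by norm_num)]; positivity),
      eventually_ge_atTop (max (max 2 (4 * κ)) (1 / κ))] with
      Λ h1 h2 h3 h4 h5 h6 h7 h8 h9 h10 h11 h12 h13 h14 h15 N hN V hV hVa
    have hΛ2 : 2 ≤ Λ := (le_max_left _ _).trans ((le_max_left _ _).trans h15)
    have hΛκ : 4 * κ ≤ Λ := (le_max_right _ _).trans ((le_max_left _ _).trans h15)
    have hΛκ' : 1 / κ ≤ Λ := (le_max_right _ _).trans h15
    have hΛ0 : 0 < Λ := by linarith
    set t : ℝ := Λ ^ (-(1 / 8) : ℝ) with ht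
    have ht0 : 0 < t := Real.rpow_pos_of_pos hΛ0 _
    have ht8 : Λ * t ^ 8 = 1 := by
      have : t ^ 8 = Λ⁻¹ := by
        rw [ht, ← Real.rpow_natCast, ← Real.rpow_mul hΛ0.le, ← Real.rpow_neg_one]
        norm_num
      rw [this]
      exact mul_inv_cancel₀ hΛ0.ne'
    have ht4 : Λ ^ (-(1 / 2) : ℝ) = t ^ 4 := by
      rw [ht, ← Real.rpow_natCast, ← Real.rpow_mul hΛ0.le]
      norm_num
    set E : ℝ := Real.exp (-(Λ / 6)) with hE
    have hE0 : 0 < E := Real.exp_pos _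
    have hE1 : E < 1 := by
      rw [hE, Real.exp_lt_one_iff]
      linarith
    -- size of `N`
    have hexp : Real.exp Λ * E ^ 6 = 1 := by
      rw [hE, ← Real.exp_nat_mul, ← Real.exp_add]
      norm_num
      ring
    have hexp2 : Real.exp (Λ / 2) * E ^ 3 = 1 := by
      rw [hE, ← Real.exp_nat_mul, ← Real.exp_add]
      norm_num
      ring
    have hexp3 : Real.exp (Λ / 3) * E ^ 2 = 1 := by
      rw [hE, ← Real.exp_nat_mul, ← Real.exp_add]
      norm_num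
      ring
    rw [pow_one] at h10 h12
    rw [pow_zero, one_mul] at h11 h13
    have h9' : 4 * κ * Λ ^ 2 * E ≤ 1 := by
      rw [le_div_iff₀ (by positivity)] at h9
      linarith
    have hNlow : Real.exp (Λ / 2) ≤ N := by
      have hl := hN.lower
      have h20 : Real.exp Λ * E ≤ N := by
        calc Real.exp Λ * E ≤ (4 * κ * Λ ^ 2 * N) * E := by gcongr
          _ = (4 * κ * Λ ^ 2 * E) * N := by ring
          _ ≤ 1 * N := by gcongr
          _ = N := one_mul _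
      have h21 : Real.exp (Λ / 2) ≤ Real.exp Λ * E := by
        rw [hE, ← Real.exp_add]
        exact Real.exp_le_exp.2 (by linarith)
      exact h21.trans h20
    have hNpos : (0 : ℝ) < N := lt_of_lt_of_le (Real.exp_pos _) hNlow
    have hNinv : 1 / (N : ℝ) ≤ E ^ 3 := by
      rw [div_le_iff₀ hNpos, ← hexp2]
      have : 0 < E ^ 3 := by positivity
      rw [mul_comm]
      exact mul_le_mul_of_nonneg_left hNlow this.le
    have hE3 : E ^ 3 ≤ E := by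
      have h22 : E ^ 2 ≤ 1 := pow_le_one₀ hE0.le hE1.le
      calc E ^ 3 = E ^ 2 * E := by ring
        _ ≤ 1 * E := by gcongr
        _ = E := one_mul E
    have hNinv' : 1 / (N : ℝ) ≤ E := hNinv.trans hE3
    have h4N : 4 / (N : ℝ) = 4 * (1 / N) := by ring
    have h13a : E ≤ 1 / 5 := h13.trans (min_le_left _ _)
    have h13b : E ≤ (1 - ρ) / 4 := h13.trans (min_le_right _ _)
    have h11' : E / κ ≤ min (min (1 / 2) (ε / 12)) (min ε 1 / 80 / Real.exp K) := by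
      rw [div_le_iff₀ hκ]
      linarith
    refine
      { hκ := hκ, hξ := hξ, hξ0 := hξ0, hε := hε, hρ := hρ
        hK := le_max_right _ _
        hkK := fun z hz => (hK₁ z hz).trans ((le_max_left _ _).trans (le_max_left _ _))
        hξK := fun z hz => (hK₂ z hz).trans ((le_max_right _ _).trans (le_max_left _ _))
        hC := by positivity
        hΛ := by linarith
        hN := hN, hV := hV, hVa := hVa, ht0 := ht0, ht1 := h8, hΛt := ht8, htr := ht4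
        hNlow := hNlow
        hNup := ?_, hN4 := ?_, hρN := ?_, hVin := ?_, hVup := ?_, hVlow := ?_
        hE := h5 N hN, hH := ?_, hτ := ?_, hστ := ?_, hσ := ?_, hσε := ?_, hσK := ?_, hBN := ?_
        hout := h6, hCt := ?_, h4κ := hΛκ, hR := ?_, hA0 := h7.1, hA := h7.2 }
    · -- N ≤ exp Λ
      have hu := hN.upper
      have h20 : 2 ≤ 4 * κ * Λ ^ 2 := by
        rw [div_le_iff₀ hκ] at hΛκ'
        calc (2 : ℝ) ≤ 4 * 1 * 2 := by norm_num
          _ ≤ 4 * (Λ * κ) * Λ := by gcongr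
          _ = 4 * κ * Λ ^ 2 := by ring
      have h21 : 2 ≤ Real.exp Λ := by
        have := Real.add_one_le_exp Λ
        linarith
      have h22 : 1 ≤ (N : ℝ) := by
        have : (N : ℝ) ≠ 0 := hNpos.ne'
        have h23 : N ≠ 0 := by exact_mod_cast this
        exact_mod_cast Nat.one_le_iff_ne_zero.2 h23
      have h24 : 2 * ((N : ℝ) - 1) ≤ 4 * κ * Λ ^ 2 * (N - 1) :=
        mul_le_mul_of_nonneg_right h20 (by linarith)
      linarith
    · -- 4 < N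
      have h20 : 1 ≤ E * N := by
        rwa [div_le_iff₀ hNpos] at hNinv'
      have h21 : E * N ≤ 1 / 5 * N := mul_le_mul_of_nonneg_right h13a hNpos.le
      linarith
    · rw [h4N]; linarith
    · intro z hz
      have h20 := h3 N hN V hV z hz
      refine h20.trans ?_
      have h21 : ‖z‖ ^ (N - k.natDegree) ≤ 1 := by
        apply pow_le_one₀ (norm_nonneg _)
        have : 0 < 4 / (N : ℝ) := by positivity
        linarith
      calc Real.exp (Λ / 3) / N * ‖z‖ ^ (N - k.natDegree) ≤ Real.exp (Λ / 3) / N * 1 := by gcongr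
        _ = Real.exp (Λ / 3) * (1 / N) := by ring
        _ ≤ Real.exp (Λ / 3) * E ^ 3 := by gcongr
        _ = (Real.exp (Λ / 3) * E ^ 2) * E := by ring
        _ = E := by rw [hexp3, one_mul]
    · intro z hz
      have := h1 N hN V hV z hz
      linarith
    · intro z hz hz'
      have := h2 N hN V hV z hz hz'
      linarith
    · intro z hz
      obtain ⟨h20, h21⟩ := h4 N hN z hz
      exact ⟨h20.trans (min_le_right _ _), h21.trans (min_le_left _ _)⟩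
    · -- τ ≤ t ^ 4 * ..
      have h20 : 1 ≤ Λ * t ^ 4 := by
        rw [← ht8]
        have : t ^ 8 ≤ t ^ 4 := pow_le_pow_of_le_one ht0.le (by linarith) (by norm_num)
        gcongr
      calc E = 1 * E := (one_mul _).symm
        _ ≤ (Λ * t ^ 4) * E := by gcongr
        _ = t ^ 4 * (Λ * E) := by ring
        _ ≤ t ^ 4 * (min ε 1 / 4) := by gcongr
    · rw [div_mul_cancel₀ _ hκ.ne']
    · exact h11'.trans ((min_le_left _ _).trans (min_le_left _ _))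
    · have := h11'.trans ((min_le_left _ _).trans (min_le_right _ _))
      linarith
    · have h20 := h11'.trans (min_le_right _ _)
      rw [le_div_iff₀ (Real.exp_pos _)] at h20
      linarith
    · rw [h4N]
      rw [le_div_iff₀ (Real.exp_pos _)] at h12
      calc Real.exp K * (Λ + 1) * (4 * (1 / N)) ≤ Real.exp K * (Λ + Λ) * (4 * E) := by
            gcongr
            linarith
        _ = 8 * (Λ * E * Real.exp K) := by ring
        _ ≤ 8 * (min ε 1 / 64) := by gcongr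
        _ = min ε 1 / 8 := by ring
    · rw [le_div_iff₀ (by positivity)] at h14
      have : 0 < t ^ 4 := by positivity
      linarith
    · have h20 : 1 / ((N : ℝ) * Λ ^ 10) ≤ 1 / N := by
        apply one_div_le_one_div_of_le hNpos
        have : 1 ≤ Λ ^ 10 := one_le_pow₀ (by linarith)
        calc (N : ℝ) = N * 1 := (mul_one _).symm
          _ ≤ N * Λ ^ 10 := by gcongr
      linarith
  obtain ⟨Λ, hΛX, hΛ⟩ := (hX.and (eventually_gt_atTop 1)).exists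
  obtain ⟨N, hN⟩ := exists_NOK hκ (by linarith : 0 < Λ)
  have hg : AnalyticOnNhd ℂ (fun z => Ef k Λ N z - exp (k.eval z)) (closedBall 0 1) := by
    intro z hz
    have hk : AnalyticAt ℂ (fun z => k.eval z) z := k.differentiable.analyticAt z
    exact (analytic_Ef k hΛ N (by simpa using hz)).sub hk.cexp
  obtain ⟨V, hV0, hVa, hV⟩ := exists_prim' hg
  exact core_fixed (hΛX N hN V ⟨hV0, hV⟩ hVa)

end Pool.Agent.Helper61.Lac
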