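import Pool.Agent.Helper61.Lac.LC6
import Pool.Agent.Helper61.Lac.LC8a

/-!
# LC-8: one step with an analytic exponent, final form
-/

set_option autoImplicit false

open Filter Topology Metric Complex Polynomial Real
open scoped ComplexConjugate

namespace Pool.Agent.Helper61.Lac

theorem core (κ : ℝ) (hκ : 0 < κ) (k : ℂ[X]) (ξ : ℂ → ℂ)
    (hξ : ∀ z, HasDerivAt ξ (exp (k.eval z)) z) (hξ0 : ξ 0 = 0) (ε : ℝ) (hε : 0 < ε) (ρ : ℝ)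
    (hρ : ρ < 1) :
    ∃ (k₁ ξ₁ : ℂ → ℂ) (R : ℝ), AnalyticOnNhd ℂ k₁ (closedBall 0 1) ∧
      (∀ z ∈ closedBall (0 : ℂ) 1, HasDerivAt ξ₁ (exp (k₁ z)) z) ∧ ξ₁ 0 = 0 ∧ ρ < R ∧ 0 < R ∧ R < 1 ∧
      (∀ z, ‖z‖ ≤ ρ → ‖k₁ z - k.eval z‖ ≤ ε) ∧
      (∀ z, ‖z‖ ≤ ρ → ‖ξ₁ z - ξ z‖ ≤ ε) ∧
      (∀ z, ‖z‖ < 1 → (ξ₁ z).re ≤ max ((ξ z).re + ε) ((κ + ε) * (-Real.log (1 - ‖z‖)))) ∧
      (κ - ε) * (-Real.log (1 - R)) ≤ circleAverage (fun z => max (ξ₁ z).re 0) 0 R :=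
  core_of κ hκ k (V_upper κ hκ k) (V_lower κ hκ k) ξ hξ hξ0 ε hε ρ hρ

end Pool.Agent.Helper61.Lac
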