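import Mathlib

/-!
# Lacunary construction (MP_78803a_an, l = 1): common definitions

`k` is a polynomial, `d` its degree, `N` a large natural number, `Λ` a large real number.
On the unit circle `refl k z = z ^ d * conj (k z)`, so that
`Jf k Λ N z = z ^ N * (Λ - Re k(z))` for `|z| = 1`.
-/

set_option autoImplicit false

open Filter Topology Metric Complex Polynomial
open scoped ComplexConjugate

namespace Pool.Agent.Helper61.Lac

/-- the reflected polynomial -/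
noncomputable def refl (k : ℂ[X]) : ℂ[X] := (k.map (starRingEnd ℂ)).reverse

lemma refl_eval (k : ℂ[X]) {z : ℂ} (hz : ‖z‖ = 1) :
    (refl k).eval z = z ^ k.natDegree * conj (k.eval z) := by
  have hz0 : z ≠ 0 := by
    rintro rfl
    simp at hz
  have hinv : z⁻¹ = conj z := by
    rw [Complex.inv_def, Complex.normSq_eq_norm_sq, hz]
    simp
  have : Invertible z⁻¹ := invertibleOfNonzero (inv_ne_zero hz0)
  have h1 := eval₂_reverse_mul_pow (RingHom.id ℂ) z⁻¹ (k.map (starRingEnd ℂ))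
  have h2 : (⅟ z⁻¹ : ℂ) = z := by
    rw [invOf_eq_inv, inv_inv]
  have h3 : (k.map (starRingEnd ℂ)).natDegree = k.natDegree :=
    natDegree_map (starRingEnd ℂ)
  have h4 : eval z⁻¹ (k.map (starRingEnd ℂ)) = conj (k.eval z) := by
    rw [hinv, eval_map]
    have h5 := Polynomial.hom_eval₂ k (RingHom.id ℂ) (starRingEnd ℂ) z
    rw [RingHom.comp_id] at h5
    rw [← h5]
    rfl
  rw [h2, h3] at h1
  change eval z (refl k) * (z⁻¹) ^ k.natDegree = eval z⁻¹ (k.map (starRingEnd ℂ)) at h1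
  rw [h4] at h1
  rw [← h1, inv_pow]
  field_simp

/-- `J = z ^ N * (Λ - k / 2 - z ^ (-d) * refl k / 2)`, a polynomial if `d ≤ N`. -/
noncomputable def Jf (k : ℂ[X]) (Λ : ℝ) (N : ℕ) (z : ℂ) : ℂ :=
  z ^ N * Λ - z ^ N * k.eval z / 2 - z ^ (N - k.natDegree) * (refl k).eval z / 2

/-- the damping parameter `ϱ = 1 - Λ⁻³` -/
noncomputable def rho (Λ : ℝ) : ℝ := 1 - (Λ ^ 3)⁻¹

/-- `H₀ = -2 ϱ J / (1 - ϱ z ^ N)` -/
noncomputable def Hf (k : ℂ[X]) (Λ : ℝ) (N : ℕ) (z : ℂ) : ℂ :=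
  -(2 * (rho Λ : ℂ) * Jf k Λ N z / (1 - rho Λ * z ^ N))

/-- `E₁ = exp (k + H₀) / (1 - ϱ z ^ N) ^ 2` -/
noncomputable def Ef (k : ℂ[X]) (Λ : ℝ) (N : ℕ) (z : ℂ) : ℂ :=
  exp (k.eval z + Hf k Λ N z) / (1 - rho Λ * z ^ N) ^ 2

/-- `N` is `exp Λ / (4 κ Λ ^ 2)` up to rounding. -/
structure NOK (κ Λ : ℝ) (N : ℕ) : Prop where
  /-- lower bound for `N` -/
  lower : Real.exp Λ ≤ 4 * κ * Λ ^ 2 * N
  /-- upper bound for `N` -/
  upper : 4 * κ * Λ ^ 2 * (N - 1) ≤ Real.exp Λ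

/-- `V` is the primitive of `E₁ - e ^ k` on the closed unit disc with `V 0 = 0`. -/
structure IsV (k : ℂ[X]) (Λ : ℝ) (N : ℕ) (V : ℂ → ℂ) : Prop where
  /-- normalisation -/
  zero : V 0 = 0
  /-- the derivative -/
  deriv : ∀ z ∈ closedBall (0 : ℂ) 1, HasDerivAt V (Ef k Λ N z - exp (k.eval z)) z

/-- `X = (1 - ϱ ^ 2) / |1 - ϱ z ^ N| ^ 2`, a Poisson kernel -/
noncomputable def Xf (Λ : ℝ) (N : ℕ) (z : ℂ) : ℝ :=
  (1 - rho Λ ^ 2) / ‖1 - (rho Λ : ℂ) * z ^ N‖ ^ 2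

/-- a natural number with the required rounding exists -/
lemma exists_NOK {κ Λ : ℝ} (hκ : 0 < κ) (hΛ : 0 < Λ) : ∃ N : ℕ, NOK κ Λ N := by
  refine ⟨⌈Real.exp Λ / (4 * κ * Λ ^ 2)⌉₊, ?_, ?_⟩
  · have h1 := Nat.le_ceil (Real.exp Λ / (4 * κ * Λ ^ 2))
    rw [div_le_iff₀ (by positivity)] at h1
    linarith
  · have h1 := Nat.ceil_lt_add_one (a := Real.exp Λ / (4 * κ * Λ ^ 2)) (by positivity)
    have h2 : (⌈Real.exp Λ / (4 * κ * Λ ^ 2)⌉₊ : ℝ) - 1 ≤ Real.exp Λ / (4 * κ * Λ ^ 2) := by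
      linarith
    rw [le_div_iff₀ (by positivity)] at h2
    linarith

end Pool.Agent.Helper61.Lac
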