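import Pool.Agent.Helper61.Lac.Base

/-!
# LC-1: primitives and polynomial approximation on the closed disc
-/

set_option autoImplicit false

open Filter Topology Metric Complex Polynomial Real
open scoped ComplexConjugate NNReal ENNReal

namespace Pool.Agent.Helper61.Lac

lemma exists_big_ball {g : ℂ → ℂ} (hg : AnalyticOnNhd ℂ g (closedBall 0 1)) :
    ∃ R : ℝ, 1 < R ∧ DifferentiableOn ℂ g (ball 0 R) := by
  have h1 : closedBall (0 : ℂ) 1 ⊆ {z | AnalyticAt ℂ g z} := fun z hz => hg z hz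
  obtain ⟨δ, hδ, h2⟩ := (isCompact_closedBall (0 : ℂ) 1).exists_thickening_subset_open
    (isOpen_analyticAt ℂ g) h1
  rw [thickening_closedBall hδ zero_le_one] at h2
  exact ⟨δ + 1, by linarith, fun z hz => (h2 hz).differentiableAt.differentiableWithinAt⟩

theorem exists_prim {g : ℂ → ℂ} (hg : AnalyticOnNhd ℂ g (closedBall 0 1)) :
    ∃ G : ℂ → ℂ, G 0 = 0 ∧ ∀ z ∈ closedBall (0 : ℂ) 1, HasDerivAt G (g z) z := by
  obtain ⟨R, hR, hd⟩ := exists_big_ball hg
  obtain ⟨G, hG⟩ := hd.isExactOn_ball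
  refine ⟨fun z => G z - G 0, sub_self _, fun z hz => ?_⟩
  exact (hG z (closedBall_subset_ball hR hz)).sub_const _

theorem exists_poly_approx {g : ℂ → ℂ} (hg : AnalyticOnNhd ℂ g (closedBall 0 1)) {η : ℝ}
    (hη : 0 < η) : ∃ P : ℂ[X], ∀ z ∈ closedBall (0 : ℂ) 1, ‖P.eval z - g z‖ ≤ η := by
  obtain ⟨R, hR, hd⟩ := exists_big_ball hg
  obtain ⟨R', hR', hR'2⟩ := exists_between hR
  obtain ⟨r, hr, hr2⟩ := exists_between hR'
  have h0 : 0 < R' := by linarith
  have h1 : DifferentiableOn ℂ g (closedBall 0 R') := hd.mono (closedBall_subset_ball hR'2)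
  have h2 := (show DifferentiableOn ℂ g (closedBall 0 (⟨R', h0.le⟩ : ℝ≥0)) from
    h1).hasFPowerSeriesOnBall (show 0 < (⟨R', h0.le⟩ : ℝ≥0) from h0)
  have h01 : 0 ≤ r := by linarith
  have h3 := h2.tendstoUniformlyOn' (r' := (⟨r, h01⟩ : ℝ≥0))
    (ENNReal.coe_lt_coe.2 (show (⟨r, h01⟩ : ℝ≥0) < (⟨R', h0.le⟩ : ℝ≥0) from hr2))
  rw [Metric.tendstoUniformlyOn_iff] at h3
  obtain ⟨n, hn⟩ := (h3 η hη).exists
  set p := cauchyPowerSeries g 0 R' with hp
  refine ⟨∑ i ∈ Finset.range n, C (p.coeff i) * X ^ i, fun z hz => ?_⟩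
  have h4 := hn z (closedBall_subset_ball hr hz)
  rw [dist_comm, dist_eq_norm] at h4
  have h5 : (∑ i ∈ Finset.range n, C (p.coeff i) * X ^ i : ℂ[X]).eval z =
      p.partialSum n (z - 0) := by
    rw [eval_finsetSum, FormalMultilinearSeries.partialSum]
    refine Finset.sum_congr rfl fun i _ => ?_
    rw [eval_mul, eval_C, eval_pow, eval_X, sub_zero, FormalMultilinearSeries.apply_eq_pow_smul_coeff,
      smul_eq_mul, mul_comm]
  rw [h5]
  exact h4.le

end Pool.Agent.Helper61.Lac
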