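import Pool.Agent.Helper61.Lac.LC11a

/-!
# LC-11, second part: from the limit object to the theorem
-/

set_option autoImplicit false

open Filter Topology Metric Complex Polynomial Real
open scoped ComplexConjugate

namespace Pool.Agent.Helper61.Lac

open Pool.Agent.Helper61.Nev

/-- the case `α₀ = 0`: the exponential function -/
theorem not_holds_zero : ¬ Holds 1 0 := by
  have hf : AnalyticOnNhd ℂ Complex.exp (ball 0 1) := fun z _ => Complex.differentiable_exp.analyticAt z
  have hB : ∀ z ∈ ball (0 : ℂ) 1, ‖Complex.exp z‖ ≤ Real.exp 1 := by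
    intro z hz
    rw [Complex.norm_exp, Real.exp_le_exp]
    exact (Complex.re_le_norm z).trans (mem_ball_zero_iff.1 hz).le
  have hnc : ¬ ∃ c, ∀ z ∈ ball (0 : ℂ) 1, Complex.exp z = c := by
    rintro ⟨c, hc⟩
    have h1 := hc 0 (mem_ball_self one_pos)
    have h2 := hc ((1 / 2 : ℝ) : ℂ) (by rw [mem_ball_zero_iff, Complex.norm_real]; norm_num)
    rw [← h1, Complex.exp_zero, ← Complex.ofReal_exp] at h2
    have h3 : Real.exp (1 / 2) = 1 := by exact_mod_cast h2
    rw [Real.exp_eq_one_iff] at h3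
    norm_num at h3
  refine not_holds_of hf (fun z _ => Complex.exp_ne_zero z) (alpha_eq_zero_of_bound hf hB)
    (by simp) hnc ?_ ?_
  · simpa using hnc
  · refine (Set.finite_singleton (0 : ℂ)).subset ?_
    rintro z ⟨hz, hz1⟩
    rw [Complex.deriv_exp, Complex.exp_eq_one_iff] at hz1
    obtain ⟨n, hn⟩ := hz1
    rw [mem_ball_zero_iff] at hz
    by_cases h : n = 0
    · rw [hn, h]
      simp
    · exfalso
      rw [hn, norm_mul, norm_mul, norm_mul, Complex.norm_I, Complex.norm_intCast,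
        Complex.norm_real] at hz
      have h1 : (1 : ℝ) ≤ |(n : ℝ)| := by exact_mod_cast Int.one_le_abs h
      have h2 : ‖(2 : ℂ)‖ = 2 := by norm_num
      rw [h2, Real.norm_of_nonneg Real.pi_pos.le] at hz
      have h3 := Real.pi_gt_three
      nlinarith

/-- an affine function is bounded on the disc -/
lemma alpha_eq_zero_of_deriv_const {f : ℂ → ℂ} (hf : AnalyticOnNhd ℂ f (ball 0 1)) {c : ℂ}
    (hc : ∀ z ∈ ball (0 : ℂ) 1, deriv f z = c) : alpha f = 0 := by
  refine alpha_eq_zero_of_bound (B := ‖f 0‖ + ‖c‖) hf ?_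
  intro z hz
  have h1 := (convex_ball (0 : ℂ) 1).norm_image_sub_le_of_norm_deriv_le (f := f) (C := ‖c‖)
    (fun x hx => (hf x hx).differentiableAt) (fun x hx => (by rw [hc x hx]))
    (mem_ball_self one_pos) hz
  have h2 : ‖f z‖ ≤ ‖f 0‖ + ‖f z - f 0‖ := by
    have := norm_add_le (f 0) (f z - f 0)
    simpa using this
  have h3 : ‖z - 0‖ ≤ 1 := by
    rw [sub_zero]
    exact (mem_ball_zero_iff.1 hz).le
  have h4 : ‖c‖ * ‖z - 0‖ ≤ ‖c‖ := mul_le_of_le_one_right (norm_nonneg _) h3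
  linarith

/-- From the limit object to the failure of property (V). -/
theorem not_holds_of_limit {α₀ : ℝ} (hα0 : 0 < α₀) {ξ ξ' Y : ℂ → ℂ}
    (hξ : ∀ z ∈ ball (0 : ℂ) 1, HasDerivAt ξ (ξ' z) z ∧ ξ' z ≠ 0) (hξ0 : ξ 0 = 0)
    (hY : ∀ z ∈ ball (0 : ℂ) 1, HasDerivAt Y (exp (ξ z)) z)
    (hYb : ∃ C : ℝ, ∀ z ∈ ball (0 : ℂ) 1, ‖Y z‖ ≤ C)
    (hup : ∀ ε : ℝ, 0 < ε → ∃ C : ℝ, ∀ z ∈ ball (0 : ℂ) 1,
        (ξ z).re ≤ (α₀ + ε) * (-Real.log (1 - ‖z‖)) + C)
    (hlow : ∀ ε : ℝ, 0 < ε → ∀ ρ : ℝ, ρ < 1 → ∃ R : ℝ, ρ < R ∧ 0 < R ∧ R < 1 ∧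
        (α₀ - ε) * (-Real.log (1 - R)) ≤ circleAverage (fun z => max (ξ z).re 0) 0 R) :
    ¬ Holds 1 (α₀ : EReal) := by
  obtain ⟨C, hC⟩ := hYb
  have hC0 : 0 ≤ C := (norm_nonneg _).trans (hC 0 (mem_ball_self one_pos))
  set W : ℂ → ℂ := fun z => ((C + 1 : ℝ) : ℂ) + Y z with hW
  have hW1 : ∀ z ∈ ball (0 : ℂ) 1, 1 ≤ ‖W z‖ := by
    intro z hz
    have h1 := norm_sub_norm_le (((C + 1 : ℝ) : ℂ)) (-(Y z))
    rw [sub_neg_eq_add, norm_neg, Complex.norm_real, Real.norm_of_nonneg (by linarith)] at h1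
    have h2 := hC z hz
    change 1 ≤ ‖((C + 1 : ℝ) : ℂ) + Y z‖
    linarith
  have hW2 : ∀ z ∈ ball (0 : ℂ) 1, ‖W z‖ ≤ 2 * C + 1 := by
    intro z hz
    have h1 := norm_add_le (((C + 1 : ℝ) : ℂ)) (Y z)
    rw [Complex.norm_real, Real.norm_of_nonneg (by linarith)] at h1
    have h2 := hC z hz
    change ‖((C + 1 : ℝ) : ℂ) + Y z‖ ≤ 2 * C + 1
    linarith
  set f : ℂ → ℂ := fun z => W z * Complex.exp (-(ξ z)) with hfdef
  have hfd : ∀ z ∈ ball (0 : ℂ) 1, HasDerivAt f (1 - ξ' z * f z) z := by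
    intro z hz
    have h1 := ((hY z hz).const_add ((C + 1 : ℝ) : ℂ)).mul ((hξ z hz).1.neg.cexp)
    refine h1.congr_deriv ?_
    have h2 : Complex.exp (ξ z) * Complex.exp (-(ξ z)) = 1 := by
      rw [← Complex.exp_add]; simp

    change Complex.exp (ξ z) * Complex.exp (-(ξ z)) +
      W z * (Complex.exp (-(ξ z)) * -(ξ' z)) = 1 - ξ' z * (W z * Complex.exp (-(ξ z)))
    rw [h2]
    ring
  have hfa : AnalyticOnNhd ℂ f (ball 0 1) := by
    have h1 : DifferentiableOn ℂ f (ball 0 1) :=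
      fun z hz => (hfd z hz).differentiableAt.differentiableWithinAt
    exact h1.analyticOnNhd isOpen_ball
  have hf0 : ∀ z ∈ ball (0 : ℂ) 1, f z ≠ 0 := by
    intro z hz
    refine mul_ne_zero ?_ (Complex.exp_ne_zero _)
    intro h0
    have := hW1 z hz
    rw [h0, norm_zero] at this
    linarith
  -- the real part of `ξ`
  have hξd : DifferentiableOn ℂ ξ (ball 0 1) :=
    fun z hz => (hξ z hz).1.differentiableAt.differentiableWithinAt
  have hξc : ContinuousOn ξ (ball 0 1) := hξd.continuousOn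
  have hrec : ContinuousOn (fun z => (ξ z).re) (ball 0 1) :=
    Complex.continuous_re.comp_continuousOn hξc
  have hposc : ContinuousOn (fun z => max (ξ z).re 0) (ball 0 1) := ContinuousOn.sup hrec continuousOn_const
  have hmean : ∀ r : ℝ, 0 < r → r < 1 → circleAverage (fun z => (ξ z).re) 0 r = 0 := by
    intro r hr0 hr1
    have h1 : DiffContOnCl ℂ ξ (ball 0 |r|) := by
      rw [abs_of_pos hr0]
      refine DifferentiableOn.diffContOnCl ?_
      rw [closure_ball (0 : ℂ) hr0.ne']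
      exact hξd.mono (closedBall_subset_ball hr1)
    have h2 := h1.circleAverage
    have hint : CircleIntegrable ξ 0 r := by
      refine ContinuousOn.circleIntegrable hr0.le (hξc.mono ?_)
      exact (sphere_subset_closedBall).trans (closedBall_subset_ball hr1)
    have h3 : circleAverage (fun z => (ξ z).re) 0 r = (circleAverage ξ 0 r).re := by
      have h4 := Complex.reCLM.circleAverage_comp_comm hint
      exact h4
    rw [h3, h2, hξ0, Complex.zero_re]
  -- the characteristic of `f`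
  have hkey : ∀ r : ℝ, 0 < r → r < 1 →
      circleAverage (fun z => max (ξ z).re 0) 0 r ≤ charT f r ∧
      charT f r ≤ circleAverage (fun z => max (ξ z).re 0) 0 r + Real.log (2 * C + 1) := by
    intro r hr0 hr1
    have hsub : sphere (0 : ℂ) |r| ⊆ ball 0 1 := by
      rw [abs_of_pos hr0]
      exact (sphere_subset_closedBall).trans (closedBall_subset_ball hr1)
    have hi1 : CircleIntegrable (fun z => max (ξ z).re 0) 0 r :=
      circleIntegrable_of_cont hr0.le hr1 hposc
    have hi2 : CircleIntegrable (fun z => (ξ z).re) 0 r :=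
      circleIntegrable_of_cont hr0.le hr1 hrec
    have hi3 : CircleIntegrable (fun z => log⁺ ‖f z‖) 0 r :=
      circleIntegrable_of_cont hr0.le hr1 (continuousOn_posLog_norm hfa.continuousOn)
    have hlogC : 0 ≤ Real.log (2 * C + 1) := Real.log_nonneg (by linarith)
    have hnorm : ∀ z, ‖f z‖ = ‖W z‖ * Real.exp (-(ξ z).re) := by
      intro z
      change ‖W z * Complex.exp (-(ξ z))‖ = _
      rw [norm_mul, Complex.norm_exp, Complex.neg_re]
    have hlb : ∀ z ∈ sphere (0 : ℂ) |r|, max (ξ z).re 0 - (ξ z).re ≤ log⁺ ‖f z‖ := by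
      intro z hz
      have h1 := hW1 z (hsub hz)
      have h2 : Real.exp (-(ξ z).re) ≤ ‖f z‖ := by
        rw [hnorm]
        exact le_mul_of_one_le_left (Real.exp_pos _).le h1
      have h3 : log⁺ (Real.exp (-(ξ z).re)) ≤ log⁺ ‖f z‖ :=
        Real.posLog_le_posLog (Real.exp_pos _).le h2
      have h4 : log⁺ (Real.exp (-(ξ z).re)) = max 0 (-(ξ z).re) := by
        rw [Real.posLog_apply, Real.log_exp]
      rw [h4] at h3
      refine le_trans (le_of_eq ?_) h3
      rcases le_total (ξ z).re 0 with h5 | h5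
      · rw [max_eq_right h5, max_eq_right (by linarith)]
        ring
      · rw [max_eq_left h5, max_eq_left (by linarith)]
        ring
    have hub : ∀ z ∈ sphere (0 : ℂ) |r|, log⁺ ‖f z‖ ≤
        max (ξ z).re 0 - (ξ z).re + Real.log (2 * C + 1) := by
      intro z hz
      have h1 := hW1 z (hsub hz)
      have h2 := hW2 z (hsub hz)
      have h3 : Real.log ‖f z‖ ≤ -(ξ z).re + Real.log (2 * C + 1) := by
        rw [hnorm, Real.log_mul (by linarith) (Real.exp_pos _).ne', Real.log_exp]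
        have h4 : Real.log ‖W z‖ ≤ Real.log (2 * C + 1) := Real.log_le_log (by linarith) h2
        linarith
      rw [Real.posLog_apply]
      refine max_le ?_ ?_
      · have := le_max_left (ξ z).re 0
        linarith
      · have := le_max_right (ξ z).re 0
        linarith
    have hm := hmean r hr0 hr1
    have hA : circleAverage (fun z => max (ξ z).re 0 - (ξ z).re) 0 r =
        circleAverage (fun z => max (ξ z).re 0) 0 r := by
      have := circleAverage_sub hi1 hi2
      rw [hm, sub_zero] at this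
      exact this
    rw [charT_eq hr1 hfa]
    constructor
    · rw [← hA]
      exact circleAverage_mono (hi1.sub hi2) hi3 hlb
    · have h5 : circleAverage (fun z => max (ξ z).re 0 - (ξ z).re + Real.log (2 * C + 1)) 0 r =
          circleAverage (fun z => max (ξ z).re 0) 0 r + Real.log (2 * C + 1) := by
        have := circleAverage_add (hi1.sub hi2) (circleIntegrable_const (Real.log (2 * C + 1)) 0 r)
        rw [circleAverage_const] at this
        rw [← hA]
        exact this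
      rw [← h5]
      exact circleAverage_mono hi3 ((hi1.sub hi2).add (circleIntegrable_const _ 0 r)) hub
  have hlogC : 0 ≤ Real.log (2 * C + 1) := Real.log_nonneg (by linarith)
  have hαf : alpha f = (α₀ : EReal) := by
    refine le_antisymm (alpha_le ?_) (le_alpha ?_)
    · intro ε hε
      obtain ⟨K, hK⟩ := hup ε hε
      refine ⟨|K| + Real.log (2 * C + 1), fun r hr0 hr1 => ?_⟩
      have hL : 0 ≤ -Real.log (1 - r) := by
        have := Real.log_nonpos (x := 1 - r) (by linarith) (by linarith)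
        linarith
      have h1 : circleAverage (fun z => max (ξ z).re 0) 0 r ≤
          (α₀ + ε) * (-Real.log (1 - r)) + |K| := by
        refine circleAverage_mono_on_of_le_circle (circleIntegrable_of_cont hr0.le hr1 hposc) ?_
        intro z hz
        have hz2 : ‖z‖ = r := by
          rw [mem_sphere_zero_iff_norm, abs_of_pos hr0] at hz
          exact hz
        have hzb : z ∈ ball (0 : ℂ) 1 := by
          rw [mem_ball_zero_iff, hz2]
          exact hr1
        have h2 := hK z hzb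
        rw [hz2] at h2
        have h3 := le_abs_self K
        have h4 : 0 ≤ (α₀ + ε) * (-Real.log (1 - r)) := mul_nonneg (by linarith) hL
        exact max_le (by linarith) (by positivity)
      have h2 := (hkey r hr0 hr1).2
      linarith
    · intro ε hε
      refine ⟨0, fun ρ hρ => ?_⟩
      obtain ⟨R, hR1, hR2, hR3, hR4⟩ := hlow ε hε ρ hρ
      refine ⟨R, hR1, hR2, hR3, ?_⟩
      have h2 := (hkey R hR2 hR3).1
      linarith
  have hne : (α₀ : EReal) ≠ 0 := by
    intro h
    have : α₀ = 0 := by exact_mod_cast h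
    exact hα0.ne' this
  refine not_holds_of hfa hf0 hαf (EReal.coe_lt_top _) ?_ ?_ ?_
  · rintro ⟨c, hc⟩
    apply hne
    rw [← hαf]
    exact alpha_eq_zero_of_bound hfa (B := ‖c‖) fun z hz => by rw [hc z hz]
  · rintro ⟨c, hc⟩
    apply hne
    rw [← hαf]
    exact alpha_eq_zero_of_deriv_const hfa hc
  · convert Set.finite_empty
    ext z
    simp only [Set.mem_ofPred_eq, Set.mem_empty_iff_false, iff_false, not_and]
    intro hz h
    rw [(hfd z hz).deriv] at h
    have h1 : ξ' z * f z = 0 := by linear_combination -h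
    exact (mul_ne_zero (hξ z hz).2 (hf0 z hz)) h1

/-- LC-11, assuming the statement of `limit` (LC-10). -/
theorem not_holds_one_of
    (limit : ∀ α₀ : ℝ, 0 < α₀ → α₀ ≤ 1 →
      ∃ ξ ξ' Y : ℂ → ℂ, (∀ z ∈ ball (0 : ℂ) 1, HasDerivAt ξ (ξ' z) z ∧ ξ' z ≠ 0) ∧ ξ 0 = 0 ∧
      DifferentiableOn ℂ ξ' (ball 0 1) ∧
      (∀ z ∈ ball (0 : ℂ) 1, HasDerivAt Y (exp (ξ z)) z) ∧
      (∃ C : ℝ, ∀ z ∈ ball (0 : ℂ) 1, ‖Y z‖ ≤ C) ∧
      (∀ ε : ℝ, 0 < ε → ∃ C : ℝ, ∀ z ∈ ball (0 : ℂ) 1,
        (ξ z).re ≤ (α₀ + ε) * (-Real.log (1 - ‖z‖)) + C) ∧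
      (∀ ε : ℝ, 0 < ε → ∀ ρ : ℝ, ρ < 1 → ∃ R : ℝ, ρ < R ∧ 0 < R ∧ R < 1 ∧
        (α₀ - ε) * (-Real.log (1 - R)) ≤ circleAverage (fun z => max (ξ z).re 0) 0 R))
    (α₀ : ℝ) (h0 : 0 ≤ α₀) (h1 : α₀ ≤ 1) : ¬ Holds 1 (α₀ : EReal) := by
  rcases h0.eq_or_lt with h | h
  · rw [← h]
    exact_mod_cast not_holds_zero
  · obtain ⟨ξ, ξ', Y, h2, h3, -, h5, h6, h7, h8⟩ := limit α₀ h h1
    exact not_holds_of_limit h h2 h3 h5 h6 h7 h8

end Pool.Agent.Helper61.Lac
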