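import Pool.Agent.Helper61.Lac.Base

/-!
# LC-2: inside the disc everything is tiny
-/

set_option autoImplicit false

open Filter Topology Metric Complex Polynomial Real
open scoped ComplexConjugate

namespace Pool.Agent.Helper61.Lac

namespace LC2

/-- powers are eventually smaller than exponentials -/
lemma ev_pow_le_exp (C : ℝ) (j : ℕ) {c : ℝ} (hc : 0 < c) :
    ∀ᶠ Λ : ℝ in atTop, C * Λ ^ j ≤ Real.exp (c * Λ) := by
  have h1 := Real.tendsto_pow_mul_exp_neg_atTop_nhds_zero j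
  have h2 : Tendsto (fun x : ℝ => c * x) atTop atTop := tendsto_id.const_mul_atTop hc
  have h3 := (h1.comp h2).const_mul (|C| / c ^ j)
  rw [mul_zero] at h3
  have h4 := h3.eventually (ge_mem_nhds (zero_lt_one))
  filter_upwards [h4, eventually_gt_atTop 0] with x hx hx0
  simp only [Function.comp] at hx
  have h5 : |C| / c ^ j * ((c * x) ^ j * Real.exp (-(c * x))) = |C| * x ^ j / Real.exp (c * x) := by
    rw [Real.exp_neg, mul_pow]
    field_simp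
  rw [h5, div_le_one (Real.exp_pos _)] at hx
  refine le_trans ?_ hx
  exact mul_le_mul_of_nonneg_right (le_abs_self C) (by positivity)

lemma NOK_ge {κ : ℝ} (_hκ : 0 < κ) : ∀ᶠ Λ : ℝ in atTop, ∀ N : ℕ, NOK κ Λ N →
    Real.exp (Λ / 2) ≤ N := by
  filter_upwards [ev_pow_le_exp (4 * κ) 2 (c := 1 / 2) (by norm_num), eventually_gt_atTop 0]
    with Λ h1 h0 N hN
  have h2 := hN.lower
  have h3 : Real.exp Λ = Real.exp (Λ / 2) * Real.exp (Λ / 2) := by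
    rw [← Real.exp_add]
    ring_nf
  have h4 : Real.exp (1 / 2 * Λ) = Real.exp (Λ / 2) := by ring_nf
  rw [h4] at h1
  rw [h3] at h2
  have h5 : 4 * κ * Λ ^ 2 * N ≤ Real.exp (Λ / 2) * N :=
    mul_le_mul_of_nonneg_right h1 (Nat.cast_nonneg N)
  exact le_of_mul_le_mul_left (h2.trans h5) (Real.exp_pos _)

lemma NOK_le {κ : ℝ} (hκ : 0 < κ) : ∀ᶠ Λ : ℝ in atTop, ∀ N : ℕ, NOK κ Λ N →
    (N : ℝ) ≤ Real.exp Λ := by
  have h1 : Tendsto (fun x : ℝ => 4 * κ * x ^ 2) atTop atTop :=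
    (tendsto_pow_atTop two_ne_zero).const_mul_atTop (by positivity)
  filter_upwards [h1.eventually_ge_atTop 2, eventually_ge_atTop 1] with Λ h2 h0 N hN
  have h3 := hN.upper
  rcases Nat.eq_zero_or_pos N with h4 | h4
  · rw [h4]
    simpa using (Real.exp_pos Λ).le
  · have h5 : (1 : ℝ) ≤ N := by exact_mod_cast h4
    have h6 : 2 * ((N : ℝ) - 1) ≤ Real.exp Λ :=
      (mul_le_mul_of_nonneg_right h2 (by linarith)).trans h3
    have h7 := Real.add_one_le_exp Λ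
    linarith

/-- `N` is eventually larger than any power of `Λ` -/
lemma NOK_ge_pow {κ : ℝ} (hκ : 0 < κ) (C : ℝ) (j : ℕ) : ∀ᶠ Λ : ℝ in atTop, ∀ N : ℕ, NOK κ Λ N →
    C * Λ ^ j ≤ N := by
  filter_upwards [NOK_ge hκ, ev_pow_le_exp C j (c := 1 / 2) (by norm_num)] with Λ h1 h2 N hN
  have h4 : Real.exp (1 / 2 * Λ) = Real.exp (Λ / 2) := by ring_nf
  rw [h4] at h2
  exact h2.trans (h1 N hN)

/-- a bound for a polynomial on the disc -/
lemma exists_bound (k : ℂ[X]) : ∃ K : ℝ, 0 ≤ K ∧ ∀ z ∈ closedBall (0 : ℂ) 1,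
    ‖k.eval z‖ ≤ K ∧ ‖(refl k).eval z‖ ≤ K ∧ ‖(derivative k).eval z‖ ≤ K ∧
      ‖(derivative (refl k)).eval z‖ ≤ K := by
  have h : ∀ p : ℂ[X], ∃ K : ℝ, 0 ≤ K ∧ ∀ z ∈ closedBall (0 : ℂ) 1, ‖p.eval z‖ ≤ K := by
    intro p
    obtain ⟨C, hC⟩ := (isCompact_closedBall (0 : ℂ) 1).exists_bound_of_continuousOn
      (f := fun z => p.eval z) p.continuous.continuousOn
    exact ⟨C, (norm_nonneg _).trans (hC 0 (mem_closedBall_self zero_le_one)), hC⟩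
  obtain ⟨K1, h1, h1'⟩ := h k
  obtain ⟨K2, h2, h2'⟩ := h (refl k)
  obtain ⟨K3, h3, h3'⟩ := h (derivative k)
  obtain ⟨K4, h4, h4'⟩ := h (derivative (refl k))
  refine ⟨K1 + K2 + K3 + K4, by positivity, fun z hz => ⟨?_, ?_, ?_, ?_⟩⟩
  · linarith [h1' z hz]
  · linarith [h2' z hz]
  · linarith [h3' z hz]
  · linarith [h4' z hz]

lemma rho_nonneg {Λ : ℝ} (hΛ : 1 ≤ Λ) : 0 ≤ rho Λ := by
  have h1 : (Λ ^ 3)⁻¹ ≤ 1 := inv_le_one_of_one_le₀ (one_le_pow₀ hΛ)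
  unfold rho
  linarith

lemma rho_lt_one {Λ : ℝ} (hΛ : 0 < Λ) : rho Λ < 1 := by
  have h1 : 0 < (Λ ^ 3)⁻¹ := by positivity
  unfold rho
  linarith

lemma norm_rho_le {Λ : ℝ} (hΛ : 1 ≤ Λ) : ‖(rho Λ : ℂ)‖ ≤ 1 := by
  rw [Complex.norm_real, Real.norm_of_nonneg (rho_nonneg hΛ)]
  exact (rho_lt_one (by linarith)).le

/-- bound for `J` -/
lemma norm_Jf_le (k : ℂ[X]) {Λ K : ℝ} (hΛ : 0 ≤ Λ) {N : ℕ} {z : ℂ} (hz : ‖z‖ ≤ 1)
    (hK1 : ‖k.eval z‖ ≤ K) (hK2 : ‖(refl k).eval z‖ ≤ K) :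
    ‖Jf k Λ N z‖ ≤ (Λ + K) * ‖z‖ ^ (N - k.natDegree) := by
  have h0 : ‖z‖ ^ N ≤ ‖z‖ ^ (N - k.natDegree) :=
    pow_le_pow_of_le_one (norm_nonneg _) hz (Nat.sub_le _ _)
  have h1 : 0 ≤ ‖z‖ ^ N := by positivity
  have h2 : 0 ≤ ‖z‖ ^ (N - k.natDegree) := by positivity
  have hK : 0 ≤ K := (norm_nonneg _).trans hK1
  have h3 : ‖z ^ N * (Λ : ℂ)‖ ≤ ‖z‖ ^ (N - k.natDegree) * Λ := by
    rw [norm_mul, norm_pow, Complex.norm_real, Real.norm_of_nonneg hΛ]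
    exact mul_le_mul_of_nonneg_right h0 hΛ
  have h4 : ‖z ^ N * k.eval z / 2‖ ≤ ‖z‖ ^ (N - k.natDegree) * K / 2 := by
    rw [norm_div, norm_mul, norm_pow]
    have : ‖(2 : ℂ)‖ = 2 := by norm_num
    rw [this]
    have := mul_le_mul h0 hK1 (norm_nonneg _) h2
    linarith
  have h5 : ‖z ^ (N - k.natDegree) * (refl k).eval z / 2‖ ≤ ‖z‖ ^ (N - k.natDegree) * K / 2 := by
    rw [norm_div, norm_mul, norm_pow]
    have : ‖(2 : ℂ)‖ = 2 := by norm_num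
    rw [this]
    have := mul_le_mul_of_nonneg_left hK2 h2
    linarith
  unfold Jf
  have h6 := norm_sub_le (z ^ N * (Λ : ℂ) - z ^ N * k.eval z / 2)
    (z ^ (N - k.natDegree) * (refl k).eval z / 2)
  have h7 := norm_sub_le (z ^ N * (Λ : ℂ)) (z ^ N * k.eval z / 2)
  nlinarith

/-- bound for `H₀` when `|z| ^ N` is small -/
lemma norm_Hf_le (k : ℂ[X]) {Λ K : ℝ} (hΛ : 1 ≤ Λ) {N : ℕ} {z : ℂ} (hz : ‖z‖ ≤ 1)
    (hK1 : ‖k.eval z‖ ≤ K) (hK2 : ‖(refl k).eval z‖ ≤ K) (hq : ‖z‖ ^ N ≤ 1 / 50) :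
    ‖Hf k Λ N z‖ ≤ 100 / 49 * (Λ + K) * ‖z‖ ^ (N - k.natDegree) := by
  have hJ := norm_Jf_le k (by linarith : (0 : ℝ) ≤ Λ) (N := N) hz hK1 hK2
  have h1 : ‖(rho Λ : ℂ) * z ^ N‖ ≤ 1 / 50 := by
    rw [norm_mul, norm_pow]
    have := mul_le_mul (norm_rho_le hΛ) hq (by positivity) zero_le_one
    linarith
  have h2 : 49 / 50 ≤ ‖1 - (rho Λ : ℂ) * z ^ N‖ := by
    have := norm_sub_norm_le (1 : ℂ) ((rho Λ : ℂ) * z ^ N)
    rw [norm_one] at this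
    linarith
  unfold Hf
  rw [norm_neg, norm_div, norm_mul, norm_mul]
  have : ‖(2 : ℂ)‖ = 2 := by norm_num
  rw [this, div_le_iff₀ (by linarith)]
  have h3 : 2 * ‖(rho Λ : ℂ)‖ * ‖Jf k Λ N z‖ ≤ 2 * ‖Jf k Λ N z‖ := by
    have := mul_le_mul_of_nonneg_right (norm_rho_le hΛ) (norm_nonneg (Jf k Λ N z))
    linarith
  have h4 : 0 ≤ 100 / 49 * (Λ + K) * ‖z‖ ^ (N - k.natDegree) := by
    have hK : 0 ≤ K := (norm_nonneg _).trans hK1
    positivity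
  have h5 := mul_le_mul_of_nonneg_left h2 h4
  have h6 : 100 / 49 * (Λ + K) * ‖z‖ ^ (N - k.natDegree) * (49 / 50) =
    2 * ((Λ + K) * ‖z‖ ^ (N - k.natDegree)) := by ring
  linarith

lemma norm_exp_sub_one_le' (w : ℂ) : ‖Complex.exp w - 1‖ ≤ ‖w‖ * Real.exp ‖w‖ := by
  have h := Complex.norm_exp_sub_sum_le_norm_mul_exp w 1
  simpa using h

/-- the pointwise estimate -/
lemma norm_Ef_sub_le (k : ℂ[X]) {Λ K : ℝ} (hΛ : 1 ≤ Λ) {N : ℕ} {z : ℂ} (hz : ‖z‖ ≤ 1)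
    (hK1 : ‖k.eval z‖ ≤ K) (hK2 : ‖(refl k).eval z‖ ≤ K) (hq : ‖z‖ ^ N ≤ 1 / 50)
    (hH : ‖Hf k Λ N z‖ ≤ Λ / 4) :
    ‖Ef k Λ N z - exp (k.eval z)‖ ≤
      Real.exp K * (6 * (Λ + K) * Real.exp (Λ / 4) + 4) * ‖z‖ ^ (N - k.natDegree) := by
  have hK : 0 ≤ K := (norm_nonneg _).trans hK1
  have hHz := norm_Hf_le k hΛ (N := N) hz hK1 hK2 hq
  set w := Hf k Λ N z with hw
  set u : ℂ := (rho Λ : ℂ) * z ^ N with hu
  have h0 : ‖z‖ ^ N ≤ ‖z‖ ^ (N - k.natDegree) :=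
    pow_le_pow_of_le_one (norm_nonneg _) hz (Nat.sub_le _ _)
  have hu1 : ‖u‖ ≤ ‖z‖ ^ N := by
    rw [hu, norm_mul, norm_pow]
    exact mul_le_of_le_one_left (by positivity) (norm_rho_le hΛ)
  have h2 : 49 / 50 ≤ ‖1 - u‖ := by
    have := norm_sub_norm_le (1 : ℂ) u
    rw [norm_one] at this
    linarith
  have hne : (1 - u) ≠ 0 := by
    rw [← norm_pos_iff]
    linarith
  have h3 : Ef k Λ N z - exp (k.eval z) =
      exp (k.eval z) * (((exp w - 1) + (2 * u - u ^ 2)) / (1 - u) ^ 2) := by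
    unfold Ef
    rw [← hw, ← hu, Complex.exp_add]
    field_simp
    ring
  have h4 : ‖exp w - 1‖ ≤ ‖w‖ * Real.exp (Λ / 4) :=
    (norm_exp_sub_one_le' w).trans
      (mul_le_mul_of_nonneg_left (Real.exp_le_exp.2 hH) (norm_nonneg _))
  have h5 : ‖2 * u - u ^ 2‖ ≤ 3 * ‖z‖ ^ N := by
    have h6 := norm_sub_le (2 * u) (u ^ 2)
    rw [norm_mul, norm_pow] at h6
    have : ‖(2 : ℂ)‖ = 2 := by norm_num
    rw [this] at h6
    have h7 : ‖u‖ ^ 2 ≤ ‖u‖ := by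
      have h8 : ‖u‖ ≤ 1 := by linarith
      nlinarith [norm_nonneg u]
    linarith
  have h6 : ‖exp (k.eval z)‖ ≤ Real.exp K := by
    rw [Complex.norm_exp, Real.exp_le_exp]
    exact (Complex.re_le_norm _).trans hK1
  rw [h3, norm_mul, norm_div, norm_pow, mul_assoc]
  refine mul_le_mul h6 ?_ (by positivity) (by positivity)
  rw [div_le_iff₀ (by positivity)]
  have h7 : (49 / 50 : ℝ) ^ 2 ≤ ‖1 - u‖ ^ 2 := pow_le_pow_left₀ (by norm_num) h2 2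
  have h8 := norm_add_le (exp w - 1) (2 * u - u ^ 2)
  have h9 : 0 ≤ (6 * (Λ + K) * Real.exp (Λ / 4) + 4) * ‖z‖ ^ (N - k.natDegree) := by positivity
  have h10 := mul_le_mul_of_nonneg_left h7 h9
  refine le_trans ?_ h10
  have h11 : ‖w‖ * Real.exp (Λ / 4) ≤
      100 / 49 * (Λ + K) * ‖z‖ ^ (N - k.natDegree) * Real.exp (Λ / 4) :=
    mul_le_mul_of_nonneg_right hHz (Real.exp_pos _).le
  have h12 : 0 ≤ (Λ + K) * Real.exp (Λ / 4) * ‖z‖ ^ (N - k.natDegree) := by positivity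
  nlinarith

/-- `(1 - a / N) ^ m ≤ exp (- a m / N)` -/
lemma pow_le_exp_neg {N m : ℕ} {a x : ℝ} (hx0 : 0 ≤ x) (hx : x ≤ 1 - a / N) :
    x ^ m ≤ Real.exp (-(a * m / N)) := by
  have h1 : x ≤ Real.exp (-(a / N)) := by
    have := Real.add_one_le_exp (-(a / (N : ℝ)))
    linarith
  calc x ^ m ≤ Real.exp (-(a / N)) ^ m := pow_le_pow_left₀ hx0 h1 m
    _ = Real.exp (-(a * m / N)) := by
      rw [← Real.exp_nat_mul]
      ring_nf

lemma exp_neg_four_le : Real.exp (-4) ≤ 1 / 50 := by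
  have h1 : (2.7182818283 : ℝ) < Real.exp 1 := Real.exp_one_gt_d9
  have h2 : Real.exp 4 = Real.exp 1 ^ 4 := by
    rw [← Real.exp_nat_mul]
    norm_num
  have h3 : (50 : ℝ) ≤ Real.exp 4 := by
    rw [h2]
    calc (50 : ℝ) ≤ (2.7182818283 : ℝ) ^ 4 := by norm_num
      _ ≤ Real.exp 1 ^ 4 := pow_le_pow_left₀ (by norm_num) h1.le 4
  rw [Real.exp_neg, inv_eq_one_div]
  exact one_div_le_one_div_of_le (by norm_num) h3

lemma exp_neg_three_le : Real.exp (-3) ≤ 1 / 20 := by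
  have h1 : (2.7182818283 : ℝ) < Real.exp 1 := Real.exp_one_gt_d9
  have h2 : Real.exp 3 = Real.exp 1 ^ 3 := by
    rw [← Real.exp_nat_mul]
    norm_num
  have h3 : (20 : ℝ) ≤ Real.exp 3 := by
    rw [h2]
    calc (20 : ℝ) ≤ (2.7182818283 : ℝ) ^ 3 := by norm_num
      _ ≤ Real.exp 1 ^ 3 := pow_le_pow_left₀ (by norm_num) h1.le 3
  rw [Real.exp_neg, inv_eq_one_div]
  exact one_div_le_one_div_of_le (by norm_num) h3

/-- radial integration -/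
lemma radial {F : ℂ → ℂ} {f : ℂ → ℂ} {z : ℂ} {A : ℝ} {m : ℕ} (hF0 : F 0 = 0)
    (hF : ∀ t : ℝ, 0 ≤ t → t ≤ 1 → HasDerivAt F (f (t * z)) (t * z))
    (hb : ∀ t : ℝ, 0 ≤ t → t ≤ 1 → ‖f (t * z)‖ ≤ A * (t * ‖z‖) ^ m) :
    ‖F z‖ ≤ A * ‖z‖ ^ (m + 1) / (m + 1) := by
  have key := image_norm_le_of_norm_deriv_right_le_deriv_boundary'
    (f := fun t : ℝ => F (t * z)) (f' := fun t : ℝ => f (t * z) * z) (a := 0) (b := 1)
    (B := fun t : ℝ => A * ‖z‖ ^ (m + 1) / (m + 1) * t ^ (m + 1))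
    (B' := fun t : ℝ => A * ‖z‖ ^ (m + 1) * t ^ m) ?_ ?_ ?_ ?_ ?_ ?_
  · have h1 := key (x := 1) ⟨zero_le_one, le_refl _⟩
    simpa using h1
  · intro t ht
    have h1 : HasDerivAt (fun t : ℝ => F (t * z)) (f (t * z) * z) t := by
      have h2 : HasDerivAt (fun t : ℝ => (t : ℂ) * z) z t := by
        simpa using (Complex.ofRealCLM.hasDerivAt (x := t)).mul_const z
      exact (hF t ht.1 ht.2).comp t h2
    exact h1.continuousAt.continuousWithinAt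
  · intro t ht
    have h2 : HasDerivAt (fun t : ℝ => (t : ℂ) * z) z t := by
      simpa using (Complex.ofRealCLM.hasDerivAt (x := t)).mul_const z
    exact ((hF t ht.1 ht.2.le).comp t h2).hasDerivWithinAt
  · simp [hF0]
  · exact (continuous_const.mul (continuous_pow _)).continuousOn
  · intro t _
    have h1 := ((hasDerivAt_pow (m + 1) t).const_mul (A * ‖z‖ ^ (m + 1) / (m + 1)))
    refine (h1.congr_deriv ?_).hasDerivWithinAt
    have : (m : ℝ) + 1 ≠ 0 := by positivity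
    push_cast
    field_simp
  · intro t ht
    change ‖f (t * z) * z‖ ≤ A * ‖z‖ ^ (m + 1) * t ^ m
    rw [norm_mul]
    have h1 := mul_le_mul_of_nonneg_right (hb t ht.1 ht.2.le) (norm_nonneg z)
    refine h1.trans (le_of_eq ?_)
    rw [mul_pow, pow_succ]
    ring

end LC2

open LC2

theorem inside (κ : ℝ) (hκ : 0 < κ) (k : ℂ[X]) :
    ∀ᶠ Λ : ℝ in atTop, ∀ N : ℕ, NOK κ Λ N → ∀ V : ℂ → ℂ, IsV k Λ N V →
      ∀ z : ℂ, ‖z‖ ≤ 1 - 4 / N → ‖V z‖ ≤ Real.exp (Λ / 3) / N * ‖z‖ ^ (N - k.natDegree) := by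
  obtain ⟨K, hK0, hK⟩ := exists_bound k
  have e1 := NOK_ge_pow hκ (4 * k.natDegree + 8) 0
  have e2 : ∀ᶠ Λ : ℝ in atTop, 48 * Real.exp K * Λ ^ 1 ≤ Real.exp (1 / 12 * Λ) :=
    ev_pow_le_exp (48 * Real.exp K) 1 (by norm_num)
  have e3 : ∀ᶠ Λ : ℝ in atTop, 16 * Real.exp K * Λ ^ 0 ≤ Real.exp (1 / 3 * Λ) :=
    ev_pow_le_exp (16 * Real.exp K) 0 (by norm_num)
  filter_upwards [e1, e2, e3, eventually_ge_atTop (max 1 K)] with Λ h1 h2 h3 h4 N hN V hV z hz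
  have hΛ1 : 1 ≤ Λ := (le_max_left _ _).trans h4
  have hΛK : K ≤ Λ := (le_max_right _ _).trans h4
  have hNd : (4 : ℝ) * k.natDegree + 8 ≤ N := by simpa using h1 N hN
  have hNd' : 4 * k.natDegree + 8 ≤ N := by exact_mod_cast hNd
  have hN0 : (0 : ℝ) < N := by
    have : (0 : ℝ) ≤ k.natDegree := Nat.cast_nonneg _
    linarith
  set m := N - k.natDegree with hm
  have hmN : (m : ℝ) = N - k.natDegree := by
    rw [hm, Nat.cast_sub (by omega)]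
  have hm34 : 3 / 4 * (N : ℝ) ≤ m := by
    rw [hmN]
    linarith
  set A := Real.exp K * (6 * (Λ + K) * Real.exp (Λ / 4) + 4) with hA
  have hpt : ∀ w : ℂ, ‖w‖ ≤ 1 - 4 / N → ‖Ef k Λ N w - exp (k.eval w)‖ ≤ A * ‖w‖ ^ m := by
    intro w hw
    have hw1 : ‖w‖ ≤ 1 := by
      have : 0 ≤ 4 / (N : ℝ) := by positivity
      linarith
    have hwb : w ∈ closedBall (0 : ℂ) 1 := by rwa [mem_closedBall_zero_iff]
    obtain ⟨k1, k2, -, -⟩ := hK w hwb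
    have hq : ‖w‖ ^ N ≤ 1 / 50 := by
      have h5 := pow_le_exp_neg (m := N) (norm_nonneg w) hw
      rw [mul_div_assoc, div_self hN0.ne', mul_one] at h5
      exact h5.trans exp_neg_four_le
    have hq2 : ‖w‖ ^ m ≤ 1 / 20 := by
      have h5 := pow_le_exp_neg (m := m) (norm_nonneg w) hw
      refine h5.trans (le_trans (Real.exp_le_exp.2 ?_) exp_neg_three_le)
      have : 3 ≤ 4 * (m : ℝ) / N := by
        rw [le_div_iff₀ hN0]
        linarith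
      linarith
    refine norm_Ef_sub_le k hΛ1 hw1 k1 k2 hq ?_
    have h6 := norm_Hf_le k hΛ1 hw1 k1 k2 hq
    have h7 : 0 ≤ Λ + K := by linarith
    have h8 := mul_le_mul_of_nonneg_left hq2 (mul_nonneg (by norm_num : (0 : ℝ) ≤ 100 / 49) h7)
    linarith
  have hrad := radial (F := V) (f := fun w => Ef k Λ N w - exp (k.eval w)) (z := z) (A := A)
    (m := m) hV.zero ?_ ?_
  · have hz0 : 0 ≤ ‖z‖ := norm_nonneg z
    have hz1 : ‖z‖ ≤ 1 := by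
      have : 0 ≤ 4 / (N : ℝ) := by positivity
      linarith
    have hA2 : A ≤ Real.exp (Λ / 3) / 2 := by
      have e4 : Real.exp (Λ / 3) = Real.exp (1 / 12 * Λ) * Real.exp (Λ / 4) := by
        rw [← Real.exp_add]
        ring_nf
      have e5 : Real.exp (1 / 3 * Λ) = Real.exp (Λ / 3) := by ring_nf
      rw [e5] at h3
      have e6 : 48 * Real.exp K * Λ * Real.exp (Λ / 4) ≤ Real.exp (Λ / 3) := by
        rw [e4]
        refine mul_le_mul_of_nonneg_right ?_ (Real.exp_pos _).le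
        simpa using h2
      have e7 : Real.exp K * (6 * (Λ + K) * Real.exp (Λ / 4)) ≤
          12 * Real.exp K * Λ * Real.exp (Λ / 4) := by
        have : Real.exp K * Real.exp (Λ / 4) * (6 * (Λ + K)) ≤
            Real.exp K * Real.exp (Λ / 4) * (12 * Λ) :=
          mul_le_mul_of_nonneg_left (by linarith) (by positivity)
        linarith
      rw [hA]
      have e8 : 16 * Real.exp K ≤ Real.exp (Λ / 3) := by simpa using h3
      linarith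
    have hA0 : 0 ≤ A := by
      rw [hA]
      have : 0 ≤ Λ + K := by linarith
      positivity
    have h9 : ‖z‖ ^ (m + 1) ≤ ‖z‖ ^ m := pow_le_pow_of_le_one hz0 hz1 (Nat.le_succ m)
    have h10 : 0 ≤ ‖z‖ ^ m := by positivity
    calc ‖V z‖ ≤ A * ‖z‖ ^ (m + 1) / (m + 1) := hrad
      _ ≤ Real.exp (Λ / 3) / 2 * ‖z‖ ^ m / (N / 2) := by
        refine div_le_div₀ (by positivity) ?_ (by positivity) (by linarith)
        exact mul_le_mul hA2 h9 (by positivity) (by positivity)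
      _ = Real.exp (Λ / 3) / N * ‖z‖ ^ m := by
        field_simp
  · intro t ht0 ht1
    refine hV.deriv _ ?_
    rw [mem_closedBall_zero_iff, norm_mul, Complex.norm_real, Real.norm_of_nonneg ht0]
    have : 0 ≤ 4 / (N : ℝ) := by positivity
    nlinarith [norm_nonneg z]
  · intro t ht0 ht1
    have h5 : ‖(t : ℂ) * z‖ = t * ‖z‖ := by
      rw [norm_mul, Complex.norm_real, Real.norm_of_nonneg ht0]
    have h6 : ‖(t : ℂ) * z‖ ≤ 1 - 4 / N := by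
      rw [h5]
      nlinarith [norm_nonneg z]
    rw [← h5]
    exact hpt _ h6

theorem Hf_small (κ : ℝ) (hκ : 0 < κ) (k : ℂ[X]) (ρ : ℝ) (hρ : ρ < 1) (ε : ℝ) (hε : 0 < ε) :
    ∀ᶠ Λ : ℝ in atTop, ∀ N : ℕ, NOK κ Λ N → ∀ z : ℂ, ‖z‖ ≤ ρ →
      ‖Hf k Λ N z‖ ≤ ε ∧ ‖z‖ ^ N ≤ ε := by
  obtain ⟨K, hK0, hK⟩ := exists_bound k
  set σ : ℝ := max ρ (1 / 2) with hσ
  have hσ1 : σ < 1 := max_lt hρ (by norm_num)
  have hσ0 : 0 < σ := lt_of_lt_of_le (by norm_num) (le_max_right _ _)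
  set δ : ℝ := min (ε / 4) (1 / 50) with hδ
  have hδ0 : 0 < δ := by positivity
  have t1 : Tendsto (fun n : ℕ => (n : ℝ) * σ ^ n) atTop (𝓝 0) :=
    tendsto_self_mul_const_pow_of_lt_one hσ0.le hσ1
  obtain ⟨n0, hn0⟩ := eventually_atTop.1 (t1.eventually (ge_mem_nhds hδ0))
  have e1 := NOK_ge_pow hκ (2 * k.natDegree + 2 + 2 * n0) 0
  have e2 := NOK_ge_pow hκ 4 1
  filter_upwards [e1, e2, eventually_ge_atTop (max 1 K)] with Λ h1 h2 h4 N hN z hz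
  have hΛ1 : 1 ≤ Λ := (le_max_left _ _).trans h4
  have hΛK : K ≤ Λ := (le_max_right _ _).trans h4
  have hNd : 2 * (k.natDegree : ℝ) + 2 + 2 * n0 ≤ N := by simpa using h1 N hN
  have hNd' : 2 * k.natDegree + 2 + 2 * n0 ≤ N := by exact_mod_cast hNd
  have hNΛ : 4 * Λ ≤ N := by simpa using h2 N hN
  set m := N - k.natDegree with hm
  have hmN : (m : ℝ) = N - k.natDegree := by
    rw [hm, Nat.cast_sub (by omega)]
  have hmn0 : n0 ≤ m := by omega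
  have hm1 : 1 ≤ m := by omega
  have hmΛ : Λ + K ≤ m := by
    rw [hmN]
    have : (0 : ℝ) ≤ n0 := Nat.cast_nonneg _
    linarith
  have hzσ : ‖z‖ ≤ σ := hz.trans (le_max_left _ _)
  have hz1 : ‖z‖ ≤ 1 := hzσ.trans hσ1.le
  have h5 : (m : ℝ) * ‖z‖ ^ m ≤ δ := by
    have h6 := hn0 m hmn0
    refine le_trans ?_ h6
    exact mul_le_mul_of_nonneg_left (pow_le_pow_left₀ (norm_nonneg _) hzσ m) (Nat.cast_nonneg _)
  have h6 : ‖z‖ ^ m ≤ δ := by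
    have h7 : (1 : ℝ) ≤ m := by exact_mod_cast hm1
    refine le_trans ?_ h5
    exact le_mul_of_one_le_left (by positivity) h7
  have h7 : ‖z‖ ^ N ≤ δ :=
    (pow_le_pow_of_le_one (norm_nonneg _) hz1 (Nat.sub_le _ _)).trans h6
  have hwb : z ∈ closedBall (0 : ℂ) 1 := by rwa [mem_closedBall_zero_iff]
  obtain ⟨k1, k2, -, -⟩ := hK z hwb
  have h8 := norm_Hf_le k hΛ1 (N := N) hz1 k1 k2 (h7.trans (min_le_right _ _))
  have h9 : (Λ + K) * ‖z‖ ^ m ≤ δ :=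
    (mul_le_mul_of_nonneg_right hmΛ (by positivity)).trans h5
  have h10 : δ ≤ ε / 4 := min_le_left _ _
  constructor
  · have h11 : 100 / 49 * (Λ + K) * ‖z‖ ^ m = 100 / 49 * ((Λ + K) * ‖z‖ ^ m) := by ring
    rw [h11] at h8
    linarith
  · linarith

end Pool.Agent.Helper61.Lac
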