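import Pool.Agent.Helper61.Lac.Base

/-!
# LC-3: the comparison function on the annulus `1 - 4 / N ≤ |z| ≤ 1`
-/

set_option autoImplicit false

open Filter Topology Metric Complex Polynomial Real
open scoped ComplexConjugate

namespace Pool.Agent.Helper61.Lac

/-- the comparison function `Γ` -/
noncomputable def Gf (k : ℂ[X]) (Λ : ℝ) (N : ℕ) (z : ℂ) : ℂ :=
  -(z * exp (k.eval z + Hf k Λ N z) / (2 * (rho Λ : ℂ) * N * Jf k Λ N z))

namespace LC3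

/-- `N` eventually beats every polynomial in `Λ`. -/
lemma NOK_large (κ : ℝ) (hκ : 0 < κ) (C : ℝ) (m : ℕ) :
    ∀ᶠ Λ : ℝ in atTop, ∀ N : ℕ, NOK κ Λ N → C * Λ ^ m ≤ N := by
  have h1 := (Real.tendsto_exp_div_pow_atTop (m + 2)).eventually_ge_atTop (4 * κ * C)
  filter_upwards [h1, eventually_gt_atTop 0] with Λ hΛ hΛ0 N hN
  rw [le_div_iff₀ (by positivity)] at hΛ
  have h2 := hN.lower
  have h3 : 4 * κ * Λ ^ 2 * (C * Λ ^ m) ≤ 4 * κ * Λ ^ 2 * N := by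
    calc 4 * κ * Λ ^ 2 * (C * Λ ^ m) = 4 * κ * C * Λ ^ (m + 2) := by ring
      _ ≤ Real.exp Λ := hΛ
      _ ≤ _ := h2
  exact le_of_mul_le_mul_left h3 (by positivity)

lemma exists_bound (p : ℂ[X]) : ∃ K : ℝ, 0 ≤ K ∧ ∀ z : ℂ, ‖z‖ ≤ 1 → ‖p.eval z‖ ≤ K := by
  have hc : IsCompact (closedBall (0 : ℂ) 1) := isCompact_closedBall _ _
  obtain ⟨K, hK⟩ := hc.exists_bound_of_continuousOn (f := fun z => p.eval z)
    p.continuous.continuousOn
  refine ⟨K, ?_, fun z hz => hK z (by simpa using hz)⟩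
  exact (norm_nonneg _).trans (hK 0 (by simp))

lemma exp_le_hundred : Real.exp (9 / 2) ≤ 100 := by
  have h1 : Real.exp (9 / 2) ^ 2 ≤ 100 ^ 2 := by
    rw [← Real.exp_nat_mul]
    have h2 : ((2 : ℕ) : ℝ) * (9 / 2) = ((9 : ℕ) : ℝ) * 1 := by norm_num
    rw [h2, Real.exp_nat_mul]
    have h3 := Real.exp_one_lt_d9
    calc Real.exp 1 ^ 9 ≤ (2.7182818286 : ℝ) ^ 9 :=
          pow_le_pow_left₀ (Real.exp_pos 1).le h3.le 9
      _ ≤ 100 ^ 2 := by norm_num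
  exact le_of_sq_le_sq h1 (by norm_num)

/-- on the annulus `|z| ^ N` is not small -/
lemma pow_lower {N : ℕ} (hN : 36 ≤ N) {t : ℝ} (ht : 1 - 4 / N ≤ t) : 1 / 100 ≤ t ^ N := by
  have hN' : (36 : ℝ) ≤ N := by exact_mod_cast hN
  have h0 : (0 : ℝ) < N := by linarith
  have h4 : (4 : ℝ) / N ≤ 1 / 9 := by
    rw [div_le_iff₀ h0]
    linarith
  have hx : 0 < 1 - 4 / (N : ℝ) := by linarith
  have h5 : Real.exp (-(4 / (N - 4))) ≤ 1 - 4 / (N : ℝ) := by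
    rw [Real.exp_neg]
    have h6 : (1 : ℝ) - 4 / N = ((4 : ℝ) / (N - 4) + 1)⁻¹ := by
      have h8 : (N : ℝ) - 4 ≠ 0 := by linarith
      have h9 : (N : ℝ) ≠ 0 := by linarith
      have h10 : (4 : ℝ) / (N - 4) + 1 = N / (N - 4) := by
        field_simp
        ring
      rw [h10, inv_div]
      field_simp
    rw [h6]
    have : 0 < (4 : ℝ) / (N - 4) := div_pos (by norm_num) (by linarith)
    exact inv_anti₀ (by linarith) (Real.add_one_le_exp _)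
  calc (1 : ℝ) / 100 ≤ (Real.exp (9 / 2))⁻¹ := by
        rw [one_div]
        exact inv_anti₀ (Real.exp_pos _) exp_le_hundred
    _ = Real.exp (-(9 / 2)) := (Real.exp_neg _).symm
    _ ≤ Real.exp (N * -(4 / (N - 4))) := by
        apply Real.exp_le_exp.2
        have : 0 < (N : ℝ) - 4 := by linarith
        have h7 : (N : ℝ) * -(4 / (N - 4)) = -(4 * N / (N - 4)) := by ring
        rw [h7, neg_le_neg_iff, div_le_iff₀ this]
        linarith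
    _ = Real.exp (-(4 / (N - 4))) ^ N := Real.exp_nat_mul _ _
    _ ≤ (1 - 4 / (N : ℝ)) ^ N := pow_le_pow_left₀ (Real.exp_pos _).le h5 _
    _ ≤ t ^ N := pow_le_pow_left₀ hx.le ht _

/-- lower bound for the polynomial `J`, with explicit hypotheses -/
lemma norm_Jf_lower' {k : ℂ[X]} {K Λ : ℝ} {N : ℕ} (hK : ∀ z : ℂ, ‖z‖ ≤ 1 → ‖k.eval z‖ ≤ K)
    (hK' : ∀ z : ℂ, ‖z‖ ≤ 1 → ‖(refl k).eval z‖ ≤ K) (hΛ : 0 ≤ Λ) (hΛK : 400 / 3 * K ≤ Λ)
    (hN : 36 ≤ N) {z : ℂ} (hz : 1 - 4 / N ≤ ‖z‖) (hz1 : ‖z‖ ≤ 1) :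
    Λ / 400 ≤ ‖Jf k Λ N z‖ := by
  have h1 := pow_lower hN hz
  have h2 : ‖z ^ N * (Λ : ℂ)‖ = ‖z‖ ^ N * Λ := by
    rw [norm_mul, norm_pow, Complex.norm_real, Real.norm_of_nonneg hΛ]
  have h3 : ‖z ^ N * k.eval z / 2‖ ≤ K / 2 := by
    rw [norm_div, norm_mul, norm_pow, Complex.norm_two]
    have : ‖z‖ ^ N * ‖k.eval z‖ ≤ 1 * K :=
      mul_le_mul (pow_le_one₀ (norm_nonneg _) hz1) (hK z hz1) (norm_nonneg _) zero_le_one
    linarith
  have h4 : ‖z ^ (N - k.natDegree) * (refl k).eval z / 2‖ ≤ K / 2 := by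
    rw [norm_div, norm_mul, norm_pow, Complex.norm_two]
    have : ‖z‖ ^ (N - k.natDegree) * ‖(refl k).eval z‖ ≤ 1 * K :=
      mul_le_mul (pow_le_one₀ (norm_nonneg _) hz1) (hK' z hz1) (norm_nonneg _) zero_le_one
    linarith
  have h5 : Jf k Λ N z = z ^ N * (Λ : ℂ) - (z ^ N * k.eval z / 2 +
      z ^ (N - k.natDegree) * (refl k).eval z / 2) := by
    rw [Jf]; ring
  rw [h5]
  have h6 := norm_sub_norm_le (z ^ N * (Λ : ℂ)) (z ^ N * k.eval z / 2 +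
      z ^ (N - k.natDegree) * (refl k).eval z / 2)
  have h7 := norm_add_le (z ^ N * k.eval z / 2) (z ^ (N - k.natDegree) * (refl k).eval z / 2)
  rw [h2] at h6
  have h8 : Λ / 100 ≤ ‖z‖ ^ N * Λ := by
    have := mul_le_mul_of_nonneg_right h1 hΛ
    linarith
  linarith

end LC3

open LC3

theorem norm_Jf_lower (κ : ℝ) (hκ : 0 < κ) (k : ℂ[X]) :
    ∀ᶠ Λ : ℝ in atTop, ∀ N : ℕ, NOK κ Λ N → ∀ z : ℂ, 1 - 4 / N ≤ ‖z‖ → ‖z‖ ≤ 1 →
      Λ / 400 ≤ ‖Jf k Λ N z‖ := by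
  obtain ⟨K₁, hK₁0, hK₁⟩ := exists_bound k
  obtain ⟨K₂, hK₂0, hK₂⟩ := exists_bound (refl k)
  filter_upwards [NOK_large κ hκ 36 0, eventually_ge_atTop (0 : ℝ),
    eventually_ge_atTop (400 / 3 * max K₁ K₂)] with Λ h1 h2 h3 N hN z hz hz1
  refine norm_Jf_lower' (K := max K₁ K₂) (fun z hz => (hK₁ z hz).trans (le_max_left _ _))
    (fun z hz => (hK₂ z hz).trans (le_max_right _ _)) h2 h3 ?_ hz hz1
  have := h1 N hN
  rw [pow_zero, mul_one] at this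
  exact_mod_cast this

namespace LC3

/-- the bounded part of the derivative of `J` -/
noncomputable def Sf (k : ℂ[X]) (N : ℕ) (z : ℂ) : ℂ :=
  -(z ^ N * k.derivative.eval z / 2) + k.natDegree * (z ^ (N - k.natDegree) / z) *
    (refl k).eval z / 2 - z ^ (N - k.natDegree) * (refl k).derivative.eval z / 2

lemma hasDerivAt_pow' (n : ℕ) {z : ℂ} (hz : z ≠ 0) :
    HasDerivAt (fun z : ℂ => z ^ n) (n * (z ^ n / z)) z := by
  have h := hasDerivAt_pow n z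
  have h1 : (n : ℂ) * (z ^ n / z) = n * z ^ (n - 1) := by
    rcases n with _ | n
    · simp
    · rw [pow_succ, mul_div_assoc, div_self hz, mul_one, Nat.add_sub_cancel]
  rw [h1]
  exact h

lemma hasDerivAt_Jf (k : ℂ[X]) (Λ : ℝ) {N : ℕ} (hN : k.natDegree ≤ N) {z : ℂ} (hz : z ≠ 0) :
    HasDerivAt (Jf k Λ N) (N * Jf k Λ N z / z + Sf k N z) z := by
  have h1 := hasDerivAt_pow' N hz
  have h2 := hasDerivAt_pow' (N - k.natDegree) hz
  have h3 := k.hasDerivAt z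
  have h4 := (refl k).hasDerivAt z
  have h5 := ((h1.mul_const (Λ : ℂ)).sub ((h1.mul h3).div_const 2)).sub
    ((h2.mul h4).div_const 2)
  have h6 : HasDerivAt (Jf k Λ N) _ z := h5
  convert h6 using 1
  rw [Jf, Sf, Nat.cast_sub hN]
  field_simp
  ring

lemma hasDerivAt_Hf (k : ℂ[X]) (Λ : ℝ) {N : ℕ} (hN : k.natDegree ≤ N) {z : ℂ} (hz : z ≠ 0)
    (h0 : 1 - (rho Λ : ℂ) * z ^ N ≠ 0) :
    HasDerivAt (Hf k Λ N) (-(2 * (rho Λ : ℂ) * N * Jf k Λ N z / z) / (1 - rho Λ * z ^ N) ^ 2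
      - 2 * (rho Λ : ℂ) * Sf k N z / (1 - rho Λ * z ^ N)) z := by
  have h1 := hasDerivAt_pow' N hz
  have h2 := hasDerivAt_Jf k Λ hN hz
  have h3 : HasDerivAt (fun z : ℂ => 1 - (rho Λ : ℂ) * z ^ N) (-((rho Λ : ℂ) * (N * (z ^ N / z)))) z := by
    simpa using (h1.const_mul (rho Λ : ℂ)).const_sub 1
  have h4 := (((h2.const_mul (2 * (rho Λ : ℂ))).div h3 h0)).neg
  have h5 : HasDerivAt (Hf k Λ N) _ z := h4
  convert h5 using 1
  field_simp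
  ring

lemma hasDerivAt_Gf (k : ℂ[X]) (Λ : ℝ) {N : ℕ} (hN : k.natDegree ≤ N) {z : ℂ} (hz : z ≠ 0)
    (h0 : 1 - (rho Λ : ℂ) * z ^ N ≠ 0) (hJ : Jf k Λ N z ≠ 0) (hρ : (rho Λ : ℂ) ≠ 0)
    (hN0 : (N : ℂ) ≠ 0) :
    HasDerivAt (Gf k Λ N) (Ef k Λ N z + Gf k Λ N z * (1 / z + k.derivative.eval z - N / z
      - Sf k N z / Jf k Λ N z - 2 * (rho Λ : ℂ) * Sf k N z / (1 - rho Λ * z ^ N))) z := by
  have h1 := hasDerivAt_Jf k Λ hN hz
  have h2 := hasDerivAt_Hf k Λ hN hz h0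
  have h3 := k.hasDerivAt z
  have h4 := (h3.add h2).cexp
  have h5 : HasDerivAt (fun z : ℂ => 2 * (rho Λ : ℂ) * N * Jf k Λ N z) _ z :=
    h1.const_mul (2 * (rho Λ : ℂ) * N)
  have h6 : 2 * (rho Λ : ℂ) * N * Jf k Λ N z ≠ 0 :=
    mul_ne_zero (mul_ne_zero (mul_ne_zero two_ne_zero hρ) hN0) hJ
  have h7 := ((((hasDerivAt_id z).mul h4).div h5 h6)).neg
  have h8 : HasDerivAt (Gf k Λ N) _ z := h7
  convert h8 using 1
  rw [Ef, Gf]
  simp only [id, Pi.add_apply, Pi.mul_apply]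
  generalize exp (eval z k + Hf k Λ N z) = e at *
  generalize Jf k Λ N z = J at *
  generalize Sf k N z = S at *
  generalize z ^ N = q at *
  generalize (rho Λ : ℂ) = r at *
  generalize (N : ℂ) = n at *
  field_simp
  ring

lemma rho_le {Λ : ℝ} (hΛ : 2 ≤ Λ) : 1 / 2 ≤ rho Λ ∧ rho Λ < 1 := by
  have h1 : (8 : ℝ) ≤ Λ ^ 3 := by
    calc (8 : ℝ) = 2 ^ 3 := by norm_num
      _ ≤ Λ ^ 3 := pow_le_pow_left₀ (by norm_num) hΛ 3
  have h2 : (Λ ^ 3)⁻¹ ≤ 8⁻¹ := inv_anti₀ (by norm_num) h1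
  have h3 : 0 < (Λ ^ 3)⁻¹ := inv_pos.2 (by linarith)
  rw [rho]
  constructor <;> linarith

lemma norm_den {Λ : ℝ} (hΛ : 2 ≤ Λ) {N : ℕ} {z : ℂ} (hz : ‖z‖ ≤ 1) :
    (Λ ^ 3)⁻¹ ≤ ‖1 - (rho Λ : ℂ) * z ^ N‖ := by
  obtain ⟨h1, h2⟩ := rho_le hΛ
  have h3 : ‖(rho Λ : ℂ) * z ^ N‖ ≤ rho Λ := by
    rw [norm_mul, norm_pow, Complex.norm_real, Real.norm_of_nonneg (by linarith)]
    have := mul_le_mul_of_nonneg_left (pow_le_one₀ (n := N) (norm_nonneg z) hz)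
      (show 0 ≤ rho Λ by linarith)
    linarith
  have h4 := norm_sub_norm_le (1 : ℂ) ((rho Λ : ℂ) * z ^ N)
  rw [norm_one] at h4
  have h5 : (Λ ^ 3)⁻¹ = 1 - rho Λ := by rw [rho]; ring
  linarith

lemma den_ne {Λ : ℝ} (hΛ : 2 ≤ Λ) {N : ℕ} {z : ℂ} (hz : ‖z‖ ≤ 1) :
    1 - (rho Λ : ℂ) * z ^ N ≠ 0 := by
  intro h
  have h1 := norm_den hΛ (N := N) hz
  rw [h, norm_zero] at h1
  have : 0 < (Λ ^ 3)⁻¹ := inv_pos.2 (by positivity)
  linarith

lemma norm_Sf_le {k : ℂ[X]} {K : ℝ} {N : ℕ}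
    (hK' : ∀ z : ℂ, ‖z‖ ≤ 1 → ‖k.derivative.eval z‖ ≤ K)
    (hR : ∀ z : ℂ, ‖z‖ ≤ 1 → ‖(refl k).eval z‖ ≤ K)
    (hR' : ∀ z : ℂ, ‖z‖ ≤ 1 → ‖(refl k).derivative.eval z‖ ≤ K) {z : ℂ} (hz : 1 / 2 ≤ ‖z‖)
    (hz1 : ‖z‖ ≤ 1) : ‖Sf k N z‖ ≤ (1 + k.natDegree) * K := by
  have hz0 : (0 : ℝ) < ‖z‖ := by linarith
  have h3 : ‖z ^ N * k.derivative.eval z / 2‖ ≤ K / 2 := by
    rw [norm_div, norm_mul, norm_pow, Complex.norm_two]
    have : ‖z‖ ^ N * ‖k.derivative.eval z‖ ≤ 1 * K :=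
      mul_le_mul (pow_le_one₀ (norm_nonneg _) hz1) (hK' z hz1) (norm_nonneg _) zero_le_one
    linarith
  have h4 : ‖z ^ (N - k.natDegree) * (refl k).derivative.eval z / 2‖ ≤ K / 2 := by
    rw [norm_div, norm_mul, norm_pow, Complex.norm_two]
    have : ‖z‖ ^ (N - k.natDegree) * ‖(refl k).derivative.eval z‖ ≤ 1 * K :=
      mul_le_mul (pow_le_one₀ (norm_nonneg _) hz1) (hR' z hz1) (norm_nonneg _) zero_le_one
    linarith
  have h5 : ‖(k.natDegree : ℂ) * (z ^ (N - k.natDegree) / z) * (refl k).eval z / 2‖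
      ≤ k.natDegree * K := by
    rw [norm_div, norm_mul, norm_mul, norm_div, norm_pow, Complex.norm_two, Complex.norm_natCast]
    have h6 : ‖z‖ ^ (N - k.natDegree) / ‖z‖ ≤ 2 := by
      rw [div_le_iff₀ hz0]
      have := pow_le_one₀ (n := N - k.natDegree) (norm_nonneg z) hz1
      linarith
    have h7 : (k.natDegree : ℝ) * (‖z‖ ^ (N - k.natDegree) / ‖z‖) ≤ k.natDegree * 2 :=
      mul_le_mul_of_nonneg_left h6 (Nat.cast_nonneg _)
    have h8 : (k.natDegree : ℝ) * (‖z‖ ^ (N - k.natDegree) / ‖z‖) * ‖(refl k).eval z‖ ≤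
        k.natDegree * 2 * K :=
      mul_le_mul h7 (hR z hz1) (norm_nonneg _) (by positivity)
    linarith
  rw [Sf]
  refine (norm_sub_le _ _).trans ?_
  have h9 := norm_add_le (-(z ^ N * k.derivative.eval z / 2))
    ((k.natDegree : ℂ) * (z ^ (N - k.natDegree) / z) * (refl k).eval z / 2)
  rw [norm_neg] at h9
  linarith

end LC3

theorem Gf_deriv (κ : ℝ) (hκ : 0 < κ) (k : ℂ[X]) :
    ∃ C : ℝ, ∀ᶠ Λ : ℝ in atTop, ∀ N : ℕ, NOK κ Λ N → ∀ z : ℂ, 1 - 4 / N ≤ ‖z‖ → ‖z‖ ≤ 1 →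
      ∃ D : ℂ, HasDerivAt (Gf k Λ N) D z ∧
        ‖D - Ef k Λ N z‖ ≤ C / Λ * ‖exp (k.eval z + Hf k Λ N z)‖ := by
  obtain ⟨K₁, hK₁0, hK₁⟩ := exists_bound k.derivative
  obtain ⟨K₂, hK₂0, hK₂⟩ := exists_bound (refl k)
  obtain ⟨K₃, hK₃0, hK₃⟩ := exists_bound (refl k).derivative
  set K := max K₁ (max K₂ K₃) with hKdef
  have hK0 : 0 ≤ K := hK₁0.trans (le_max_left _ _)
  set M := (1 + (k.natDegree : ℝ)) * K with hM
  have hM0 : 0 ≤ M := by positivity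
  refine ⟨1200, ?_⟩
  filter_upwards [norm_Jf_lower κ hκ k, NOK_large κ hκ 36 0, NOK_large κ hκ k.natDegree 0,
    NOK_large κ hκ (2 + K + M + 2 * M) 3, eventually_ge_atTop (400 : ℝ)]
    with Λ hJ h1 h2 h3 hΛ N hN z hz hz1
  have hJz := hJ N hN z hz hz1
  have hN36 : (36 : ℝ) ≤ N := by simpa using h1 N hN
  have hNd : k.natDegree ≤ N := by
    have := h2 N hN
    rw [pow_zero, mul_one] at this
    exact_mod_cast this
  have hN3 := h3 N hN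
  have hN0 : (0 : ℝ) < N := by linarith
  have h4 : (4 : ℝ) / N ≤ 1 / 9 := by
    rw [div_le_iff₀ hN0]
    linarith
  have hzl : 1 / 2 ≤ ‖z‖ := by linarith
  have hz0 : z ≠ 0 := by
    rintro rfl
    rw [norm_zero] at hzl
    norm_num at hzl
  have hΛ2 : 2 ≤ Λ := by linarith
  obtain ⟨hρ1, hρ2⟩ := rho_le hΛ2
  have hden := den_ne hΛ2 (N := N) hz1
  have hJpos : 0 < ‖Jf k Λ N z‖ := by linarith
  have hJ0 : Jf k Λ N z ≠ 0 := norm_pos_iff.1 hJpos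
  have hρ0 : (rho Λ : ℂ) ≠ 0 := by
    have : rho Λ ≠ 0 := by linarith
    exact_mod_cast this
  have hNc : (N : ℂ) ≠ 0 := by
    have : (N : ℝ) ≠ 0 := hN0.ne'
    exact_mod_cast this
  refine ⟨_, hasDerivAt_Gf k Λ hNd hz0 hden hJ0 hρ0 hNc, ?_⟩
  rw [add_sub_cancel_left, norm_mul]
  have hS : ‖Sf k N z‖ ≤ M := norm_Sf_le
    (fun z hz => (hK₁ z hz).trans (le_max_left _ _))
    (fun z hz => (hK₂ z hz).trans ((le_max_left _ _).trans (le_max_right _ _)))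
    (fun z hz => (hK₃ z hz).trans ((le_max_right _ _).trans (le_max_right _ _))) hzl hz1
  -- the bracket
  have b1 : ‖1 / z‖ ≤ 2 := by
    rw [norm_div, norm_one, div_le_iff₀ (by linarith)]
    linarith
  have b2 : ‖k.derivative.eval z‖ ≤ K := (hK₁ z hz1).trans (le_max_left _ _)
  have b3 : ‖(N : ℂ) / z‖ ≤ 2 * N := by
    rw [norm_div, Complex.norm_natCast, div_le_iff₀ (by linarith)]
    nlinarith
  have b4 : ‖Sf k N z / Jf k Λ N z‖ ≤ M := by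
    rw [norm_div, div_le_iff₀ hJpos]
    have : M * 1 ≤ M * ‖Jf k Λ N z‖ := mul_le_mul_of_nonneg_left (by linarith) hM0
    linarith
  have b5 : ‖2 * (rho Λ : ℂ) * Sf k N z / (1 - rho Λ * z ^ N)‖ ≤ 2 * M * Λ ^ 3 := by
    have hd := norm_den hΛ2 (N := N) hz1
    have hΛ3 : 0 < Λ ^ 3 := by positivity
    have hdp : 0 < ‖1 - (rho Λ : ℂ) * z ^ N‖ := norm_pos_iff.2 hden
    rw [norm_div, norm_mul, norm_mul, Complex.norm_two, Complex.norm_real,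
      Real.norm_of_nonneg (by linarith), div_le_iff₀ hdp]
    have h5 : 2 * rho Λ * ‖Sf k N z‖ ≤ 2 * M := by
      have : rho Λ * ‖Sf k N z‖ ≤ 1 * M :=
        mul_le_mul hρ2.le hS (norm_nonneg _) zero_le_one
      linarith
    have h6 : 2 * M * Λ ^ 3 * (Λ ^ 3)⁻¹ ≤ 2 * M * Λ ^ 3 * ‖1 - (rho Λ : ℂ) * z ^ N‖ :=
      mul_le_mul_of_nonneg_left hd (by positivity)
    rw [mul_assoc, mul_inv_cancel₀ hΛ3.ne', mul_one] at h6
    linarith
  have hbr : ‖1 / z + k.derivative.eval z - N / z - Sf k N z / Jf k Λ N z -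
      2 * (rho Λ : ℂ) * Sf k N z / (1 - rho Λ * z ^ N)‖ ≤ 3 * N := by
    have hΛ3 : 1 ≤ Λ ^ 3 := one_le_pow₀ (by linarith)
    have h5 : 2 + K + M + 2 * M * Λ ^ 3 ≤ N := by
      refine le_trans ?_ hN3
      have : (2 + K + M) * 1 ≤ (2 + K + M) * Λ ^ 3 :=
        mul_le_mul_of_nonneg_left hΛ3 (by positivity)
      linarith
    have c1 := norm_sub_le (1 / z + k.derivative.eval z - N / z - Sf k N z / Jf k Λ N z)
      (2 * (rho Λ : ℂ) * Sf k N z / (1 - rho Λ * z ^ N))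
    have c2 := norm_sub_le (1 / z + k.derivative.eval z - N / z) (Sf k N z / Jf k Λ N z)
    have c3 := norm_sub_le (1 / z + k.derivative.eval z) (N / z)
    have c4 := norm_add_le (1 / z) (k.derivative.eval z)
    linarith
  have hG : ‖Gf k Λ N z‖ ≤ 400 / (N * Λ) * ‖exp (k.eval z + Hf k Λ N z)‖ := by
    rw [Gf, norm_neg, norm_div, norm_mul, norm_mul, norm_mul, norm_mul, Complex.norm_two,
      Complex.norm_real, Real.norm_of_nonneg (show 0 ≤ rho Λ by linarith), Complex.norm_natCast]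
    have he : 0 ≤ ‖exp (k.eval z + Hf k Λ N z)‖ := norm_nonneg _
    have hd : N * Λ / 400 ≤ 2 * rho Λ * N * ‖Jf k Λ N z‖ := by
      calc (N : ℝ) * Λ / 400 = 1 * N * (Λ / 400) := by ring
        _ ≤ 2 * rho Λ * N * ‖Jf k Λ N z‖ :=
          mul_le_mul (mul_le_mul_of_nonneg_right (by linarith) hN0.le) hJz (by linarith)
            (by positivity)
    have hp : 0 < (N : ℝ) * Λ / 400 := by
      have : 0 < Λ := by linarith
      positivity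
    calc ‖z‖ * ‖exp (k.eval z + Hf k Λ N z)‖ / (2 * rho Λ * N * ‖Jf k Λ N z‖)
        ≤ 1 * ‖exp (k.eval z + Hf k Λ N z)‖ / (N * Λ / 400) :=
          div_le_div₀ (by linarith) (mul_le_mul_of_nonneg_right hz1 he) hp hd
      _ = 400 / (N * Λ) * ‖exp (k.eval z + Hf k Λ N z)‖ := by
          have : Λ ≠ 0 := by linarith
          field_simp
  have hfin := mul_le_mul hG hbr (norm_nonneg _) (by
    have : 0 < Λ := by linarith
    positivity)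
  refine hfin.trans (le_of_eq ?_)
  have : Λ ≠ 0 := by linarith
  field_simp
  norm_num

end Pool.Agent.Helper61.Lac
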