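import Pool.Agent.Helper61.Lac.LC2
import Pool.Agent.Helper61.Lac.LC3
import Pool.Agent.Helper61.Lac.LC4

/-!
# LC-5: the estimate of `V` on the unit circle
-/

set_option autoImplicit false

open Filter Topology Metric Complex Polynomial Real
open scoped ComplexConjugate

namespace Pool.Agent.Helper61.Lac

namespace LC5

lemma exp_neg_le_linear {y : ℝ} (h0 : 0 ≤ y) (h4 : y ≤ 4) : Real.exp (-y) ≤ 1 - y / 5 := by
  have h1 := Real.quadratic_le_exp_of_nonneg h0
  have h2 : 0 < 1 - y / 5 := by linarith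
  rw [Real.exp_neg, inv_le_comm₀ (Real.exp_pos _) h2]
  refine le_trans ?_ h1
  rw [inv_eq_one_div, div_le_iff₀ h2]
  nlinarith [mul_nonneg h0 (sub_nonneg.2 h4), mul_nonneg (mul_nonneg h0 h0) (sub_nonneg.2 h4)]

/-- `1 - t ^ N ≥ N (1 - t) / 5` near `1` -/
lemma one_sub_pow_ge {N : ℕ} (hN : 4 ≤ N) {t : ℝ} (h0 : 1 - 4 / N ≤ t) (h1 : t ≤ 1) :
    N * (1 - t) / 5 ≤ 1 - t ^ N := by
  have hN0 : (0 : ℝ) < N := by
    have : (4 : ℝ) ≤ N := by exact_mod_cast hN
    linarith
  have h2 : 0 ≤ t := by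
    have : 4 / (N : ℝ) ≤ 1 := by
      rw [div_le_one hN0]
      exact_mod_cast hN
    linarith
  have h3 : t ^ N ≤ Real.exp (-(N * (1 - t))) := by
    have h4 : t ≤ Real.exp (-(1 - t)) := by
      have := Real.add_one_le_exp (-(1 - t))
      linarith
    calc t ^ N ≤ Real.exp (-(1 - t)) ^ N := pow_le_pow_left₀ h2 h4 N
      _ = Real.exp (-(N * (1 - t))) := by
        rw [← Real.exp_nat_mul]
        ring_nf
  have h5 : (N : ℝ) * (1 - t) ≤ 4 := by
    have h6 : 1 - t ≤ 4 / N := by linarith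
    rw [le_div_iff₀ hN0] at h6
    linarith
  have h6 := exp_neg_le_linear (mul_nonneg hN0.le (by linarith : 0 ≤ 1 - t)) h5
  linarith

lemma norm_Gf (k : ℂ[X]) {Λ : ℝ} (hr : 0 ≤ rho Λ) (N : ℕ) (z : ℂ) :
    ‖Gf k Λ N z‖ = ‖z‖ * Real.exp (k.eval z + Hf k Λ N z).re /
      (2 * rho Λ * N * ‖Jf k Λ N z‖) := by
  have h5 : ‖(2 : ℂ)‖ = 2 := by norm_num
  unfold Gf
  rw [norm_neg, norm_div, norm_mul, norm_mul, norm_mul, norm_mul, Complex.norm_exp,
    Complex.norm_real, Complex.norm_natCast, Real.norm_of_nonneg hr, h5]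

end LC5

open LC5

theorem circle_est (κ : ℝ) (hκ : 0 < κ) (k : ℂ[X]) :
    ∃ C : ℝ, ∀ᶠ Λ : ℝ in atTop, ∀ N : ℕ, NOK κ Λ N → ∀ V : ℂ → ℂ, IsV k Λ N V →
      ∀ z : ℂ, ‖z‖ = 1 →
        |‖V z‖ - Real.exp (Λ - (Λ - (k.eval z).re) * Xf Λ N z) /
          (2 * rho Λ * N * (Λ - (k.eval z).re))| ≤ C := by
  obtain ⟨K, hK0, hK⟩ := LC2.exists_bound k
  obtain ⟨C3, hC3⟩ := Gf_deriv κ hκ k
  obtain ⟨K4, hK40, hK4⟩ := exponent_annulus κ hκ k
  have a1 := LC2.NOK_ge_pow hκ (k.natDegree + 36) 0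
  have a2 := LC2.NOK_ge hκ
  have a3 := inside κ hκ k
  have a4 := norm_Jf_lower κ hκ k
  have a5 : ∀ᶠ Λ : ℝ in atTop, 1600 * κ * Real.exp (2 + 49 / 100 * K4) * Λ ^ 1 ≤
      Real.exp (49 / 100 * Λ) := LC2.ev_pow_le_exp _ 1 (by norm_num)
  refine ⟨2 + 4 * Real.exp K + 80 * |C3| * Real.exp 2 * κ, ?_⟩
  filter_upwards [a1, a2, a3, a4, a5, hC3, hK4, eventually_ge_atTop (max 2 (max (2 * K) (2 * K4)))]
    with Λ b1 b2 b3 b4 b5 b6 b7 b8 N hN V hV z hz
  have hΛ2 : 2 ≤ Λ := (le_max_left _ _).trans b8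
  have hΛK : 2 * K ≤ Λ := (le_max_left _ _).trans ((le_max_right _ _).trans b8)
  have hΛK4 : 2 * K4 ≤ Λ := (le_max_right _ _).trans ((le_max_right _ _).trans b8)
  have hNd : (k.natDegree : ℝ) + 36 ≤ N := by simpa using b1 N hN
  have hNd' : k.natDegree + 36 ≤ N := by exact_mod_cast hNd
  have hN36 : (36 : ℝ) ≤ N := by
    have : (0 : ℝ) ≤ k.natDegree := Nat.cast_nonneg _
    linarith
  have hN0 : (0 : ℝ) < N := by linarith
  have hNexp := b2 N hN
  have hNlow := hN.lower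
  obtain ⟨hrho1, hrho2⟩ := LC3.rho_le hΛ2
  set t0 : ℝ := 1 - 4 / N with ht0
  have h4N : 0 < 4 / (N : ℝ) := by positivity
  have h4N1 : 4 / (N : ℝ) ≤ 1 / 9 := by
    rw [div_le_div_iff₀ hN0 (by norm_num)]
    linarith
  have ht00 : 0 < t0 := by linarith
  have ht01 : t0 < 1 := by linarith
  have hnt : ∀ t : ℝ, 0 ≤ t → ‖(t : ℂ) * z‖ = t := by
    intro t ht
    rw [norm_mul, Complex.norm_real, Real.norm_of_nonneg ht, hz, mul_one]
  -- bound for `exp (Λ) / N`
  have hexpN : Real.exp Λ / N ≤ 4 * κ * Λ ^ 2 := by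
    rw [div_le_iff₀ hN0]
    exact hNlow
  -- value at `t0`
  have hV0 : ‖V (t0 * z)‖ ≤ 1 := by
    have h1 := b3 N hN V hV (t0 * z) (by rw [hnt t0 ht00.le])
    rw [hnt t0 ht00.le] at h1
    have h2 : t0 ^ (N - k.natDegree) ≤ 1 := pow_le_one₀ ht00.le ht01.le
    have h3 : Real.exp (Λ / 3) / N ≤ 1 := by
      rw [div_le_one hN0]
      refine le_trans (Real.exp_le_exp.2 ?_) hNexp
      linarith
    have h4 : 0 ≤ Real.exp (Λ / 3) / N := by positivity
    calc ‖V (t0 * z)‖ ≤ Real.exp (Λ / 3) / N * t0 ^ (N - k.natDegree) := h1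
      _ ≤ 1 * 1 := mul_le_mul h3 h2 (by positivity) zero_le_one
      _ = 1 := one_mul 1
  have hG0 : ‖Gf k Λ N (t0 * z)‖ ≤ 1 := by
    have h1 := b7 N hN (t0 * z) (by rw [hnt t0 ht00.le]) (by rw [hnt t0 ht00.le]; exact ht01.le)
    have h2 := b4 N hN (t0 * z) (by rw [hnt t0 ht00.le]) (by rw [hnt t0 ht00.le]; exact ht01.le)
    rw [hnt t0 ht00.le] at h1
    have h3 : t0 ^ N ≤ 1 / 50 := by
      have h5 := LC2.pow_le_exp_neg (m := N) ht00.le (le_of_eq ht0)
      rw [mul_div_assoc, div_self hN0.ne', mul_one] at h5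
      exact h5.trans LC2.exp_neg_four_le
    have h4 : (k.eval (t0 * z) + Hf k Λ N (t0 * z)).re ≤
        Λ + 2 - 49 / 100 * (Λ - K4) := by
      have h5 : 0 ≤ Λ - K4 := by linarith
      nlinarith
    rw [norm_Gf k (by linarith), hnt t0 ht00.le]
    have hden : N * Λ / 400 ≤ 2 * rho Λ * N * ‖Jf k Λ N (t0 * z)‖ := by
      have h6 : 1 * N * (Λ / 400) ≤ 2 * rho Λ * N * ‖Jf k Λ N (t0 * z)‖ := by
        refine mul_le_mul ?_ h2 (by positivity) (by positivity)
        exact mul_le_mul_of_nonneg_right (by linarith) hN0.le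
      linarith
    have hden0 : 0 < N * Λ / 400 := by positivity
    rw [div_le_one (lt_of_lt_of_le hden0 hden)]
    refine le_trans ?_ hden
    have h7 : t0 * Real.exp ((k.eval (t0 * z) + Hf k Λ N (t0 * z)).re) ≤
        Real.exp (Λ + 2 - 49 / 100 * (Λ - K4)) := by
      have := Real.exp_le_exp.2 h4
      nlinarith [Real.exp_pos ((k.eval (t0 * z) + Hf k Λ N (t0 * z)).re)]
    refine h7.trans ?_
    have h8 : Real.exp (Λ + 2 - 49 / 100 * (Λ - K4)) * Real.exp (49 / 100 * Λ) =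
        Real.exp (2 + 49 / 100 * K4) * Real.exp Λ := by
      rw [← Real.exp_add, ← Real.exp_add]
      ring_nf
    have h9 : Real.exp (2 + 49 / 100 * K4) * Real.exp Λ ≤
        Real.exp (49 / 100 * Λ) * (N * Λ / 400) := by
      have h10 : 1600 * κ * Real.exp (2 + 49 / 100 * K4) * Λ ≤ Real.exp (49 / 100 * Λ) := by
        simpa using b5
      calc Real.exp (2 + 49 / 100 * K4) * Real.exp Λ
          ≤ Real.exp (2 + 49 / 100 * K4) * (4 * κ * Λ ^ 2 * N) :=
            mul_le_mul_of_nonneg_left hNlow (Real.exp_pos _).le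
        _ = (1600 * κ * Real.exp (2 + 49 / 100 * K4) * Λ) * (N * Λ / 400) := by ring
        _ ≤ Real.exp (49 / 100 * Λ) * (N * Λ / 400) :=
            mul_le_mul_of_nonneg_right h10 hden0.le
    rw [← h8, mul_comm] at h9
    exact le_of_mul_le_mul_left h9 (Real.exp_pos _)
  -- the difference
  set D : ℝ → ℂ := fun t => if h : t0 ≤ t ∧ t ≤ 1 then
    (b6 N hN (t * z) (by rw [hnt t (ht00.le.trans h.1)]; exact h.1)
      (by rw [hnt t (ht00.le.trans h.1)]; exact h.2)).choose else 0 with hD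
  have hDs : ∀ t : ℝ, t0 ≤ t → t ≤ 1 → HasDerivAt (Gf k Λ N) (D t) (t * z) ∧
      ‖D t - Ef k Λ N (t * z)‖ ≤ C3 / Λ * ‖exp (k.eval (t * z) + Hf k Λ N (t * z))‖ := by
    intro t h1 h2
    have h3 := (b6 N hN (t * z) (by rw [hnt t (ht00.le.trans h1)]; exact h1)
      (by rw [hnt t (ht00.le.trans h1)]; exact h2)).choose_spec
    have h4 : D t = (b6 N hN (t * z) (by rw [hnt t (ht00.le.trans h1)]; exact h1)
      (by rw [hnt t (ht00.le.trans h1)]; exact h2)).choose := dif_pos ⟨h1, h2⟩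
    rw [h4]
    exact h3
  set a : ℝ := (Λ - K4) * N / 10 with ha
  have ha0 : 0 < a := by
    have : 0 < Λ - K4 := by linarith
    positivity
  set M : ℝ := |C3| / Λ * Real.exp (Λ + 2) with hM
  have hM0 : 0 ≤ M := by positivity
  have key := image_norm_le_of_norm_deriv_right_le_deriv_boundary'
    (f := fun t : ℝ => V (t * z) - Gf k Λ N (t * z))
    (f' := fun t : ℝ => (Ef k Λ N (t * z) - exp (k.eval (t * z))) * z - D t * z)
    (a := t0) (b := 1)
    (B := fun t : ℝ => 2 + Real.exp K * (t - t0) + M / a * Real.exp (-(a * (1 - t))))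
    (B' := fun t : ℝ => Real.exp K + M * Real.exp (-(a * (1 - t)))) ?_ ?_ ?_ ?_ ?_ ?_
  · have h1 := key (x := 1) ⟨ht01.le, le_refl _⟩
    simp only [Complex.ofReal_one, one_mul, sub_self, mul_zero, neg_zero, Real.exp_zero,
      mul_one] at h1
    have hMa : M / a ≤ 80 * |C3| * Real.exp 2 * κ := by
      rw [div_le_iff₀ ha0]
      have h2 : Real.exp Λ ≤ 4 * κ * Λ ^ 2 * N := hNlow
      have h3 : M = |C3| / Λ * Real.exp 2 * Real.exp Λ := by
        rw [hM, Real.exp_add]
        ring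
      have h4 : M ≤ |C3| / Λ * Real.exp 2 * (4 * κ * Λ ^ 2 * N) := by
        rw [h3]
        exact mul_le_mul_of_nonneg_left h2 (by positivity)
      have h5 : |C3| / Λ * Real.exp 2 * (4 * κ * Λ ^ 2 * N) =
          4 * |C3| * Real.exp 2 * κ * N * Λ := by
        field_simp
      have h6 : 80 * |C3| * Real.exp 2 * κ * a = 8 * |C3| * Real.exp 2 * κ * N * (Λ - K4) := by
        rw [ha]
        ring
      rw [h6]
      refine h4.trans ?_
      rw [h5]
      have h7 : 0 ≤ 4 * |C3| * Real.exp 2 * κ * N := by positivity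
      have h8 : 4 * |C3| * Real.exp 2 * κ * N * Λ ≤
          4 * |C3| * Real.exp 2 * κ * N * (2 * (Λ - K4)) :=
        mul_le_mul_of_nonneg_left (by linarith) h7
      linarith
    have hexpK : Real.exp K * (1 - t0) ≤ 4 * Real.exp K := by
      have : 1 - t0 ≤ 4 := by
        rw [ht0]
        linarith
      nlinarith [Real.exp_pos K]
    have hmain : ‖V z - Gf k Λ N z‖ ≤ 2 + 4 * Real.exp K + 80 * |C3| * Real.exp 2 * κ := by
      linarith
    -- the explicit value
    obtain ⟨c1, c2⟩ := exponent_circle k hΛ2 (by omega : k.natDegree ≤ N) hz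
    have hlam : 0 < Λ - (k.eval z).re := by
      have h2 := (hK z (by rw [mem_closedBall_zero_iff, hz])).1
      have h3 := (Complex.re_le_norm (k.eval z)).trans h2
      linarith
    have hGz : ‖Gf k Λ N z‖ = Real.exp (Λ - (Λ - (k.eval z).re) * Xf Λ N z) /
        (2 * rho Λ * N * (Λ - (k.eval z).re)) := by
      rw [norm_Gf k (by linarith), hz, one_mul, c1, c2, abs_of_pos hlam]
    rw [← hGz]
    exact (abs_norm_sub_norm_le _ _).trans hmain
  · intro t ht
    have h2 : HasDerivAt (fun t : ℝ => (t : ℂ) * z) z t := by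
      simpa using (Complex.ofRealCLM.hasDerivAt (x := t)).mul_const z
    have h3 := (hV.deriv (t * z) (by
      rw [mem_closedBall_zero_iff, hnt t (ht00.le.trans ht.1)]; exact ht.2)).comp t h2
    have h4 := (hDs t ht.1 ht.2).1.comp t h2
    exact (h3.sub h4).continuousAt.continuousWithinAt
  · intro t ht
    have h2 : HasDerivAt (fun t : ℝ => (t : ℂ) * z) z t := by
      simpa using (Complex.ofRealCLM.hasDerivAt (x := t)).mul_const z
    have h3 := (hV.deriv (t * z) (by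
      rw [mem_closedBall_zero_iff, hnt t (ht00.le.trans ht.1)]; exact ht.2.le)).comp t h2
    have h4 := (hDs t ht.1 ht.2.le).1.comp t h2
    exact (h3.sub h4).hasDerivWithinAt
  · have h1 := norm_sub_le (V (t0 * z)) (Gf k Λ N (t0 * z))
    have h2 : 0 ≤ M / a * Real.exp (-(a * (1 - t0))) := by positivity
    simp only [sub_self, mul_zero]
    linarith
  · refine Continuous.continuousOn ?_
    fun_prop
  · intro t _
    have h1 : HasDerivAt (fun t : ℝ => Real.exp (-(a * (1 - t)))) (Real.exp (-(a * (1 - t))) * a) t := by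
      have h2 : HasDerivAt (fun t : ℝ => -(a * (1 - t))) a t := by
        have h3 : HasDerivAt (fun t : ℝ => a * (t - 1)) a t := by
          simpa using ((hasDerivAt_id t).sub_const 1).const_mul a
        exact h3.congr_of_eventuallyEq (Eventually.of_forall fun t => by ring)
      exact h2.exp
    have h2 : HasDerivAt (fun t : ℝ => 2 + Real.exp K * (t - t0)) (Real.exp K) t := by
      have h3 := (((hasDerivAt_id t).sub_const t0).const_mul (Real.exp K)).const_add 2
      simpa using h3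
    have h3 := h2.add (h1.const_mul (M / a))
    refine (h3.congr_deriv ?_).hasDerivWithinAt
    field_simp
  · intro t ht
    have h0 : ‖(t : ℂ) * z‖ = t := hnt t (ht00.le.trans ht.1)
    have h1 := (hDs t ht.1 ht.2.le).2
    have h2 : ‖exp (k.eval (t * z))‖ ≤ Real.exp K := by
      rw [Complex.norm_exp, Real.exp_le_exp]
      exact (Complex.re_le_norm _).trans
        (hK (t * z) (by rw [mem_closedBall_zero_iff, h0]; exact ht.2.le)).1
    have h3 : (Ef k Λ N (t * z) - exp (k.eval (t * z))) * z - D t * z =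
        -((D t - Ef k Λ N (t * z)) + exp (k.eval (t * z))) * z := by ring
    change ‖(Ef k Λ N (t * z) - exp (k.eval (t * z))) * z - D t * z‖ ≤
      Real.exp K + M * Real.exp (-(a * (1 - t)))
    rw [h3, norm_mul, norm_neg, hz, mul_one]
    have h4 := norm_add_le (D t - Ef k Λ N (t * z)) (exp (k.eval (t * z)))
    have h5 := b7 N hN (t * z) (by rw [h0]; exact ht.1) (by rw [h0]; exact ht.2.le)
    rw [h0] at h5
    have h6 := one_sub_pow_ge (by omega : 4 ≤ N) ht.1 ht.2.le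
    have h7 : (k.eval (t * z) + Hf k Λ N (t * z)).re ≤ Λ + 2 + -(a * (1 - t)) := by
      have h8 : (Λ - K4) * (N * (1 - t) / 5) ≤ (Λ - K4) * (1 - t ^ N) :=
        mul_le_mul_of_nonneg_left h6 (by linarith)
      have h9 : a * (1 - t) = (Λ - K4) * (N * (1 - t) / 5) / 2 := by
        rw [ha]
        ring
      rw [h9]
      linarith
    have h8 : ‖exp (k.eval (t * z) + Hf k Λ N (t * z))‖ ≤
        Real.exp (Λ + 2) * Real.exp (-(a * (1 - t))) := by
      rw [Complex.norm_exp, ← Real.exp_add]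
      exact Real.exp_le_exp.2 h7
    have h9 : C3 / Λ * ‖exp (k.eval (t * z) + Hf k Λ N (t * z))‖ ≤
        M * Real.exp (-(a * (1 - t))) := by
      have h10 : C3 / Λ ≤ |C3| / Λ := div_le_div_of_nonneg_right (le_abs_self _) (by linarith)
      calc C3 / Λ * ‖exp (k.eval (t * z) + Hf k Λ N (t * z))‖
          ≤ |C3| / Λ * (Real.exp (Λ + 2) * Real.exp (-(a * (1 - t)))) :=
            mul_le_mul h10 h8 (norm_nonneg _) (by positivity)
        _ = M * Real.exp (-(a * (1 - t))) := by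
            rw [hM]
            ring
    linarith

end Pool.Agent.Helper61.Lac
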