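import Pool.Agent.Helper61.Lac.LC5

/-!
# LC-6: upper and lower bounds for `V`
-/

set_option autoImplicit false

open Filter Topology Metric Complex Polynomial Real
open scoped ComplexConjugate

namespace Pool.Agent.Helper61.Lac

namespace LC6

/-- the main term is at most `2 κ (Λ + K + 1)` -/
lemma term_le {κ Λ K : ℝ} (hκ : 0 < κ) (hK : 0 ≤ K) (hΛ2 : 2 ≤ Λ) (hΛK : 2 * K ≤ Λ)
    (hΛ3 : 2 * (K + 1) ^ 2 ≤ Λ) {N : ℕ} (hN : NOK κ Λ N) (hN0 : (0 : ℝ) < N)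
    {lam X : ℝ} (hlam : Λ - K ≤ lam) (hX : 0 ≤ X) (hr : 1 / 2 ≤ rho Λ) :
    Real.exp (Λ - lam * X) / (2 * rho Λ * N * lam) ≤ 2 * κ * (Λ + K + 1) := by
  have hΛ0 : 0 < Λ := by linarith
  have hlam0 : 0 < Λ - K := by linarith
  have hlam1 : 0 < lam := by linarith
  rw [div_le_iff₀ (by positivity)]
  have h1 : Real.exp (Λ - lam * X) ≤ 4 * κ * Λ ^ 2 * N := by
    refine le_trans (Real.exp_le_exp.2 ?_) hN.lower
    have : 0 ≤ lam * X := by positivity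
    linarith
  refine h1.trans ?_
  have h2 : Λ ^ 2 ≤ (Λ + K + 1) * (rho Λ * (Λ - K)) := by
    have h3 : rho Λ = 1 - (Λ ^ 3)⁻¹ := rfl
    have h5 : 0 < (Λ ^ 3)⁻¹ := by positivity
    have h4 : (Λ ^ 3)⁻¹ * (Λ - K) ≤ 1 / 4 := by
      rw [inv_mul_le_iff₀ (by positivity)]
      nlinarith [mul_nonneg hΛ0.le (by nlinarith : (0 : ℝ) ≤ Λ ^ 2 - 4)]
    have h6 : (Λ ^ 3)⁻¹ * (Λ - K) * (Λ + K + 1) ≤ 1 / 4 * (Λ + K + 1) :=
      mul_le_mul_of_nonneg_right h4 (by linarith)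
    rw [h3]
    nlinarith
  have h3 : (Λ + K + 1) * (rho Λ * (Λ - K)) ≤ (Λ + K + 1) * (rho Λ * lam) :=
    mul_le_mul_of_nonneg_left (mul_le_mul_of_nonneg_left hlam (by linarith)) (by linarith)
  have h4 : 0 ≤ 4 * κ * N := by positivity
  have h5 := mul_le_mul_of_nonneg_left (h2.trans h3) h4
  calc 4 * κ * Λ ^ 2 * N = 4 * κ * N * Λ ^ 2 := by ring
    _ ≤ 4 * κ * N * ((Λ + K + 1) * (rho Λ * lam)) := h5
    _ = 2 * κ * (Λ + K + 1) * (2 * rho Λ * N * lam) := by ring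

/-- the main term is at least `2 κ (Λ - K - 2)` where the Poisson kernel is small -/
lemma term_ge {κ Λ K : ℝ} (hκ : 0 < κ) (hK : 0 ≤ K) (hΛ2 : 2 ≤ Λ) (hΛK : 2 * K ≤ Λ)
    {N : ℕ} (hN : NOK κ Λ N) (hNΛ : Λ ≤ N)
    {lam X : ℝ} (hlam : Λ - K ≤ lam) (hlam' : lam ≤ Λ + K) (hX : X ≤ (Λ ^ 2)⁻¹ / 2)
    (hr : 1 / 2 ≤ rho Λ) (hr1 : rho Λ < 1) :
    2 * κ * (Λ - K - 2) ≤ Real.exp (Λ - lam * X) / (2 * rho Λ * N * lam) := by
  have hΛ0 : 0 < Λ := by linarith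
  have hN0 : (0 : ℝ) < N := by linarith
  have hlam0 : 0 < Λ - K := by linarith
  have hlam1 : 0 < lam := by linarith
  have hlX : lam * X ≤ 1 / Λ := by
    have h1 : lam * X ≤ lam * ((Λ ^ 2)⁻¹ / 2) := mul_le_mul_of_nonneg_left hX hlam1.le
    have h2 : lam * ((Λ ^ 2)⁻¹ / 2) ≤ (2 * Λ) * ((Λ ^ 2)⁻¹ / 2) :=
      mul_le_mul_of_nonneg_right (by linarith) (by positivity)
    have h3 : (2 * Λ) * ((Λ ^ 2)⁻¹ / 2) = 1 / Λ := by
      field_simp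
    linarith
  have h1 : Real.exp Λ * (1 - 1 / Λ) ≤ Real.exp (Λ - lam * X) := by
    have h2 : 1 - 1 / Λ ≤ Real.exp (-(lam * X)) := by
      have := Real.add_one_le_exp (-(lam * X))
      linarith
    have h3 := mul_le_mul_of_nonneg_left h2 (Real.exp_pos Λ).le
    rw [← Real.exp_add] at h3
    exact h3
  have h2 : 4 * κ * Λ ^ 2 * (N * (1 - 1 / Λ)) ≤ Real.exp Λ := by
    refine le_trans ?_ hN.upper
    refine mul_le_mul_of_nonneg_left ?_ (by positivity)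
    have h3 : 1 ≤ (N : ℝ) / Λ := by
      rw [le_div_iff₀ hΛ0]
      linarith
    have h4 : (N : ℝ) * (1 - 1 / Λ) = N - N / Λ := by ring
    rw [h4]
    linarith
  have h3 : 0 ≤ 1 - 1 / Λ := by
    rw [sub_nonneg, div_le_one hΛ0]
    linarith
  have h4 : 4 * κ * N * (Λ - 1) ^ 2 ≤ Real.exp (Λ - lam * X) := by
    refine le_trans ?_ h1
    have h5 := mul_le_mul_of_nonneg_right h2 h3
    refine le_trans (le_of_eq ?_) h5
    field_simp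
  rw [le_div_iff₀ (by positivity)]
  refine le_trans ?_ h4
  rcases le_or_gt (Λ - K - 2) 0 with h5 | h5
  · have h6 : 2 * κ * (Λ - K - 2) * (2 * rho Λ * N * lam) ≤ 0 := by
      have : 0 ≤ 2 * rho Λ * N * lam := by positivity
      have h7 : 2 * κ * (Λ - K - 2) ≤ 0 := by nlinarith
      exact mul_nonpos_of_nonpos_of_nonneg h7 this
    have h7 : 0 ≤ 4 * κ * N * (Λ - 1) ^ 2 := by positivity
    linarith
  · have h6 : rho Λ * lam ≤ 1 * (Λ + K) := mul_le_mul hr1.le hlam' hlam1.le zero_le_one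
    have h7 : (Λ - K - 2) * (rho Λ * lam) ≤ (Λ - K - 2) * (1 * (Λ + K)) :=
      mul_le_mul_of_nonneg_left h6 h5.le
    have h8 : (Λ - K - 2) * (1 * (Λ + K)) ≤ (Λ - 1) ^ 2 := by nlinarith
    have h9 : 0 ≤ 4 * κ * N := by positivity
    have h10 := mul_le_mul_of_nonneg_left (h7.trans h8) h9
    refine le_trans (le_of_eq ?_) h10
    ring

lemma Xf_nonneg {Λ : ℝ} (hr : 0 ≤ rho Λ) (hr1 : rho Λ < 1) (N : ℕ) (z : ℂ) : 0 ≤ Xf Λ N z := by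
  unfold Xf
  have : 0 ≤ 1 - rho Λ ^ 2 := by nlinarith
  positivity

lemma Xf_le {Λ : ℝ} (hΛ : 0 < Λ) (hr : 0 ≤ rho Λ) (hr1 : rho Λ < 1) {N : ℕ} {z : ℂ}
    (h : 2 * Λ ^ (-(1 / 2) : ℝ) ≤ ‖1 - (rho Λ : ℂ) * z ^ N‖) : Xf Λ N z ≤ (Λ ^ 2)⁻¹ / 2 := by
  have h0 : 0 < Λ ^ (-(1 / 2) : ℝ) := Real.rpow_pos_of_pos hΛ _
  have h1 : (Λ ^ (-(1 / 2) : ℝ)) ^ 2 = Λ⁻¹ := by
    rw [← Real.rpow_natCast, ← Real.rpow_mul hΛ.le]
    norm_num
    exact Real.rpow_neg_one Λ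
  have h2 : 4 * Λ⁻¹ ≤ ‖1 - (rho Λ : ℂ) * z ^ N‖ ^ 2 := by
    rw [← h1]
    have := pow_le_pow_left₀ (by positivity) h 2
    nlinarith
  have h3 : 1 - rho Λ ^ 2 ≤ 2 * (Λ ^ 3)⁻¹ := by
    have h4 : rho Λ = 1 - (Λ ^ 3)⁻¹ := rfl
    nlinarith [sq_nonneg ((Λ ^ 3)⁻¹)]
  unfold Xf
  rw [div_le_iff₀ (lt_of_lt_of_le (by positivity) h2)]
  refine h3.trans ?_
  have h5 : (Λ ^ 2)⁻¹ / 2 * (4 * Λ⁻¹) = 2 * (Λ ^ 3)⁻¹ := by
    field_simp
    ring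
  rw [← h5]
  exact mul_le_mul_of_nonneg_left h2 (by positivity)

end LC6

open LC6

theorem V_upper (κ : ℝ) (hκ : 0 < κ) (k : ℂ[X]) :
    ∃ C : ℝ, 0 ≤ C ∧ ∀ᶠ Λ : ℝ in atTop, ∀ N : ℕ, NOK κ Λ N → ∀ V : ℂ → ℂ, IsV k Λ N V →
      ∀ z ∈ closedBall (0 : ℂ) 1, ‖V z‖ ≤ 2 * κ * Λ + C := by
  obtain ⟨K, hK0, hK⟩ := LC2.exists_bound k
  obtain ⟨C, hC⟩ := circle_est κ hκ k
  have a1 := LC2.NOK_ge_pow hκ 1 0
  refine ⟨2 * κ * (K + 1) + |C|, by positivity, ?_⟩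
  filter_upwards [a1, hC, eventually_ge_atTop (max 2 (max (2 * K) (2 * (K + 1) ^ 2)))]
    with Λ b1 b2 b8 N hN V hV z hz
  have hΛ2 : 2 ≤ Λ := (le_max_left _ _).trans b8
  have hΛK : 2 * K ≤ Λ := (le_max_left _ _).trans ((le_max_right _ _).trans b8)
  have hΛK4 : 2 * (K + 1) ^ 2 ≤ Λ := (le_max_right _ _).trans ((le_max_right _ _).trans b8)
  have hN1 : (1 : ℝ) ≤ N := by simpa using b1 N hN
  obtain ⟨hrho1, hrho2⟩ := LC3.rho_le hΛ2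
  have hcirc : ∀ w : ℂ, ‖w‖ = 1 → ‖V w‖ ≤ 2 * κ * Λ + (2 * κ * (K + 1) + |C|) := by
    intro w hw
    have h1 := b2 N hN V hV w hw
    have h2 := (hK w (by rw [mem_closedBall_zero_iff, hw])).1
    have h3 := (Complex.re_le_norm (k.eval w)).trans h2
    have h4 := term_le hκ hK0 hΛ2 hΛK hΛK4 hN (by linarith) (lam := Λ - (k.eval w).re)
      (by linarith) (Xf_nonneg (by linarith) hrho2 N w) hrho1
    have h5 := (abs_sub_le_iff.1 h1).1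
    have h6 := le_abs_self C
    linarith
  have hd : DiffContOnCl ℂ V (ball 0 1) := by
    refine DifferentiableOn.diffContOnCl ?_
    rw [closure_ball (0 : ℂ) one_ne_zero]
    exact fun w hw => (hV.deriv w hw).differentiableAt.differentiableWithinAt
  refine Complex.norm_le_of_forall_mem_frontier_norm_le isBounded_ball hd ?_ ?_
  · intro w hw
    rw [frontier_ball (0 : ℂ) one_ne_zero, mem_sphere_zero_iff_norm] at hw
    exact hcirc w hw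
  · rw [closure_ball (0 : ℂ) one_ne_zero]
    exact hz

theorem V_lower (κ : ℝ) (hκ : 0 < κ) (k : ℂ[X]) :
    ∃ C : ℝ, 0 ≤ C ∧ ∀ᶠ Λ : ℝ in atTop, ∀ N : ℕ, NOK κ Λ N → ∀ V : ℂ → ℂ, IsV k Λ N V →
      ∀ z : ℂ, ‖z‖ = 1 → 2 * Λ ^ (-(1 / 2) : ℝ) ≤ ‖1 - (rho Λ : ℂ) * z ^ N‖ →
        2 * κ * Λ - C ≤ ‖V z‖ := by
  obtain ⟨K, hK0, hK⟩ := LC2.exists_bound k
  obtain ⟨C, hC⟩ := circle_est κ hκ k
  have a1 := LC2.NOK_ge_pow hκ 1 1
  refine ⟨2 * κ * (K + 2) + |C|, by positivity, ?_⟩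
  filter_upwards [a1, hC, eventually_ge_atTop (max 2 (2 * K))]
    with Λ b1 b2 b8 N hN V hV z hz hne
  have hΛ2 : 2 ≤ Λ := (le_max_left _ _).trans b8
  have hΛK : 2 * K ≤ Λ := (le_max_right _ _).trans b8
  have hNΛ : Λ ≤ N := by simpa using b1 N hN
  obtain ⟨hrho1, hrho2⟩ := LC3.rho_le hΛ2
  have h1 := b2 N hN V hV z hz
  have h2 := (hK z (by rw [mem_closedBall_zero_iff, hz])).1
  have h3 := (Complex.re_le_norm (k.eval z)).trans h2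
  have h3' : -K ≤ (k.eval z).re := by
    have := (Complex.abs_re_le_norm (k.eval z)).trans h2
    exact (abs_le.1 this).1
  have h4 := term_ge hκ hK0 hΛ2 hΛK hN hNΛ (lam := Λ - (k.eval z).re)
    (by linarith) (by linarith) (Xf_le (by linarith) (by linarith) hrho2 hne) hrho1 hrho2
  have h5 := (abs_sub_le_iff.1 h1).2
  have h6 := le_abs_self C
  linarith

end Pool.Agent.Helper61.Lac
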