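import Pool.Agent.Helper61.Lac.LC1
import Pool.Agent.Helper61.Lac.LC10

/-!
# LC-9: one step with a polynomial exponent, from LC-1 and LC-8
-/

set_option autoImplicit false

open Filter Topology Metric Complex Polynomial Real
open scoped ComplexConjugate

namespace Pool.Agent.Helper61.Lac

/-- the statement of LC-8 -/
def CoreStatement : Prop :=
  ∀ (κ : ℝ) (_ : 0 < κ) (k : ℂ[X]) (ξ : ℂ → ℂ)
    (_ : ∀ z, HasDerivAt ξ (Complex.exp (k.eval z)) z) (_ : ξ 0 = 0) (ε : ℝ) (_ : 0 < ε) (ρ : ℝ)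
    (_ : ρ < 1),
    ∃ (k₁ ξ₁ : ℂ → ℂ) (R : ℝ), AnalyticOnNhd ℂ k₁ (closedBall 0 1) ∧
      (∀ z ∈ closedBall (0 : ℂ) 1, HasDerivAt ξ₁ (Complex.exp (k₁ z)) z) ∧ ξ₁ 0 = 0 ∧
      ρ < R ∧ 0 < R ∧ R < 1 ∧
      (∀ z, ‖z‖ ≤ ρ → ‖k₁ z - k.eval z‖ ≤ ε) ∧
      (∀ z, ‖z‖ ≤ ρ → ‖ξ₁ z - ξ z‖ ≤ ε) ∧
      (∀ z, ‖z‖ < 1 → (ξ₁ z).re ≤ max ((ξ z).re + ε) ((κ + ε) * (-Real.log (1 - ‖z‖)))) ∧
      (κ - ε) * (-Real.log (1 - R)) ≤ circleAverage (fun z => max (ξ₁ z).re 0) 0 R

/-- a primitive of the exponential of a polynomial -/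
lemma exists_entire_prim (P : ℂ[X]) :
    ∃ ξ : ℂ → ℂ, (∀ z, HasDerivAt ξ (Complex.exp (P.eval z)) z) ∧ ξ 0 = 0 := by
  have h1 : Differentiable ℂ fun z => Complex.exp (P.eval z) := P.differentiable.cexp
  obtain ⟨g, hg⟩ := h1.isExactOn_univ
  exact ⟨fun z => g z - g 0, fun z => (hg z (Set.mem_univ z)).sub_const _, sub_self _⟩

/-- exponentials of close functions are close on the disc -/
lemma exp_close {k₁ : ℂ → ℂ} {M η : ℝ} {w z : ℂ} (hM : ‖k₁ z‖ ≤ M) (hη1 : η ≤ 1)
    (h : ‖w - k₁ z‖ ≤ η) :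
    ‖Complex.exp w - Complex.exp (k₁ z)‖ ≤ Real.exp M * (2 * η) := by
  have h1 : Complex.exp w - Complex.exp (k₁ z) =
      Complex.exp (k₁ z) * (Complex.exp (w - k₁ z) - 1) := by
    rw [mul_sub, mul_one, ← Complex.exp_add]
    congr 2
    ring
  rw [h1, norm_mul, Complex.norm_exp]
  have h2 : ‖Complex.exp (w - k₁ z) - 1‖ ≤ 2 * ‖w - k₁ z‖ :=
    Complex.norm_exp_sub_one_le (h.trans hη1)
  have h3 : (k₁ z).re ≤ M := (Complex.re_le_norm _).trans hM
  gcongr
  linarith

theorem step_of_core (core : CoreStatement) : StepStatement := by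
  intro κ hκ k ξ hξ hξ0 ε hε ρ hρ
  set ρ' : ℝ := max ρ (1 / 2) with hρ'
  have hρ'1 : ρ' < 1 := max_lt hρ (by norm_num)
  obtain ⟨k₁, ξ₁, R, h1, h2, h3, h4, h5, h6, h7, h8, h9, h10⟩ :=
    core κ hκ k ξ hξ hξ0 (ε / 2) (by positivity) ρ' hρ'1
  have hR2 : 1 / 2 < R := (le_max_right _ _).trans_lt h4
  have hcont : ContinuousOn k₁ (closedBall 0 1) := fun z hz =>
    (h1 z hz).continuousAt.continuousWithinAt
  obtain ⟨M, hM⟩ := (isCompact_closedBall (0 : ℂ) 1).exists_bound_of_continuousOn hcont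
  have hlog : 0 < Real.log 2 := Real.log_pos (by norm_num)
  -- `-log (1 - R) ≥ log 2`
  have hLR : Real.log 2 ≤ -Real.log (1 - R) := by
    have h11 := Real.log_le_log (by linarith : (0 : ℝ) < 1 - R) (by linarith : 1 - R ≤ 2⁻¹)
    rw [Real.log_inv] at h11
    linarith
  set η : ℝ := min 1 (min (ε / 2) ((min (ε / 2) (ε / 2 * Real.log 2)) / (2 * Real.exp M))) with hη
  have hη0 : 0 < η := by
    rw [hη]
    positivity
  have hη1 : η ≤ 1 := min_le_left _ _
  have hη2 : η ≤ ε / 2 := (min_le_right _ _).trans (min_le_left _ _)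
  have hη3 : Real.exp M * (2 * η) ≤ min (ε / 2) (ε / 2 * Real.log 2) := by
    have h11 : η ≤ (min (ε / 2) (ε / 2 * Real.log 2)) / (2 * Real.exp M) :=
      (min_le_right _ _).trans (min_le_right _ _)
    rw [le_div_iff₀ (by positivity)] at h11
    linarith
  obtain ⟨P, hP⟩ := exists_poly_approx h1 hη0
  obtain ⟨ξP, hξP, hξP0⟩ := exists_entire_prim P
  -- closeness on the closed disc
  have hclose : ∀ z ∈ closedBall (0 : ℂ) 1, ‖ξP z - ξ₁ z‖ ≤ Real.exp M * (2 * η) := by
    intro z hz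
    have h11 := (convex_closedBall (0 : ℂ) 1).norm_image_sub_le_of_norm_hasDerivWithin_le
      (f := fun z => ξP z - ξ₁ z) (f' := fun z => Complex.exp (P.eval z) - Complex.exp (k₁ z))
      (C := Real.exp M * (2 * η))
      (fun w hw => ((hξP w).sub (h2 w hw)).hasDerivWithinAt)
      (fun w hw => exp_close (hM w hw) hη1 (hP w hw))
      (x := 0) (y := z) (mem_closedBall_self zero_le_one) hz
    rw [hξP0, h3, sub_self, sub_zero, sub_zero] at h11
    have hz1 : ‖z‖ ≤ 1 := by simpa using hz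
    refine h11.trans ?_
    have h12 : 0 ≤ Real.exp M * (2 * η) := by positivity
    nlinarith
  have hc1 : ∀ z ∈ closedBall (0 : ℂ) 1, ‖ξP z - ξ₁ z‖ ≤ ε / 2 := fun z hz =>
    (hclose z hz).trans (hη3.trans (min_le_left _ _))
  have hc2 : ∀ z ∈ closedBall (0 : ℂ) 1, ‖ξP z - ξ₁ z‖ ≤ ε / 2 * Real.log 2 := fun z hz =>
    (hclose z hz).trans (hη3.trans (min_le_right _ _))
  refine ⟨P, ξP, R, hξP, hξP0, (le_max_left _ _).trans_lt h4, h5, h6, ?_, ?_, ?_, ?_⟩
  · intro z hz
    have hz1 : z ∈ closedBall (0 : ℂ) 1 := by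
      rw [mem_closedBall_zero_iff]
      linarith
    have h11 := hP z hz1
    have h12 := h7 z (hz.trans (le_max_left _ _))
    calc ‖P.eval z - k.eval z‖ = ‖(P.eval z - k₁ z) + (k₁ z - k.eval z)‖ := by
          congr 1; ring
      _ ≤ η + ε / 2 := (norm_add_le _ _).trans (add_le_add h11 h12)
      _ ≤ ε := by linarith
  · intro z hz
    have hz1 : z ∈ closedBall (0 : ℂ) 1 := by
      rw [mem_closedBall_zero_iff]
      linarith
    have h11 := hc1 z hz1
    have h12 := h8 z (hz.trans (le_max_left _ _))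
    calc ‖ξP z - ξ z‖ = ‖(ξP z - ξ₁ z) + (ξ₁ z - ξ z)‖ := by
          congr 1; ring
      _ ≤ ε / 2 + ε / 2 := (norm_add_le _ _).trans (add_le_add h11 h12)
      _ ≤ ε := by linarith
  · intro z hz
    have hz1 : z ∈ closedBall (0 : ℂ) 1 := by
      rw [mem_closedBall_zero_iff]
      exact hz.le
    have h11 : (ξP z).re - (ξ₁ z).re ≤ ‖ξP z - ξ₁ z‖ := by
      rw [← Complex.sub_re]
      exact Complex.re_le_norm _
    rcases le_or_gt ‖z‖ ρ' with hzρ | hzρ
    · have h12 := h8 z hzρ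
      have h13 : (ξ₁ z).re - (ξ z).re ≤ ‖ξ₁ z - ξ z‖ := by
        rw [← Complex.sub_re]
        exact Complex.re_le_norm _
      have h14 := hc1 z hz1
      exact le_max_of_le_left (by linarith)
    · have hz2 : 1 / 2 < ‖z‖ := (le_max_right _ _).trans_lt hzρ
      have hLz : Real.log 2 ≤ -Real.log (1 - ‖z‖) := by
        have h12 := Real.log_le_log (by linarith : (0 : ℝ) < 1 - ‖z‖)
          (by linarith : 1 - ‖z‖ ≤ 2⁻¹)
        rw [Real.log_inv] at h12
        linarith
      rcases le_max_iff.1 (h9 z hz) with h12 | h12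
      · have h14 := hc1 z hz1
        exact le_max_of_le_left (by linarith)
      · have h14 := hc2 z hz1
        refine le_max_of_le_right ?_
        have h15 : ε / 2 * Real.log 2 ≤ ε / 2 * (-Real.log (1 - ‖z‖)) :=
          mul_le_mul_of_nonneg_left hLz (by positivity)
        linarith
  · have hmaj : circleAverage (fun z => max (ξ₁ z).re 0) 0 R ≤
        circleAverage (fun z => max (ξP z).re 0 + ε / 2 * Real.log 2) 0 R := by
      have hsub : sphere (0 : ℂ) |R| ⊆ closedBall 0 1 := by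
        intro z hz
        rw [mem_sphere_zero_iff_norm, abs_of_pos h5] at hz
        rw [mem_closedBall_zero_iff, hz]
        exact h6.le
      have hcP : Continuous ξP := continuous_iff_continuousAt.2 fun z => (hξP z).continuousAt
      have c1 : ContinuousOn (fun z => max (ξ₁ z).re 0) (sphere 0 |R|) := by
        have h11 : ContinuousOn ξ₁ (sphere 0 |R|) := fun z hz =>
          (h2 z (hsub hz)).continuousAt.continuousWithinAt
        exact (Complex.continuous_re.comp_continuousOn h11).sup continuousOn_const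
      have c2 : ContinuousOn (fun z => max (ξP z).re 0 + ε / 2 * Real.log 2) (sphere 0 |R|) :=
        (((Complex.continuous_re.comp hcP).max continuous_const).add
          continuous_const).continuousOn
      apply circleAverage_mono c1.circleIntegrable' c2.circleIntegrable'
      intro z hz
      have h11 := hc2 z (hsub hz)
      have h12 : (ξ₁ z).re - (ξP z).re ≤ ‖ξP z - ξ₁ z‖ := by
        rw [← Complex.sub_re, norm_sub_rev]
        exact Complex.re_le_norm _
      have h13 : 0 ≤ ε / 2 * Real.log 2 := by positivity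
      apply max_le
      · linarith [le_max_left (ξP z).re 0]
      · linarith [le_max_right (ξP z).re 0]
    have hsplit : circleAverage (fun z => max (ξP z).re 0 + ε / 2 * Real.log 2) 0 R =
        circleAverage (fun z => max (ξP z).re 0) 0 R + ε / 2 * Real.log 2 := by
      have hcP : Continuous ξP := continuous_iff_continuousAt.2 fun z => (hξP z).continuousAt
      have c2 : ContinuousOn (fun z => max (ξP z).re 0) (sphere 0 |R|) :=
        ((Complex.continuous_re.comp hcP).max continuous_const).continuousOn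
      have h11 := circleAverage_add (f₁ := fun z => max (ξP z).re 0)
        (f₂ := fun _ => (ε / 2 * Real.log 2 : ℝ))
        (c := 0) (R := R) c2.circleIntegrable' (circleIntegrable_const _ 0 R)
      rw [circleAverage_const] at h11
      exact h11
    have h15 : ε / 2 * Real.log 2 ≤ ε / 2 * (-Real.log (1 - R)) :=
      mul_le_mul_of_nonneg_left hLR (by positivity)
    linarith

end Pool.Agent.Helper61.Lac
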